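import Pool.Agent.W_58ccg_h2.GNegA

/-!
# General `k`, negative part: the key theorem
-/

namespace H58

open El

/-- **No disconnected open subinterval of rank at least 3.** Abstract form: `Q` a set with
`Sh (· < ·) d Q`, `x < y` such that every element of `Q` is above `x` if `x ∉ Q`, below `y` if
`y ∉ Q`; `S = {z ∈ Q | x < z ∧ z < y}` contains a chain `a0 < b0`; then `S` is not disconnected.
Proof: let `a, b ∈ S` have different colours. Extend the chain `{x, y} ∩ Q ∪ {a0, b0}` to a facet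
`G0`; `D = {z ∈ G0 | z ≤ x ∨ y ≤ z}`. If `F ⊇ D` is a facet and `z ∈ F \ D` then `x < z < y`:
`z` is comparable to `x` (`x ∈ D ⊆ F` or `x ∉ Q`), and if `z < x` then
`{z' ∈ F | z' ≤ x} ∪ {z' ∈ G0 | x < z'}` is a chain which contains `G0` properly (it contains
`{z' ∈ G0 | z' ≤ x} ⊆ D ⊆ F` and `z ∉ G0`; if `x ∉ Q` then `z < x` is impossible): more than `d`
elements, contradiction to `sh_card_le`. Similarly `z < y`. So `F \ D` is a chain of `S`, of one
colour. `D.card + 2 ≤ d` because `a0, b0 ∈ G0 \ D`. `D ∪ {a}` and `D ∪ {b}` are chains of `Q`;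
extend them to facets and apply `colour_const'`. -/
theorem neg_abs {d : ℕ} {Q : Set El} (h : Sh (· < ·) d Q) (x y : El)
    (hxQ : x ∉ Q → ∀ z ∈ Q, x < z) (hyQ : y ∉ Q → ∀ z ∈ Q, z < y) (a0 b0 : El)
    (ha0 : a0 ∈ Q) (hb0 : b0 ∈ Q) (h1 : x < a0) (h2 : a0 < b0) (h3 : b0 < y) :
    ¬ Disc {z | z ∈ Q ∧ x < z ∧ z < y} := by
  classical
  rintro ⟨col, ⟨a, ⟨haQ, hxa, hay⟩, hca⟩, ⟨b, ⟨hbQ, hxb, hby⟩, hcb⟩, hcol⟩
  have hxy : x < y := h1.trans (h2.trans h3)
  -- the chain `{x, y} ∩ Q ∪ {a0, b0}`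
  have hch0 : Chn (· < ·) ({x, y, a0, b0} : Finset El) := by
    have e1 : x < b0 := h1.trans h2
    have e2 : a0 < y := h2.trans h3
    intro u hu v hv huv
    simp only [Finset.mem_insert, Finset.mem_singleton] at hu hv
    rcases hu with rfl | rfl | rfl | rfl <;> rcases hv with rfl | rfl | rfl | rfl <;>
      first
        | exact absurd rfl huv
        | exact Or.inl (by assumption)
        | exact Or.inr (by assumption)
  obtain ⟨G0, hG00, hG0⟩ := h.2.1 (({x, y, a0, b0} : Finset El).filter (fun z => z ∈ Q))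
    (fun u hu => (Finset.mem_filter.1 hu).2)
    (fun u hu v hv huv => hch0 u (Finset.mem_filter.1 hu).1 v (Finset.mem_filter.1 hv).1 huv)
  have haG : a0 ∈ G0 := hG00 (Finset.mem_filter.2 ⟨by simp, ha0⟩)
  have hbG : b0 ∈ G0 := hG00 (Finset.mem_filter.2 ⟨by simp, hb0⟩)
  have hxG : x ∈ Q → x ∈ G0 := fun hx => hG00 (Finset.mem_filter.2 ⟨by simp, hx⟩)
  have hyG : y ∈ Q → y ∈ G0 := fun hy => hG00 (Finset.mem_filter.2 ⟨by simp, hy⟩)
  obtain ⟨D, hD⟩ : ∃ D : Finset El, D = G0.filter (fun z => z ≤ x ∨ y ≤ z) := ⟨_, rfl⟩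
  have hDm : ∀ z, z ∈ D ↔ z ∈ G0 ∧ (z ≤ x ∨ y ≤ z) := by
    intro z
    rw [hD, Finset.mem_filter]
  have hDG : D ⊆ G0 := fun z hz => ((hDm z).1 hz).1
  -- comparable elements of a facet
  have hcmp : ∀ F : Finset El, Fct (· < ·) d Q F → ∀ u ∈ F, ∀ v ∈ F, u ≠ v → u < v ∨ v < u :=
    fun F hF u hu v hv huv => hF.2.1 u hu v hv huv
  -- no facet part outside the interval
  have hbig : ∀ K : Finset El, (∀ u ∈ K, u ∈ Q) → Chn (· < ·) K → ∀ z, z ∈ K → z ∉ G0 →
      G0 ⊆ K → False := by
    intro K hK hKc z hz hzG hGK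
    have e1 := sh_card_le h K hK hKc
    have e2 : (insert z G0).card ≤ K.card := by
      apply Finset.card_le_card
      intro w hw
      rcases Finset.mem_insert.1 hw with rfl | hw
      · exact hz
      · exact hGK hw
    rw [Finset.card_insert_of_notMem hzG, hG0.2.2] at e2
    omega
  have hin : ∀ F : Finset El, Fct (· < ·) d Q F → D ⊆ F → ∀ z ∈ F, z ∉ D → x < z ∧ z < y := by
    intro F hF hDF z hz hzD
    constructor
    · by_cases hx : x ∈ Q
      · have hxD : x ∈ D := (hDm x).2 ⟨hxG hx, Or.inl le_rfl⟩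
        have hne : x ≠ z := fun he => hzD (he ▸ hxD)
        rcases hcmp F hF x (hDF hxD) z hz hne with h4 | h4
        · exact h4
        · exfalso
          have hzG : z ∉ G0 := fun hzG => hzD ((hDm z).2 ⟨hzG, Or.inl h4.le⟩)
          refine hbig (F.filter (fun w => w ≤ x) ∪ G0.filter (fun w => x < w)) ?_ ?_ z ?_ hzG ?_
          · intro u hu
            rcases Finset.mem_union.1 hu with hu | hu
            · exact hF.1 u (Finset.mem_filter.1 hu).1
            · exact hG0.1 u (Finset.mem_filter.1 hu).1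
          · intro u hu v hv huv
            rcases Finset.mem_union.1 hu with hu | hu <;>
              rcases Finset.mem_union.1 hv with hv | hv <;>
              rw [Finset.mem_filter] at hu hv
            · exact hcmp F hF u hu.1 v hv.1 huv
            · exact Or.inl (lt_of_le_of_lt hu.2 hv.2)
            · exact Or.inr (lt_of_le_of_lt hv.2 hu.2)
            · exact hcmp G0 hG0 u hu.1 v hv.1 huv
          · exact Finset.mem_union_left _ (Finset.mem_filter.2 ⟨hz, h4.le⟩)
          · intro w hw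
            by_cases hwx : w = x
            · rw [hwx]
              exact Finset.mem_union_left _ (Finset.mem_filter.2 ⟨hDF hxD, le_rfl⟩)
            · rcases hcmp G0 hG0 w hw x (hxG hx) hwx with h5 | h5
              · refine Finset.mem_union_left _ (Finset.mem_filter.2 ⟨hDF ?_, h5.le⟩)
                exact (hDm w).2 ⟨hw, Or.inl h5.le⟩
              · exact Finset.mem_union_right _ (Finset.mem_filter.2 ⟨hw, h5⟩)
      · exact hxQ hx z (hF.1 z hz)
    · by_cases hy : y ∈ Q
      · have hyD : y ∈ D := (hDm y).2 ⟨hyG hy, Or.inr le_rfl⟩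
        have hne : z ≠ y := fun he => hzD (he ▸ hyD)
        rcases hcmp F hF z hz y (hDF hyD) hne with h4 | h4
        · exact h4
        · exfalso
          have hzG : z ∉ G0 := fun hzG => hzD ((hDm z).2 ⟨hzG, Or.inr h4.le⟩)
          refine hbig (F.filter (fun w => y ≤ w) ∪ G0.filter (fun w => w < y)) ?_ ?_ z ?_ hzG ?_
          · intro u hu
            rcases Finset.mem_union.1 hu with hu | hu
            · exact hF.1 u (Finset.mem_filter.1 hu).1
            · exact hG0.1 u (Finset.mem_filter.1 hu).1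
          · intro u hu v hv huv
            rcases Finset.mem_union.1 hu with hu | hu <;>
              rcases Finset.mem_union.1 hv with hv | hv <;>
              rw [Finset.mem_filter] at hu hv
            · exact hcmp F hF u hu.1 v hv.1 huv
            · exact Or.inr (lt_of_lt_of_le hv.2 hu.2)
            · exact Or.inl (lt_of_lt_of_le hu.2 hv.2)
            · exact hcmp G0 hG0 u hu.1 v hv.1 huv
          · exact Finset.mem_union_left _ (Finset.mem_filter.2 ⟨hz, h4.le⟩)
          · intro w hw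
            by_cases hwy : w = y
            · rw [hwy]
              exact Finset.mem_union_left _ (Finset.mem_filter.2 ⟨hDF hyD, le_rfl⟩)
            · rcases hcmp G0 hG0 w hw y (hyG hy) hwy with h5 | h5
              · exact Finset.mem_union_right _ (Finset.mem_filter.2 ⟨hw, h5⟩)
              · refine Finset.mem_union_left _ (Finset.mem_filter.2 ⟨hDF ?_, h5.le⟩)
                exact (hDm w).2 ⟨hw, Or.inr h5.le⟩
      · exact hyQ hy z (hF.1 z hz)
  have hnD : ∀ z, x < z → z < y → z ∉ D := by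
    intro z hz1 hz2 hz
    rcases ((hDm z).1 hz).2 with h4 | h4
    · exact absurd (lt_of_lt_of_le hz1 h4) (lt_irrefl _)
    · exact absurd (lt_of_lt_of_le hz2 h4) (lt_irrefl _)
  have hDc : D.card + 2 ≤ d := by
    have e1 : b0 ∉ D := hnD b0 (h1.trans h2) h3
    have e2 : a0 ∉ insert b0 D := by
      rw [Finset.mem_insert]
      rintro (h4 | h4)
      · exact absurd h2 (by rw [h4]; exact lt_irrefl _)
      · exact hnD a0 h1 (h2.trans h3) h4
    have e3 : (insert a0 (insert b0 D)).card ≤ G0.card := by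
      apply Finset.card_le_card
      intro w hw
      rcases Finset.mem_insert.1 hw with rfl | hw
      · exact haG
      rcases Finset.mem_insert.1 hw with rfl | hw
      · exact hbG
      · exact hDG hw
    rw [Finset.card_insert_of_notMem e2, Finset.card_insert_of_notMem e1, hG0.2.2] at e3
    omega
  have hcF : ∀ F, Fct (· < ·) d Q F → D ⊆ F → ∀ a ∈ F, a ∉ D → ∀ b ∈ F, b ∉ D →
      (col a ↔ col b) := by
    intro F hF hDF u hu huD v hv hvD
    have e1 := hin F hF hDF u hu huD
    have e2 := hin F hF hDF v hv hvD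
    by_cases huv : u = v
    · rw [huv]
    rcases hcmp F hF u hu v hv huv with h4 | h4
    · exact hcol u ⟨hF.1 u hu, e1⟩ v ⟨hF.1 v hv, e2⟩ h4
    · exact (hcol v ⟨hF.1 v hv, e2⟩ u ⟨hF.1 u hu, e1⟩ h4).symm
  have hext : ∀ c ∈ Q, x < c → c < y → ∃ F, Fct (· < ·) d Q F ∧ D ⊆ F ∧ c ∈ F := by
    intro c hc hxc hcy
    have hcD : ∀ z ∈ D, z < c ∨ c < z := by
      intro z hz
      rcases ((hDm z).1 hz).2 with h4 | h4
      · exact Or.inl (lt_of_le_of_lt h4 hxc)
      · exact Or.inr (lt_of_lt_of_le hcy h4)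
    obtain ⟨F, hF1, hF2⟩ := h.2.1 (insert c D)
      (by
        intro u hu
        rcases Finset.mem_insert.1 hu with rfl | hu
        · exact hc
        · exact hG0.1 u (hDG hu))
      (by
        intro u hu v hv huv
        rcases Finset.mem_insert.1 hu with hu | hu <;> rcases Finset.mem_insert.1 hv with hv | hv
        · exact absurd (hu.trans hv.symm) huv
        · rw [hu]
          exact (hcD v hv).symm
        · rw [hv]
          exact hcD u hu
        · exact hG0.2.1 u (hDG hu) v (hDG hv) huv)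
    exact ⟨F, hF2, fun z hz => hF1 (Finset.mem_insert_of_mem hz), hF1 (Finset.mem_insert_self _ _)⟩
  obtain ⟨Fa, hFa, hDFa, haF⟩ := hext a haQ hxa hay
  obtain ⟨Fb, hFb, hDFb, hbF⟩ := hext b hbQ hxb hby
  exact hcb ((colour_const' h D hDc col hcF Fa Fb hFa hFb hDFa hDFb a b haF (hnD a hxa hay) hbF
    (hnD b hxb hby)).1 hca)

/-- the same for intervals of `PP`. -/
theorem neg_gen {d : ℕ} {g h : El} (hg : g ∈ PP) (hh : h ∈ PP)
    (H : Sh (· < ·) d (Op PP g h)) (x y : El) (hx : x ∈ PP) (hy : y ∈ PP) (hgx : g ≤ x)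
    (hyh : y ≤ h) (hxy : x < y) (hr : rk x + 3 ≤ rk y) : ¬ Disc (Op PP x y) := by
  obtain ⟨a0, ha0, b0, hb0, h1, h2, h3⟩ := exists_mid2 hx hy hxy hr
  have e : Op PP x y = {z | z ∈ Op PP g h ∧ x < z ∧ z < y} := by
    ext z
    constructor
    · rintro ⟨hz1, hz2, hz3⟩
      exact ⟨⟨hz1, lt_of_le_of_lt hgx hz2, lt_of_lt_of_le hz3 hyh⟩, hz2, hz3⟩
    · rintro ⟨⟨hz1, _, _⟩, hz2, hz3⟩
      exact ⟨hz1, hz2, hz3⟩
  rw [e]
  refine neg_abs H x y ?_ ?_ a0 b0 ?_ ?_ h1 h2 h3
  · intro hxQ z hz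
    have hgx' : g = x := by
      by_contra hne
      exact hxQ ⟨hx, lt_of_le_of_ne hgx hne, lt_of_lt_of_le hxy hyh⟩
    rw [← hgx']
    exact hz.2.1
  · intro hyQ z hz
    have hyh' : y = h := by
      by_contra hne
      exact hyQ ⟨hy, lt_of_le_of_lt hgx hxy, lt_of_le_of_ne hyh hne⟩
    rw [hyh']
    exact hz.2.2
  · exact ⟨ha0, lt_of_le_of_lt hgx h1, lt_of_lt_of_le (h2.trans h3) hyh⟩
  · exact ⟨hb0, lt_of_le_of_lt hgx (h1.trans h2), lt_of_lt_of_le h3 hyh⟩

end H58
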