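import Pool.Agent.W_58ccg_h2.GWd

/-!
# General `k`: prime Dyck words and the forbidden subwords
-/

namespace H58

open El

/-- prime Dyck words: as many ones as zeros, and more ones than zeros in every proper non empty
initial segment. -/
def PD (v : List Bool) : Prop :=
  v.count true = v.count false ∧
    ∀ a b, v = a ++ b → a ≠ [] → b ≠ [] → a.count false < a.count true

/-- `w` has no subword `0^p v 1^q`, `v` prime Dyck with `m ≥ 3` ones, `p + m + q = n`. -/
def AvB (n : ℕ) (w : List Bool) : Prop :=
  ∀ p q v, PD v → 3 ≤ v.count true → p + v.count true + q = n →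
    ¬ (List.replicate p false ++ v ++ List.replicate q true).Sublist w

theorem avb_mono {n : ℕ} {u v : List Bool} (h : u.Sublist v) (hv : AvB n v) : AvB n u :=
  fun p q w hw h3 hn hs => hv p q w hw h3 hn (hs.trans h)

theorem avb_zero {n : ℕ} {h' : List Bool} (hn : 1 ≤ n) (h : AvB n (false :: h')) :
    AvB (n - 1) h' := by
  intro p q v hv h3 hpq hs
  refine h (p + 1) q v hv h3 (by omega) ?_
  rw [List.replicate_succ, List.cons_append, List.cons_append]
  exact hs.cons_cons false

/-- a prime Dyck word with exactly two ones is `1100`. -/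
theorem pd_two {v : List Bool} (h : PD v) (h2 : v.count true = 2) :
    v = [true, true, false, false] := by
  obtain ⟨h1, h3⟩ := h
  rcases v with _ | ⟨a, _ | ⟨b, _ | ⟨c, _ | ⟨d, _ | ⟨e, t⟩⟩⟩⟩⟩
  · simp at h2
  · cases a <;> simp at h1 h2
  · cases a <;> cases b <;> simp at h1 h2
  · cases a <;> cases b <;> cases c <;> simp at h1 h2
  · have ha := h3 [a] [b, c, d] rfl (by simp) (by simp)
    have hb := h3 [a, b] [c, d] rfl (by simp) (by simp)
    cases a <;> cases b <;> cases c <;> cases d <;> simp at h1 h2 ha hb ⊢
  · exfalso
    have hl : ∀ l : List Bool, l.count true + l.count false = l.length := by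
      intro l
      induction l with
      | nil => rfl
      | cons x l ih =>
        cases x <;> simp <;> omega
    have h4 := hl (a :: b :: c :: d :: e :: t)
    rw [← h1, h2] at h4
    simp at h4

end H58
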