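import Pool.Agent.W_58ccg_h2.GNegA
import Pool.Agent.W_58ccg_h2.GGood

/-!
# General `k`: the obstructions
-/

namespace H58

open El

/-- the obstruction words `0^p v 1^q`. -/
def obw (p q : ℕ) (v : List Bool) : List Bool :=
  List.replicate p false ++ v ++ List.replicate q true

/-- a cut for a sorted subword. -/
theorem GObs_cut {a b : ℕ} {v : List Bool}
    (hs : (List.replicate a false ++ List.replicate b true).Sublist v) :
    ∃ A B, v = A ++ B ∧ a ≤ A.count false ∧ b ≤ B.count true := by
  obtain ⟨A, B, h1, h2, h3⟩ := List.append_sublist_iff.1 hs
  exact ⟨A, B, h1, List.replicate_sublist_iff.1 h2, List.replicate_sublist_iff.1 h3⟩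

theorem GObs_pd {v A B : List Bool} (h : PD v) (e : v = A ++ B) :
    (A = [] ∨ B = []) ∨ A.count false + B.count true < v.count true := by
  by_cases hA : A = []
  · exact Or.inl (Or.inl hA)
  by_cases hB : B = []
  · exact Or.inl (Or.inr hB)
  right
  have h1 := h.2 A B e hA hB
  rw [e, List.count_append]
  omega

theorem GObs_len (l : List Bool) : l.count false + l.count true = l.length := by
  induction l with
  | nil => rfl
  | cons b l ih =>
    cases b <;> simp <;> omega

theorem GObs_rep (n : ℕ) (b : Bool) : (List.replicate n b).count (!b) = 0 := by
  rw [List.count_eq_zero]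
  intro h
  have h1 := List.eq_of_mem_replicate h
  cases b <;> simp at h1

theorem GObs_rep_tf (n : ℕ) : (List.replicate n true).count false = 0 := GObs_rep n true

theorem GObs_rep_ft (n : ℕ) : (List.replicate n false).count true = 0 := GObs_rep n false

theorem GObs_lis_pre (p : ℕ) (w : List Bool) : lis (List.replicate p false ++ w) = p + lis w := by
  induction p with
  | zero => simp
  | succ p ih =>
    rw [List.replicate_succ, List.cons_append, lis_false, ih]
    omega

theorem GObs_lis_suf (l : List Bool) (q : ℕ) : lis (l ++ List.replicate q true) = lis l + q := by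
  induction l with
  | nil =>
    rw [List.nil_append, lis_nil, zero_add]
    induction q with
    | zero => rfl
    | succ q ih =>
      rw [List.replicate_succ, lis_true, ih, List.count_replicate_self]
      omega
  | cons b z ih =>
    cases b
    · rw [List.cons_append, lis_false, lis_false, ih]
      omega
    · rw [List.cons_append, lis_true, lis_true, ih, List.count_append, List.count_replicate_self]
      omega

/-- a sorted subword of a prime Dyck word `v` with `m` ones has at most `m` letters. -/
theorem pd_lis {v : List Bool} (h : PD v) : lis v = v.count true := by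
  apply le_antisymm
  · obtain ⟨a, b, hab, hs⟩ := (le_lis_iff (lis v) v).1 le_rfl
    obtain ⟨A, B, e, ha, hb⟩ := GObs_cut hs
    have h1 := h.1
    have h2 : v.count true = A.count true + B.count true := by rw [e, List.count_append]
    have h3 : v.count false = A.count false + B.count false := by rw [e, List.count_append]
    rcases GObs_pd h e with (hA | hB) | h4
    · rw [hA, List.count_nil] at ha
      omega
    · rw [hB, List.count_nil] at hb
      omega
    · omega
  · exact count_le_lis v

/-- a sorted subword with `m` letters of a prime Dyck word with `m` ones is `1^m` or `0^m`: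
if it is `0^a 1^b`, `a, b ≥ 1`, a cut `v = A ++ B` has `#0 A ≥ a`, `#1 B ≥ b`, so
`#0 A ≥ #1 A`. -/
theorem pd_sorted {v : List Bool} (h : PD v) (a b : ℕ) (hab : a + b = v.count true)
    (hs : (List.replicate a false ++ List.replicate b true).Sublist v) : a = 0 ∨ b = 0 := by
  obtain ⟨A, B, e, ha, hb⟩ := GObs_cut hs
  rcases GObs_pd h e with (hA | hB) | h4
  · rw [hA, List.count_nil] at ha
    exact Or.inl (by omega)
  · rw [hB, List.count_nil] at hb
    exact Or.inr (by omega)
  · exfalso
    omega

/-- sorted subwords of maximal length of an obstruction. -/
theorem GObs_cut_obw {p q a b : ℕ} {v : List Bool} (h : PD v) (hab : p + v.count true + q ≤ a + b)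
    (hs : (List.replicate a false ++ List.replicate b true).Sublist (obw p q v)) :
    (a = p ∧ b = v.count true + q) ∨ (a = p + v.count true ∧ b = q) := by
  obtain ⟨A, B, e, ha, hb⟩ := GObs_cut hs
  have h1 := h.1
  unfold obw at e
  rcases List.append_eq_append_iff.1 e with ⟨as, rfl, h2⟩ | ⟨bs, h2, rfl⟩
  · -- the cut is in the last part
    have c1 : q = as.count true + B.count true := by
      rw [← List.count_append, ← h2, List.count_replicate_self]
    have c2 : 0 = as.count false + B.count false := by
      rw [← List.count_append, ← h2, GObs_rep_tf]
    rw [List.count_append, List.count_append, List.count_replicate_self] at ha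
    right
    omega
  · rw [List.count_append, List.count_replicate_self] at hb
    rcases List.append_eq_append_iff.1 h2 with ⟨as, rfl, h3⟩ | ⟨cs, h3, rfl⟩
    · rw [List.count_append, List.count_replicate_self] at ha
      have c1 : v.count true = as.count true + bs.count true := by rw [h3, List.count_append]
      have c2 : v.count false = as.count false + bs.count false := by rw [h3, List.count_append]
      rcases GObs_pd h h3 with (hA | hB) | h4
      · have c3 : as.count true = 0 := by rw [hA, List.count_nil]
        have c4 : as.count false = 0 := by rw [hA, List.count_nil]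
        left
        omega
      · rw [hB, List.count_nil] at hb
        right
        omega
      · exfalso
        omega
    · have c1 : p = A.count false + cs.count false := by
        rw [← List.count_append, ← h3, List.count_replicate_self]
      have c2 : 0 = A.count true + cs.count true := by
        rw [← List.count_append, ← h3, GObs_rep_ft]
      rw [List.count_append] at hb
      left
      omega

/-- `lis (0^p v 1^q) = p + m + q`. -/
theorem lis_obw {p q : ℕ} {v : List Bool} (h : PD v) :
    lis (obw p q v) = p + v.count true + q := by
  unfold obw
  rw [GObs_lis_suf, GObs_lis_pre, pd_lis h]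

theorem GObs_obw_true (p q : ℕ) (v : List Bool) :
    (obw p q v).count true = v.count true + q := by
  unfold obw
  rw [List.count_append, List.count_append, List.count_replicate_self, GObs_rep_ft, zero_add]

theorem GObs_obw_false (p q : ℕ) (v : List Bool) :
    (obw p q v).count false = p + v.count false := by
  unfold obw
  rw [List.count_append, List.count_append, List.count_replicate_self, GObs_rep_tf, add_zero]

/-- elements between `idp n` and the obstruction: all the ones, or all the zeros, not both. -/
theorem obw_between {p q : ℕ} {v u : List Bool} (h : PD v) (h3 : 3 ≤ v.count true) (hu : Fw u)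
    (hl : p + v.count true + q ≤ lis u) (hlt : wd u < wd (obw p q v)) :
    (u.count true = v.count true + q ∧ u.count false < p + v.count true) ∨
      (u.count false = p + v.count true ∧ u.count true < v.count true + q) := by
  obtain ⟨a, b, hab, hs⟩ := (le_lis_iff _ u).1 hl
  obtain ⟨h1, h2⟩ := (lt_wd_wd_len _ _).1 hlt
  have h4 := GObs_cut_obw h (by omega) (hs.trans h1)
  have e0 := h.1
  have e1 := h1.count_le true
  have e2 := h1.count_le false
  rw [GObs_obw_true] at e1
  rw [GObs_obw_false] at e2
  have e3 := hs.count_le true
  have e4 := hs.count_le false
  rw [List.count_append, List.count_replicate_self, GObs_rep_ft] at e3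
  rw [List.count_append, List.count_replicate_self, GObs_rep_tf] at e4
  have e5 := GObs_len u
  have e6 := GObs_len (obw p q v)
  rw [GObs_obw_true, GObs_obw_false] at e6
  rcases h4 with h4 | h4
  · left
    omega
  · right
    omega

/-- the first two letters. -/
theorem GObs_head {v : List Bool} (h : PD v) (h3 : 3 ≤ v.count true) :
    ∃ t, v = true :: true :: t ∧ false ∈ t := by
  obtain ⟨h1, h2⟩ := h
  match v, h1, h2, h3 with
  | [], _, _, h3 => simp at h3
  | [a], _, _, h3 => cases a <;> simp at h3
  | [a, b], _, _, h3 => cases a <;> cases b <;> simp at h3
  | a :: b :: c :: t, h1, h2, h3 =>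
    have ha := h2 [a] (b :: c :: t) rfl (by simp) (by simp)
    have hb := h2 [a, b] (c :: t) rfl (by simp) (by simp)
    cases a
    · simp at ha
    cases b
    · simp at hb
    refine ⟨c :: t, rfl, ?_⟩
    rw [← List.count_pos_iff]
    have e1 : (true :: true :: c :: t).count false = (c :: t).count false := by
      rw [List.count_cons_of_ne (by simp), List.count_cons_of_ne (by simp)]
    omega

/-- the last letter. -/
theorem GObs_last {v : List Bool} (h : PD v) (h3 : 3 ≤ v.count true) :
    ∃ t, v = t ++ [false] := by
  rcases List.eq_nil_or_concat v with h4 | ⟨t, x, h4⟩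
  · rw [h4] at h3
    simp at h3
  rw [List.concat_eq_append] at h4
  have ht : t ≠ [] := by
    intro ht
    rw [h4, ht] at h3
    cases x <;> simp at h3
  have h5 := h.2 t [x] h4 ht (by simp)
  have h1 := h.1
  cases x
  · exact ⟨t, h4⟩
  · exfalso
    rw [h4, List.count_append, List.count_append] at h1
    have e1 : List.count true [true] = 1 := rfl
    have e2 : List.count false [true] = 0 := rfl
    omega

theorem GObs_Fw_true {u : List Bool} (h : false ∈ u) : Fw (true :: u) :=
  (List.singleton_sublist.2 h).cons_cons true

theorem GObs_Fw_obw (p q : ℕ) {v : List Bool} (h : Fw v) : Fw (obw p q v) := by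
  unfold obw Fw at *
  exact (h.trans (List.sublist_append_right _ _)).trans (List.sublist_append_left _ _)

/-- **the obstruction interval is disconnected** (colour: all the ones). -/
theorem disc_obw {p q : ℕ} {v : List Bool} (h : PD v) (h3 : 3 ≤ v.count true) :
    Disc (Op PP (idp (p + v.count true + q)) (wd (obw p q v))) := by
  have h1 := h.1
  have hlo := lis_obw (p := p) (q := q) h
  refine ⟨fun e => ∃ u, e = wd u ∧ u.count true = v.count true + q, ?_, ?_, ?_⟩
  · -- delete the last zero of `v`
    obtain ⟨t, ht⟩ := GObs_last h h3
    obtain ⟨t2, ht2, _⟩ := GObs_head h h3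
    have c1 : v.count true = t.count true := by
      rw [ht, List.count_append]
      rfl
    have c2 : v.count false = t.count false + 1 := by
      rw [ht, List.count_append]
      rfl
    have hF : Fw t := by
      cases t with
      | nil => simp at c2 c1; omega
      | cons x t' =>
        have hx : x = true := by
          rw [ht, List.cons_append] at ht2
          exact (List.cons.inj ht2).1
        subst hx
        apply GObs_Fw_true
        rw [← List.count_pos_iff]
        rw [List.count_cons_of_ne (by simp)] at c2
        omega
    refine ⟨wd (obw p q t), ⟨(wd_mem_PP _).2 (GObs_Fw_obw p q hF), ?_, ?_⟩, obw p q t, rfl, ?_⟩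
    · rw [lt_id_wd, le_lis_iff]
      refine ⟨p, v.count true + q, by omega, ?_⟩
      unfold obw
      rw [List.append_assoc]
      refine List.Sublist.append (List.Sublist.refl _) ?_
      rw [List.replicate_sublist_iff, List.count_append, List.count_replicate_self, c1]
    · rw [lt_wd_wd_len]
      refine ⟨?_, ?_⟩
      · unfold obw
        refine List.Sublist.append (List.Sublist.append (List.Sublist.refl _) ?_)
          (List.Sublist.refl _)
        rw [ht]
        exact List.sublist_append_left _ _
      · unfold obw
        rw [ht]
        simp only [List.length_append, List.length_replicate, List.length_cons, List.length_nil]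
        omega
    · rw [GObs_obw_true, c1]
  · -- delete the first one of `v`
    obtain ⟨t, ht, htf⟩ := GObs_head h h3
    have c1 : v.count true = (true :: t).count true + 1 := by
      rw [ht, List.count_cons_self]
    have c2 : v.count false = (true :: t).count false := by
      rw [ht, List.count_cons_of_ne (by simp)]
    refine ⟨wd (obw p q (true :: t)),
      ⟨(wd_mem_PP _).2 (GObs_Fw_obw p q (GObs_Fw_true htf)), ?_, ?_⟩, ?_⟩
    · rw [lt_id_wd, le_lis_iff]
      refine ⟨p + v.count true, q, rfl, ?_⟩
      unfold obw
      refine List.Sublist.append ?_ (List.Sublist.refl _)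
      rw [List.replicate_sublist_iff, List.count_append, List.count_replicate_self, ← c2, h1]
    · rw [lt_wd_wd_len]
      refine ⟨?_, ?_⟩
      · unfold obw
        refine List.Sublist.append (List.Sublist.append (List.Sublist.refl _) ?_)
          (List.Sublist.refl _)
        rw [ht]
        exact List.sublist_cons_self _ _
      · unfold obw
        rw [ht]
        simp only [List.length_append, List.length_replicate, List.length_cons]
        omega
    · rintro ⟨u, hu, hu2⟩
      rw [← El.wd.inj hu, GObs_obw_true] at hu2
      omega
  · -- constant on comparable pairs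
    have hform : ∀ e ∈ Op PP (idp (p + v.count true + q)) (wd (obw p q v)), ∃ u, e = wd u ∧
        ((u.count true = v.count true + q ∧ u.count false < p + v.count true) ∨
          (u.count false = p + v.count true ∧ u.count true < v.count true + q)) := by
      rintro e ⟨he1, he2, he3⟩
      cases e with
      | idp n =>
        exfalso
        rw [lt_id_id] at he2
        rw [lt_id_wd] at he3
        omega
      | wd u =>
        exact ⟨u, rfl, obw_between h h3 ((wd_mem_PP u).1 he1) ((lt_id_wd _ _).1 he2) he3⟩
    intro a ha b hb hab
    obtain ⟨u, rfl, hu⟩ := hform a ha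
    obtain ⟨w, rfl, hw⟩ := hform b hb
    have h4 := ((lt_wd_wd _ _).1 hab).1
    have e1 := h4.count_le true
    have e2 := h4.count_le false
    constructor
    · rintro ⟨u', hu', hu2⟩
      rw [← El.wd.inj hu'] at hu2
      exact ⟨w, rfl, by omega⟩
    · rintro ⟨w', hw', hw2⟩
      rw [← El.wd.inj hw'] at hw2
      exact ⟨u, rfl, by omega⟩

/-- the obstruction is in `F`, has length `p + 2m + q`. -/
theorem obw_Fw {p q : ℕ} {v : List Bool} (h : PD v) (h3 : 3 ≤ v.count true) :
    Fw (obw p q v) ∧ (obw p q v).length = p + 2 * v.count true + q := by
  have h1 := h.1
  constructor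
  · obtain ⟨t, ht, htf⟩ := GObs_head h h3
    apply GObs_Fw_obw
    rw [ht]
    exact (GObs_Fw_true htf).cons true
  · rw [← GObs_len, GObs_obw_true, GObs_obw_false]
    omega

end H58
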