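import Pool.Agent.W_58ccg_h2.GPos
import Pool.Agent.W_58ccg_h2.GNegB
import Pool.Agent.W_58ccg_h2.GObs

/-!
# General `k`: the classification for words
-/

namespace H58

open El

/-- all `n ≥ k` avoid: (iii) for words. -/
def Av (k : ℕ) (w : List Bool) : Prop := ∀ n, k ≤ n → AvB n w

/-- bottom an identity. -/
theorem all_id (w : List Bool) (hF : Fw w) (k : ℕ) (hk : k ≤ lis w) :
    (Av k w → ShI PP (idp k) (wd w)) ∧
    ((∃ d, Sh (· < ·) d (Op PP (idp k) (wd w))) → ∀ x ∈ PP, ∀ y ∈ PP, idp k ≤ x → y ≤ wd w →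
      x < y → rk x + 3 ≤ rk y → ¬ Disc (Op PP x y)) ∧
    ((∀ x ∈ PP, ∀ y ∈ PP, idp k ≤ x → y ≤ wd w → x < y → rk x + 3 ≤ rk y →
      ¬ Disc (Op PP x y)) → Av k w) := by
  refine ⟨fun h => pos_gen w hF k hk h, ?_, ?_⟩
  · rintro ⟨d, h⟩ x hx y hy hkx hyw hxy hr
    exact neg_gen (idp_mem_PP k) ((wd_mem_PP w).2 hF) h x y hx hy hkx hyw hxy hr
  · intro h n hkn p q v hv h3 hn hsub
    obtain ⟨h4, h5⟩ := obw_Fw (p := p) (q := q) hv h3
    refine h (idp (p + v.count true + q)) (idp_mem_PP _) (wd (obw p q v)) ((wd_mem_PP _).2 h4)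
      ?_ hsub ?_ ?_ (disc_obw hv h3)
    · rw [le_id_id]; omega
    · rw [lt_id_wd, lis_obw hv]
    · rw [rk_id, rk_wd, h5]; omega

/-- bottom a word: always shellable, no disconnected subinterval. -/
theorem all_wd (s w : List Bool) (hF : Fw s) (hs : wd s < wd w) :
    ShI PP (wd s) (wd w) ∧ ∀ x ∈ PP, ∀ y ∈ PP, wd s ≤ x → y ≤ wd w →
      x < y → rk x + 3 ≤ rk y → ¬ Disc (Op PP x y) := by
  have h1 : ShI PP (wd s) (wd w) :=
    sub_shI_of PP s w hs (fun u hu _ _ _ => (wd_mem_PP u).2 (List.Sublist.trans hF hu))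
  refine ⟨h1, ?_⟩
  intro x hx y hy hsx hyw hxy hr
  exact neg_gen ((wd_mem_PP s).2 hF) ((wd_mem_PP w).2 (List.Sublist.trans hF hs.le)) h1 x y hx hy
    hsx hyw hxy hr

end H58
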