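import Pool.Agent.W_58cc_h2.Red0

/-!
# General `k`: word sets, half open sets, stripping the first letter, first letter reduction

Paper proof: second row of the table `proofs` for MP_58cc3c_co (general k), sections as quoted.
`0 = false`, `1 = true`.
-/

namespace H58

open El

/-- the elements `wd u` with `P u`. -/
def PW (P : List Bool → Prop) : Set El := {e | ∃ u, e = wd u ∧ P u}

/-- the words `x ≤ u < h` with `P u`. -/
def HP (P : List Bool → Prop) (x h : List Bool) : Set El :=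
  {e | ∃ u, e = wd u ∧ P u ∧ x.Sublist u ∧ u.Sublist h ∧ u ≠ h}

/-- `u` starts with the letter `b`. -/
def St (b : Bool) (u : List Bool) : Prop := ∃ t, u = b :: t

@[simp] theorem wd_mem_PW (P : List Bool → Prop) (u : List Bool) : wd u ∈ PW P ↔ P u := by
  constructor
  · rintro ⟨v, hv, hP⟩
    rw [El.wd.inj hv]
    exact hP
  · exact fun h => ⟨u, rfl, h⟩

@[simp] theorem idp_mem_PW (P : List Bool → Prop) (n : ℕ) : idp n ∈ PW P ↔ False := by
  refine ⟨?_, fun h => h.elim⟩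
  rintro ⟨v, hv, -⟩
  cases hv

@[simp] theorem St_cons (b c : Bool) (t : List Bool) : St b (c :: t) ↔ c = b := by
  constructor
  · rintro ⟨t', ht⟩
    exact (List.cons.inj ht).1
  · rintro rfl
    exact ⟨t, rfl⟩

@[simp] theorem St_nil (b : Bool) : St b [] ↔ False := by
  refine ⟨?_, fun h => h.elim⟩
  rintro ⟨t, ht⟩
  cases ht

/-- only the words inside the interval matter. -/
theorem shI_congr {P P' : List Bool → Prop} {g : El} {h : List Bool}
    (hPP : ∀ u, g < wd u → wd u < wd h → (P u ↔ P' u)) (H : ShI (PW P) g (wd h)) :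
    ShI (PW P') g (wd h) := by
  have e : Op (PW P') g (wd h) = Op (PW P) g (wd h) := by
    ext x
    constructor
    · rintro ⟨⟨u, rfl, hu⟩, h1, h2⟩
      exact ⟨⟨u, rfl, (hPP u h1 h2).2 hu⟩, h1, h2⟩
    · rintro ⟨⟨u, rfl, hu⟩, h1, h2⟩
      exact ⟨⟨u, rfl, (hPP u h1 h2).1 hu⟩, h1, h2⟩
  unfold ShI
  rw [e]
  exact H

theorem HP_congr {P P' : List Bool → Prop} {x h : List Bool}
    (hPP : ∀ u, x.Sublist u → u.Sublist h → u ≠ h → (P u ↔ P' u)) : HP P x h = HP P' x h := by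
  ext e
  constructor
  · rintro ⟨u, rfl, hu, h1, h2, h3⟩
    exact ⟨u, rfl, (hPP u h1 h2 h3).1 hu, h1, h2, h3⟩
  · rintro ⟨u, rfl, hu, h1, h2, h3⟩
    exact ⟨u, rfl, (hPP u h1 h2 h3).2 hu, h1, h2, h3⟩

/-- a half open set is a cone over an open interval (or empty). -/
theorem half_of {P : List Bool → Prop} {x h : List Bool} (hx : P x) (hxh : x.Sublist h)
    (H : wd x < wd h → ShI (PW P) (wd x) (wd h)) : Sh (· < ·) (h.length - x.length) (HP P x h) := by
  by_cases hxe : x = h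
  · subst hxe
    have e : HP P x x = ∅ := by
      ext y
      simp only [Set.mem_empty_iff_false, iff_false]
      rintro ⟨u, rfl, _, h1, h2, h3⟩
      exact h3 (h2.antisymm h1)
    rw [e, Nat.sub_self]
    exact sh_empty _
  · have hlt : wd x < wd h := (lt_wd_wd x h).2 ⟨hxh, hxe⟩
    have hlen := ((lt_wd_wd_len x h).1 hlt).2
    have h1 := H hlt
    have e : HP P x h = insert (wd x) (Op (PW P) (wd x) (wd h)) := by
      ext y
      constructor
      · rintro ⟨u, rfl, hu, h2, h3, h4⟩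
        by_cases hux : u = x
        · exact Or.inl (by rw [hux])
        · exact Or.inr ⟨⟨u, rfl, hu⟩, (lt_wd_wd x u).2 ⟨h2, fun h => hux h.symm⟩,
            (lt_wd_wd u h).2 ⟨h3, h4⟩⟩
      · rintro (rfl | ⟨⟨u, rfl, hu⟩, h2, h3⟩)
        · exact ⟨x, rfl, hx, List.Sublist.refl x, hxh, hxe⟩
        · rw [lt_wd_wd] at h2 h3
          exact ⟨u, rfl, hu, h2.1, h3.1, h3.2⟩
    have h2 := sh_cone (wd x) (fun h => lt_irrefl _ h.2.1) (fun q hq => Or.inl hq.2.1) h1
    rw [e]
    rw [show h.length - x.length = rk (wd h) - rk (wd x) - 1 + 1 by simp only [rk_wd]; omega]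
    exact h2

/-- words starting with `b` above a word starting with `b`: strip the first letter. -/
theorem strip (P : List Bool → Prop) (b : Bool) (g h : List Bool)
    (H : ShI (PW (fun u => P (b :: u))) (wd g) (wd h)) :
    ShI (PW (fun u => P u ∧ St b u)) (wd (b :: g)) (wd (b :: h)) := by
  have h1 := sh_image (s := (· < ·)) (Sub_pre [b]) (fun x _ y _ hxy => Sub_pre_inj [b] hxy)
    (by
      rintro _ ⟨⟨u, rfl, _⟩, _⟩ _ ⟨⟨v, rfl, _⟩, _⟩
      exact Sub_pre_lt [b] u v) H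
  have e : Op (PW (fun u => P u ∧ St b u)) (wd (b :: g)) (wd (b :: h)) =
      Sub_pre [b] '' Op (PW (fun u => P (b :: u))) (wd g) (wd h) := by
    ext y
    constructor
    · rintro ⟨⟨u, rfl, hu, t, rfl⟩, h2, h3⟩
      exact ⟨wd t, ⟨⟨t, rfl, hu⟩, (Sub_pre_lt [b] g t).2 h2, (Sub_pre_lt [b] t h).2 h3⟩, rfl⟩
    · rintro ⟨_, ⟨⟨t, rfl, hu⟩, h2, h3⟩, rfl⟩
      exact ⟨⟨b :: t, rfl, hu, t, rfl⟩, (Sub_pre_lt [b] g t).1 h2, (Sub_pre_lt [b] t h).1 h3⟩
  unfold ShI
  rw [e, show rk (wd (b :: h)) - rk (wd (b :: g)) - 1 = rk (wd h) - rk (wd g) - 1 by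
    simp only [rk_wd, List.length_cons]; omega]
  exact h1

/-- words starting with `b` above a word `x` not starting with `b`: `b :: u > x` iff `u ≥ x`. -/
theorem strip_half (P : List Bool → Prop) (b : Bool) (x h : List Bool) (hx : ¬ St b x)
    (H : Sh (· < ·) (h.length - x.length) (HP (fun u => P (b :: u)) x h)) :
    ShI (PW (fun u => P u ∧ St b u)) (wd x) (wd (b :: h)) := by
  have hx' : ∀ t, x ≠ b :: t := fun t ht => hx ⟨t, ht⟩
  have h1 := sh_image (s := (· < ·)) (Sub_pre [b]) (fun x _ y _ hxy => Sub_pre_inj [b] hxy)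
    (by
      rintro _ ⟨u, rfl, _⟩ _ ⟨v, rfl, _⟩
      exact Sub_pre_lt [b] u v) H
  have e : Op (PW (fun u => P u ∧ St b u)) (wd x) (wd (b :: h)) =
      Sub_pre [b] '' HP (fun u => P (b :: u)) x h := by
    ext y
    constructor
    · rintro ⟨⟨u, rfl, hu, t, rfl⟩, h2, h3⟩
      rw [lt_wd_wd] at h2 h3
      refine ⟨wd t, ⟨t, rfl, hu, (Sub_cons hx').1 h2.1, List.cons_sublist_cons.1 h3.1, ?_⟩, rfl⟩
      exact fun h => h3.2 (by rw [h])
    · rintro ⟨_, ⟨t, rfl, hu, h2, h3, h4⟩, rfl⟩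
      refine ⟨⟨b :: t, rfl, hu, t, rfl⟩, ?_, ?_⟩
      · show wd x < wd (b :: t)
        rw [lt_wd_wd]
        exact ⟨(Sub_cons hx').2 h2, hx' t⟩
      · show wd (b :: t) < wd (b :: h)
        rw [lt_wd_wd]
        exact ⟨List.cons_sublist_cons.2 h3, fun h => h4 (List.cons.inj h).2⟩
  unfold ShI
  rw [e, show rk (wd (b :: h)) - rk (wd x) - 1 = h.length - x.length by
    simp only [rk_wd, List.length_cons]; omega]
  exact h1

/-- words starting with `0` above an identity: `lis (0u) = lis u + 1`. -/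
theorem strip_id (P : List Bool → Prop) (n : ℕ) (h : List Bool)
    (H : ShI (PW (fun u => P (false :: u))) (idp n) (wd h)) :
    ShI (PW (fun u => P u ∧ St false u)) (idp (n + 1)) (wd (false :: h)) := by
  have h1 := sh_image (s := (· < ·)) Red0_sh (fun x _ y _ hxy => Red0_sh_inj hxy)
    (fun x _ y _ => Red0_sh_lt x y) H
  have e : Op (PW (fun u => P u ∧ St false u)) (idp (n + 1)) (wd (false :: h)) =
      Red0_sh '' Op (PW (fun u => P (false :: u))) (idp n) (wd h) := by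
    ext y
    constructor
    · rintro ⟨⟨u, rfl, hu, t, rfl⟩, h2, h3⟩
      exact ⟨wd t, ⟨⟨t, rfl, hu⟩, (Red0_sh_lt (idp n) (wd t)).2 h2,
        (Red0_sh_lt (wd t) (wd h)).2 h3⟩, rfl⟩
    · rintro ⟨_, ⟨⟨t, rfl, hu⟩, h2, h3⟩, rfl⟩
      exact ⟨⟨false :: t, rfl, hu, t, rfl⟩, (Red0_sh_lt (idp n) (wd t)).1 h2,
        (Red0_sh_lt (wd t) (wd h)).1 h3⟩
  unfold ShI
  rw [e, show rk (wd (false :: h)) - rk (idp (n + 1)) - 1 = rk (wd h) - rk (idp n) - 1 by
    simp only [rk_wd, rk_id, List.length_cons]; omega]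
  exact h1

/-- half open sets of all words (`Sub.lean`). -/
theorem HP_all (x h : List Bool) (hxh : x.Sublist h) {P : List Bool → Prop}
    (hP : ∀ u, x.Sublist u → u.Sublist h → P u) : Sh (· < ·) (h.length - x.length) (HP P x h) := by
  have e : HP P x h = HO x h := by
    ext y
    constructor
    · rintro ⟨u, rfl, _, h1, h2, h3⟩
      exact ⟨u, rfl, h1, h2, h3⟩
    · rintro ⟨u, rfl, h1, h2, h3⟩
      exact ⟨u, rfl, hP u h1 h2, h1, h2, h3⟩
  rw [e]
  exact sub_HO x h hxh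

/-- the part of the `b`-words above `x` (not starting with `b`, allowed part everything). -/
theorem upper_all (P : List Bool → Prop) (b : Bool) (x h : List Bool) (hx : ¬ St b x)
    (hxh : x.Sublist h) (hP : ∀ u, x.Sublist u → u.Sublist h → P (b :: u)) :
    ShI (PW (fun u => P u ∧ St b u)) (wd x) (wd (b :: h)) := by
  exact strip_half P b x h hx (HP_all x h hxh hP)

end H58
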