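import Pool.Agent.W_58ccg_h2.GLead

/-!
# General `k`: leading letters, covers
-/

namespace H58

open El

/-- covers of `b^p x` with fewer than `p` leading `b`: insert `!b` among the leading letters. -/
theorem cover_form (b : Bool) (p : ℕ) (x a : List Bool)
    (h : (List.replicate p b ++ x).Sublist a) (hl : a.length = p + x.length + 1)
    (hlead : lead b a < p) :
    a = List.replicate (lead b a) b ++ (!b) :: (List.replicate (p - lead b a) b ++ x) := by
  obtain ⟨t, h1, h2⟩ := lead_decomp b a
  obtain ⟨s, hs⟩ : ∃ s, s = lead b a := ⟨_, rfl⟩
  rw [← hs] at h1 hlead ⊢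
  cases t with
  | nil =>
    exfalso
    have := congrArg List.length h1
    simp at this
    omega
  | cons c t =>
    rw [St_cons] at h2
    have hc : c = !b := by
      clear h1 h hl hlead hs
      revert h2
      cases b <;> cases c <;> simp
    subst hc
    have h3 := rep_sub b p s x t hlead (by rw [← h1]; exact h)
    have h4 : List.replicate (p - s) b ++ x = t := by
      apply h3.eq_of_length
      have := congrArg List.length h1
      simp at this ⊢
      omega
    rw [h4]
    exact h1

/-- `b^s (!b) u ≤ b^r (!b) y` with `s ≤ r` iff `u ≤ y`. -/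
theorem rep_sub_iff (b : Bool) (s r : ℕ) (u y : List Bool) (hsr : s ≤ r) :
    (List.replicate s b ++ (!b) :: u).Sublist (List.replicate r b ++ (!b) :: y) ↔
      u.Sublist y := by
  constructor
  · intro h
    induction r generalizing s with
    | zero =>
      obtain rfl : s = 0 := by omega
      simpa using h
    | succ r ih =>
      cases s with
      | zero =>
        apply ih 0 (by omega)
        rw [List.replicate_succ, List.cons_append] at h
        simp only [List.replicate_zero, List.nil_append] at h ⊢
        rcases List.cons_sublist_cons'.1 h with h | h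
        · exact h
        · have h1 := h.1
          cases b <;> simp at h1
      | succ s =>
        rw [List.replicate_succ, List.cons_append, List.replicate_succ, List.cons_append,
          List.cons_sublist_cons] at h
        exact ih s (by omega) h
  · intro h
    exact ((List.replicate_sublist_replicate b).2 hsr).append (h.cons_cons _)

/-- words with fewer than `r` leading `b` below `b^r (!b) y` are below `b^(r-1) (!b) y`. -/
theorem lead_apex (b : Bool) (r : ℕ) (u y : List Bool) (hu : (!b) ∈ u)
    (h : u.Sublist (List.replicate r b ++ (!b) :: y)) (hl : lead b u < r) :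
    u.Sublist (List.replicate (r - 1) b ++ (!b) :: y) := by
  obtain ⟨t, h1⟩ := lead_decomp' b u hu
  obtain ⟨s, hs⟩ : ∃ s, s = lead b u := ⟨_, rfl⟩
  rw [← hs] at h1 hl
  rw [h1] at h ⊢
  rw [rep_sub_iff b s r t y (by omega)] at h
  rw [rep_sub_iff b s (r - 1) t y (by omega)]
  exact h

/-- a lower cover of `b^(r+1) x` is `b^(r+1) z'` with `z'` a lower cover of `x`, or `b^r x`. -/
theorem pred_form (b : Bool) (r : ℕ) (x z : List Bool)
    (h : z.Sublist (List.replicate (r + 1) b ++ x)) (hl : z.length + 1 = r + 1 + x.length) :
    z = List.replicate r b ++ x ∨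
      ∃ z', z = List.replicate (r + 1) b ++ z' ∧ z'.Sublist x ∧ z'.length + 1 = x.length := by
  obtain ⟨z1, z2, rfl, h1, h2⟩ := List.sublist_append_iff.1 h
  obtain ⟨i, hi, rfl⟩ := List.sublist_replicate_iff.1 h1
  have h3 := h2.length_le
  rw [List.length_append, List.length_replicate] at hl
  by_cases hir : i = r + 1
  · right
    subst hir
    exact ⟨z2, rfl, h2, by omega⟩
  · left
    have h4 : z2 = x := h2.eq_of_length (by omega)
    have h5 : i = r := by
      rw [h4] at hl
      omega
    rw [h4, h5]

end H58
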