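import Pool.Agent.W_58ccg_h2.GV
import Pool.Agent.W_58ccg_h2.GLeadB

/-!
# General `k`: reduction of the number of leading letters, down version
-/

namespace H58

open El

/-- a cone: every word of `P` in the interval below `x` is below the apex `p` -/
private theorem GLD_cone {P : List Bool → Prop} {g : El} {p x : List Bool} (hp : P p)
    (hgp : g < wd p) (hpx : wd p < wd x) (hrk : rk g < p.length) (hlen : x.length = p.length + 1)
    (hall : ∀ u, P u → g < wd u → wd u < wd x → u.Sublist p) (H : ShI (PW P) g (wd p)) :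
    ShI (PW P) g (wd x) := by
  have e1 : Op (PW P) g (wd x) = insert (wd p) (Op (PW P) g (wd p)) := by
    ext e
    constructor
    · rintro ⟨⟨u, rfl, hu⟩, h2, h3⟩
      by_cases hup : u = p
      · left
        rw [hup]
      · right
        exact ⟨⟨u, rfl, hu⟩, h2, (lt_wd_wd u p).2 ⟨hall u hu h2 h3, hup⟩⟩
    · rintro (rfl | ⟨h1, h2, h3⟩)
      · exact ⟨⟨p, rfl, hp⟩, hgp, hpx⟩
      · exact ⟨h1, h2, h3.trans hpx⟩
  have e2 : rk (wd x) - rk g - 1 = (rk (wd p) - rk g - 1) + 1 := by
    rw [rk_wd, rk_wd, hlen]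
    omega
  unfold ShI
  rw [e1, e2]
  refine sh_cone (wd p) ?_ ?_ H
  · rintro ⟨-, -, h⟩
    exact lt_irrefl _ h
  · rintro q ⟨-, -, h⟩
    exact Or.inr h

private theorem GLD_len (b : Bool) (r : ℕ) (y : List Bool) :
    (List.replicate r b ++ (!b) :: y).length = r + y.length + 1 := by
  rw [List.length_append, List.length_replicate, List.length_cons]
  omega

private theorem GLD_le (b : Bool) (r : ℕ) (y : List Bool) :
    (List.replicate (r - 1) b ++ (!b) :: y).Sublist (List.replicate r b ++ (!b) :: y) :=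
  (List.replicate_sublist_replicate b |>.2 (Nat.sub_le r 1)).append (List.Sublist.refl _)

private theorem GLD_lt (b : Bool) (r : ℕ) (hr : 1 ≤ r) (y : List Bool) :
    wd (List.replicate (r - 1) b ++ (!b) :: y) < wd (List.replicate r b ++ (!b) :: y) := by
  rw [lt_wd_wd_len]
  refine ⟨GLD_le b r y, ?_⟩
  rw [GLD_len, GLD_len]
  omega

/-- **lead_down**: the top is `h = b^r (!b) t`, `P = U ∧ lead ≤ r ∧ ¬ Q`, `A` = words of `P` with
at most `r - 1` leading `b`; `sh_down`. For `x = b^r (!b) y` the lower part is the cone with apex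
`b^(r-1) (!b) y` (`lead_apex`) over `hlow`; `hE`: `z = b^(r-1) (!b) y` (not `g`, because
`g < b^(r-1) (!b) y`), `a = b^r (!b) y⁺`: `b^(r-1) (!b) y⁺`; `a = b^s (!b) b^(r-s) (!b) y`
(`cover_form`): `b^s (!b) b^(r-s-1) (!b) y`. Upper part: by `hQup` no `Q` above `x`, so `vshI`.
`A` part for the top: cone with apex `b^(r-1) (!b) t`. -/
theorem lead_down (U Q : List Bool → Prop) (hU : ∀ u v, U u → u.Sublist v → U v) (b : Bool)
    (hmem : ∀ u, U u → (!b) ∈ u) (g : El) (r : ℕ) (hr : 1 ≤ r) (t : List Bool)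
    (hR : (∃ s, g = wd s) ∨ ((∀ u, U u → Fw u) ∧ Fw (List.replicate r b ++ (!b) :: t)))
    (hQ : ∀ u, Q u → lead b u = r)
    (hQup : ∀ x v, U x → ¬ Q x → lead b x = r → x.Sublist v → ¬ Q v)
    (hap : ∀ y, U (List.replicate r b ++ (!b) :: y) → ¬ Q (List.replicate r b ++ (!b) :: y) →
      g < wd (List.replicate r b ++ (!b) :: y) → y.Sublist t →
      U (List.replicate (r - 1) b ++ (!b) :: y) ∧ g < wd (List.replicate (r - 1) b ++ (!b) :: y))
    (htop : U (List.replicate (r - 1) b ++ (!b) :: t) ∧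
      g < wd (List.replicate (r - 1) b ++ (!b) :: t))
    (hlow : ∀ y, y.Sublist t → U (List.replicate (r - 1) b ++ (!b) :: y) →
      g < wd (List.replicate (r - 1) b ++ (!b) :: y) →
      ShI (PW (fun u => U u ∧ lead b u ≤ r - 1)) g (wd (List.replicate (r - 1) b ++ (!b) :: y))) :
    ShI (PW (fun u => U u ∧ lead b u ≤ r ∧ ¬ Q u)) g (wd (List.replicate r b ++ (!b) :: t)) := by
  -- the rank is monotone above `g`
  have hrk : ∀ u, U u → g < wd u → rk g < u.length := by
    intro u hu hgu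
    refine rk_lt hgu ?_
    rcases hR with h | ⟨h, -⟩
    · exact Or.inl h
    · exact Or.inr ((wd_mem_PP u).2 (h u hu))
  -- the words outside the allowed part
  have hform : ∀ u, (U u ∧ lead b u ≤ r ∧ ¬ Q u) → u.Sublist (List.replicate r b ++ (!b) :: t) →
      wd u ∉ PW (fun u => U u ∧ lead b u ≤ r - 1) →
      ∃ y, u = List.replicate r b ++ (!b) :: y ∧ y.Sublist t ∧ lead b u = r := by
    rintro u ⟨hu1, hu2, hu3⟩ hut hu
    rw [wd_mem_PW] at hu
    have hl : lead b u = r := by
      by_contra hne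
      exact hu ⟨hu1, by omega⟩
    obtain ⟨y, hy⟩ := lead_decomp' b u (hmem u hu1)
    rw [hl] at hy
    refine ⟨y, hy, ?_, hl⟩
    rw [hy] at hut
    exact (rep_sub_iff b r r y t le_rfl).1 hut
  -- the cone below a word `b^r (!b) y`
  have hcone : ∀ y, y.Sublist t → U (List.replicate (r - 1) b ++ (!b) :: y) →
      g < wd (List.replicate (r - 1) b ++ (!b) :: y) →
      ShI (PW (fun u => U u ∧ lead b u ≤ r - 1)) g (wd (List.replicate r b ++ (!b) :: y)) := by
    intro y hyt hU1 hg1
    refine GLD_cone (p := List.replicate (r - 1) b ++ (!b) :: y) ⟨hU1, ?_⟩ hg1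
      (GLD_lt b r hr y) (hrk _ hU1 hg1) ?_ ?_ (hlow y hyt hU1 hg1)
    · rw [lead_rep']
    · rw [GLD_len, GLD_len]
      omega
    · rintro u ⟨hu1, hu2⟩ _ hux
      exact lead_apex b r u y (hmem u hu1) ((lt_wd_wd u _).1 hux).1 (by omega)
  refine sh_down (PW (fun u => U u ∧ lead b u ≤ r ∧ ¬ Q u))
    (PW (fun u => U u ∧ lead b u ≤ r - 1)) g _ (htop.2.trans (GLD_lt b r hr t)) ?_ ?_
    (hcone t (List.Sublist.refl t) htop.1 htop.2) ?_ ?_ ?_
  · rcases hR with h | ⟨h1, h2⟩
    · exact Or.inl h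
    · refine Or.inr ⟨?_, (wd_mem_PP _).2 h2⟩
      rintro x ⟨u, rfl, hu, -⟩
      exact (wd_mem_PP u).2 (h1 u hu)
  · rintro x ⟨u, rfl, hu1, hu2⟩
    exact ⟨u, rfl, hu1, by omega, fun hQu => by
      have := hQ u hQu
      omega⟩
  · rintro x ⟨u, rfl, hu⟩ hgx hxh hxA
    obtain ⟨y, rfl, hyt, hl⟩ := hform u hu ((lt_wd_wd u _).1 hxh).1 hxA
    obtain ⟨h1, h2⟩ := hap y hu.1 hu.2.2 hgx hyt
    exact hcone y hyt h1 h2
  · rintro x ⟨u, rfl, hu⟩ hgx hxh hxA
    obtain ⟨y, rfl, hyt, hl⟩ := hform u hu ((lt_wd_wd u _).1 hxh).1 hxA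
    refine shI_congr (P := fun u => lead b u ≤ r) ?_ (vshI b r _ _ hxh (by rw [lead_rep']))
    intro v hv1 hv2
    have hv3 := ((lt_wd_wd _ v).1 hv1).1
    constructor
    · intro h
      exact ⟨hU _ _ hu.1 hv3, h, hQup _ v hu.1 hu.2.2 hl hv3⟩
    · exact fun h => h.2.1
  · rintro x ⟨u, rfl, hu⟩ hgx hxh hxA z a hz hgz hzx hrz ha hxa hah hra
    obtain ⟨y, rfl, hyt, hl⟩ := hform u hu ((lt_wd_wd u _).1 hxh).1 hxA
    obtain ⟨h1, h2⟩ := hap y hu.1 hu.2.2 hgx hyt
    have hlx := GLD_len b r y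
    have hlp := GLD_len b (r - 1) y
    -- the lower element
    have hz' : z = wd (List.replicate (r - 1) b ++ (!b) :: y) := by
      rcases hz with rfl | ⟨v, rfl, hv1, hv2⟩
      · exfalso
        have h3 := hrk _ h1 h2
        rw [rk_wd, hlx] at hrz
        rw [hlp] at h3
        omega
      · have h3 := lead_apex b r v y (hmem v hv1) ((lt_wd_wd v _).1 hzx).1 (by omega)
        rw [h3.eq_of_length (by
          rw [rk_wd, rk_wd, hlx] at hrz
          rw [hlp]
          omega)]
    subst hz'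
    -- the upper element
    obtain ⟨w, rfl⟩ : ∃ w, a = wd w := by
      rcases ha with rfl | ⟨w, rfl, -⟩
      · exact ⟨_, rfl⟩
      · exact ⟨w, rfl⟩
    have hxw := ((lt_wd_wd _ w).1 hxa).1
    have hwt := (le_wd_wd w _).1 hah
    rw [rk_wd, rk_wd, hlx] at hra
    have hlw : lead b w ≤ r := by
      rcases ha with h3 | ⟨w', h3, -, h4, -⟩
      · cases h3
        rw [lead_rep']
      · cases h3
        exact h4
    have hUw : U w := hU _ _ hu.1 hxw
    rcases Nat.lt_or_ge (lead b w) r with hlt | hge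
    · -- `a = b^s (!b) b^(r-s) (!b) y`
      have hw := cover_form b r ((!b) :: y) w hxw (by
        rw [hra, List.length_cons]
        omega) hlt
      obtain ⟨s, hs⟩ : ∃ s, s = lead b w := ⟨_, rfl⟩
      rw [← hs] at hw hlt
      have hsub1 : (List.replicate (r - 1) b ++ (!b) :: y).Sublist
          (List.replicate s b ++ (!b) :: (List.replicate (r - s - 1) b ++ (!b) :: y)) := by
        have h5 : r - 1 = s + (r - s - 1) := by omega
        rw [h5, List.replicate_add, List.append_assoc]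
        exact (List.Sublist.refl _).append (List.Sublist.cons _ (List.Sublist.refl _))
      have hsub2 : (List.replicate s b ++ (!b) :: (List.replicate (r - s - 1) b ++
          (!b) :: y)).Sublist w := by
        rw [hw]
        refine (List.Sublist.refl _).append (List.Sublist.cons_cons _ ?_)
        exact GLD_le b (r - s) y
      have hlen3 : (List.replicate s b ++ (!b) :: (List.replicate (r - s - 1) b ++
          (!b) :: y)).length = r + y.length + 1 := by
        rw [GLD_len, GLD_len]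
        omega
      refine ⟨_, ⟨_, rfl, hU _ _ h1 hsub1, ?_⟩, ?_, ?_⟩
      · rw [lead_rep']
        omega
      · rw [lt_wd_wd_len]
        refine ⟨hsub1, ?_⟩
        rw [hlen3, hlp]
        omega
      · rw [lt_wd_wd_len]
        refine ⟨hsub2, ?_⟩
        rw [hlen3]
        omega
    · -- `a = b^r (!b) y'`
      have hlr : lead b w = r := le_antisymm hlw hge
      obtain ⟨y', hy'⟩ := lead_decomp' b w (hmem w hUw)
      rw [hlr] at hy'
      subst hy'
      have hyy := (rep_sub_iff b r r y y' le_rfl).1 hxw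
      have hlw' := GLD_len b r y'
      have hlq := GLD_len b (r - 1) y'
      have hsub : (List.replicate (r - 1) b ++ (!b) :: y).Sublist
          (List.replicate (r - 1) b ++ (!b) :: y') :=
        (rep_sub_iff b (r - 1) (r - 1) y y' le_rfl).2 hyy
      refine ⟨_, ⟨_, rfl, hU _ _ h1 hsub, ?_⟩, ?_, GLD_lt b r hr y'⟩
      · rw [lead_rep']
      · rw [lt_wd_wd_len]
        refine ⟨hsub, ?_⟩
        rw [hlp, hlq]
        omega

end H58
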