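import Pool.Agent.W_58ccg_h2.GQ
import Pool.Agent.W_58ccg_h2.GLD

/-!
# General `k`: step (c3)
-/

namespace H58

open El

/-- (c3) `lead_down` with `U u = Fw u ∧ n ≤ lis u`, `Q = Qn r n`, `b = true`, `g = idp n`: for a non
critical `x = 1^r 0 y` with `lis x ≥ n` also `lis (1^(r-1) 0 y) ≥ n`; above a non critical word
with `r` leading ones there is no critical word. -/
theorem w_down (r n : ℕ) (h2 : List Bool) (hr : 2 ≤ r)
    (hl : n ≤ lis (List.replicate (r - 1) true ++ false :: h2))
    (hlow : ∀ y, y.Sublist h2 → n ≤ lis (List.replicate (r - 1) true ++ false :: y) →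
      Wsh (r - 1) n (List.replicate (r - 1) true ++ false :: y)) :
    ShI (PW (fun u => WP r u ∧ ¬ Qn r n u)) (idp n)
      (wd (List.replicate r true ++ false :: h2)) := by
  have hcount : ∀ (s : ℕ) (y : List Bool),
      (List.replicate s true ++ false :: y).count true = s + y.count true := by
    intro s y
    rw [List.count_append, List.count_replicate_self, List.count_cons_of_ne (by simp)]
  have key : ShI (PW (fun u => (Fw u ∧ n ≤ lis u) ∧ lead true u ≤ r ∧ ¬ Qn r n u)) (idp n)
      (wd (List.replicate r true ++ false :: h2)) := by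
    refine lead_down (fun u => Fw u ∧ n ≤ lis u) (Qn r n) ?_ true ?_ (idp n) r (by omega) h2
      ?_ ?_ ?_ ?_ ?_ ?_
    · intro u v hu huv
      exact ⟨Fw_mono hu.1 huv, hu.2.trans (lis_mono huv)⟩
    · intro u hu
      exact hu.1.subset (by simp)
    · exact Or.inr ⟨fun u hu => hu.1, Fw_rep r (by omega) h2⟩
    · rintro u ⟨y, rfl, _, _⟩
      exact lead_rep' true r y
    · rintro x v ⟨hxF, hxl⟩ hxQ hlx hxv ⟨y', rfl, hc, hy'⟩
      obtain ⟨y, hy⟩ := lead_decomp' true x (hxF.subset (by simp))
      rw [hlx] at hy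
      have hy2 : x = List.replicate r true ++ false :: y := hy
      subst hy2
      have hyy : y.Sublist y' := (rep_sub_iff true r r y y' le_rfl).1 hxv
      apply hxQ
      refine ⟨y, rfl, ?_, ?_⟩
      · have h3 := hyy.count_le true
        have h4 := lis_mono (hyy.cons_cons false)
        rw [lis_rep] at hxl
        rw [hcount] at hc ⊢
        omega
      · exact lt_of_le_of_lt (lis_mono (hyy.cons_cons false)) hy'
    · rintro y ⟨hyF, hyl⟩ hyQ _ _
      have h3 : n ≤ lis (List.replicate (r - 1) true ++ false :: y) := by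
        by_contra h4
        rw [not_le, lis_rep] at h4
        have hyl' : n ≤ lis (List.replicate r true ++ false :: y) := hyl
        rw [lis_rep] at hyl'
        apply hyQ
        refine ⟨y, rfl, ?_, ?_⟩
        · show (List.replicate r true ++ false :: y).count true = n
          rw [hcount]
          omega
        · exact lt_of_le_of_lt (le_max_left _ _) h4
      exact ⟨⟨Fw_rep (r - 1) (by omega) y, h3⟩, (lt_id_wd _ _).2 h3⟩
    · exact ⟨⟨Fw_rep (r - 1) (by omega) h2, hl⟩, (lt_id_wd _ _).2 hl⟩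
    · rintro y hy ⟨_, hyl⟩ _
      refine shI_congr ?_ (hlow y hy hyl)
      intro u hu _
      exact ⟨fun h => ⟨⟨h.1, (lt_id_wd _ _).1 hu⟩, h.2⟩, fun h => ⟨h.1.1, h.2⟩⟩
  refine shI_congr ?_ key
  intro u hu _
  exact ⟨fun h => ⟨⟨h.1.1, h.2.1⟩, h.2.2⟩,
    fun h => ⟨⟨h.1.1, (lt_id_wd _ _).1 hu⟩, h.1.2, h.2⟩⟩

end H58
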