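import Pool.Agent.W_58ccg_h2.GZb

/-!
# General `k`, family (Y)
-/

namespace H58

open El

/-- words starting with `0`, and words `10t` with `t` non sorted. -/
def PY (u : List Bool) : Prop := St false u ∨ ∃ t, u = true :: false :: t ∧ Fw t

theorem GY_false {v : List Bool} : PY (false :: v) := Or.inl ⟨v, rfl⟩

theorem GY_true {v : List Bool} : PY (true :: v) ↔ Fw v ∧ St false v := by
  constructor
  · rintro (⟨t, ht⟩ | ⟨t, ht, hF⟩)
    · simp at ht
    · obtain rfl : v = false :: t := (List.cons.inj ht).2
      exact ⟨Red0_Fw.2 hF, t, rfl⟩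
  · rintro ⟨h, t, rfl⟩
    exact Or.inr ⟨t, rfl, Red0_Fw.1 h⟩

theorem GY_main (s : List Bool) (hs : ¬ Fw s) (hs0 : s ≠ []) (n : ℕ) : ∀ h : List Bool,
    h.length ≤ n → wd (true :: false :: s) < wd h → PY h →
    ShI (PW PY) (wd (true :: false :: s)) (wd h) := by
  have hcons : ∀ {a b : Bool} {t t' : List Bool}, a ≠ b → (a :: t).Sublist (b :: t') →
      (a :: t).Sublist t' := by
    intro a b t t' hab h
    rcases List.sublist_cons_iff.1 h with h | ⟨r, hr2, _⟩
    · exact h
    · exact absurd (List.cons.inj hr2).1 hab
  have hgs : ∀ x : List Bool, wd (true :: false :: s) < wd x → (true :: false :: s).Sublist x :=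
    fun x hx => ((lt_wd_wd _ _).1 hx).1
  have hFg : ∀ x : List Bool, (true :: false :: s).Sublist x → Fw x := fun x hx =>
    List.Sublist.trans (((List.nil_sublist s).cons_cons false).cons_cons true) hx
  have hnf : ∀ t : List Bool, ¬ St true (false :: t) := by
    intro t h
    rw [St_cons] at h
    simp at h
  induction n with
  | zero =>
    intro h hn hgh _
    have h1 := ((lt_wd_wd_len _ _).1 hgh).2
    omega
  | succ n ih =>
    intro h hn hgh hh
    rcases hh with ⟨h', rfl⟩ | ⟨h2, rfl, hF⟩
    · -- top `0 h'`
      have hlen : h'.length ≤ n := by simpa using hn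
      have hnt : ¬ St false (true :: false :: s) := by
        rw [St_cons]
        simp
      apply fl_red PY false (wd (true :: false :: s)) h' (Or.inl ⟨_, rfl⟩) hgh
      · exact upper_all PY false (true :: false :: s) h' hnt (hcons (by simp) (hgs _ hgh))
          (fun u _ _ => GY_false)
      · intro x hx hgx hxh _
        exact ih x (le_trans hxh.length_le hlen) hgx hx
      · intro x _ _ hxh hxs
        exact upper_all PY false x h' hxs hxh (fun u _ _ => GY_false)
      · intro x hx hgx hxh hxs z hz hgz hzx hr
        obtain ⟨v, rfl⟩ : ∃ v, z = wd v := by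
          rcases hz with hz | ⟨v, hv, _⟩
          · exact ⟨_, hz⟩
          · exact ⟨v, hv⟩
        exact ⟨v, GY_false, GZ_cons, ((lt_wd_wd _ _).1 hzx).1, hr.symm⟩
    · -- top `1 0 h2`
      have hlen : h2.length + 1 ≤ n := by simpa using hn
      have hsh2 : s.Sublist h2 :=
        List.cons_sublist_cons.1 (List.cons_sublist_cons.1 (hgs _ hgh))
      have hFe : (fun u => Fw (false :: u)) = Fw := by
        funext u
        exact propext Red0_Fw
      have hPe : (fun u => PY (true :: u)) = fun u => Fw u ∧ St false u := by
        funext u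
        exact propext GY_true
      apply fl_red PY true (wd (true :: false :: s)) (false :: h2) (Or.inl ⟨_, rfl⟩) hgh
      · apply strip PY true (false :: s) (false :: h2)
        rw [hPe]
        apply strip Fw false s h2
        rw [hFe]
        exact zshI s h2 hs hs0 hF hsh2
      · intro x hx hgx hxh _
        exact ih x (le_trans hxh.length_le (by simpa using hlen)) hgx hx
      · intro x hx hgx hxh hxs
        rcases hx with ⟨u, rfl⟩ | ⟨u, rfl, _⟩
        · have hgu : (true :: false :: s).Sublist u := hcons (by simp) (hgs _ hgx)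
          have huh : u.Sublist h2 := List.cons_sublist_cons.1 hxh
          apply strip_half PY true (false :: u) (false :: h2) hxs
          have h1 := sh_pre_HO [false] u h2 (sub_HO u h2 huh)
          have e : HP (fun w => PY (true :: w)) (false :: u) (false :: h2) =
              {e : El | ∃ t, e = wd ([false] ++ t) ∧ u.Sublist t ∧ t.Sublist h2 ∧ t ≠ h2} := by
            ext e
            constructor
            · rintro ⟨w, rfl, hw, h3, h4, h5⟩
              obtain ⟨_, t, rfl⟩ := GY_true.1 hw
              exact ⟨t, rfl, List.cons_sublist_cons.1 h3, List.cons_sublist_cons.1 h4,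
                fun h => h5 (by rw [h])⟩
            · rintro ⟨t, rfl, h3, h4, h5⟩
              refine ⟨false :: t, rfl, GY_true.2 ⟨Red0_Fw.2 (hFg t (hgu.trans h3)), t, rfl⟩,
                h3.cons_cons false, h4.cons_cons false, fun h => h5 (List.cons.inj h).2⟩
          rw [e, show (false :: h2).length - (false :: u).length = h2.length - u.length by
            simp only [List.length_cons]; omega]
          exact h1
        · exact absurd ⟨_, rfl⟩ hxs
      · intro x hx hgx hxh hxs z hz hgz hzx hr
        rcases hx with ⟨u, rfl⟩ | ⟨u, rfl, _⟩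
        swap
        · exact absurd ⟨_, rfl⟩ hxs
        have hgu : (true :: false :: s).Sublist u := hcons (by simp) (hgs _ hgx)
        -- words below `x` starting with `1` and one letter shorter
        have hone : ∀ v : List Bool, wd (true :: v) < wd (false :: u) →
            rk (wd (false :: u)) = rk (wd (true :: v)) + 1 → true :: v = u := by
          intro v hv hr'
          have h4 := (lt_wd_wd _ _).1 hv
          refine (hcons (by simp) h4.1).eq_of_length ?_
          simp only [rk_wd, List.length_cons] at hr' ⊢
          omega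
        rcases hz with rfl | ⟨v, rfl, hv⟩
        · obtain rfl := hone _ hzx hr
          by_cases hf : false ∈ s
          · refine ⟨false :: true :: s, GY_true.2 ⟨Red0_Fw.2 (GZ_Fw_true hf), _, rfl⟩, ?_, ?_, ?_⟩
            · rw [lt_wd_wd_len]
              exact ⟨((List.sublist_cons_self _ _).cons_cons _).cons_cons _, by simp⟩
            · exact ((List.sublist_cons_self _ _).cons_cons _).cons_cons _
            · simp
          · obtain ⟨t, rfl⟩ := GZ_all hf hs0
            refine ⟨false :: true :: false :: t,
              GY_true.2 ⟨Red0_Fw.2 (GZ_Fw_true List.mem_cons_self), _, rfl⟩, ?_, ?_, ?_⟩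
            · rw [lt_wd_wd_len]
              exact ⟨(((List.sublist_cons_self _ _).cons_cons _).cons_cons _).cons_cons _,
                by simp⟩
            · exact (((List.sublist_cons_self _ _).cons_cons _).cons_cons _).cons_cons _
            · simp
        · rcases hv with ⟨v', rfl⟩ | ⟨t', rfl, hF'⟩
          · refine ⟨false :: v', GY_true.2 ⟨?_, v', rfl⟩, GZ_cons, ((lt_wd_wd _ _).1 hzx).1,
              hr.symm⟩
            exact hFg _ ((le_wd_wd _ _).1 hgz)
          · obtain rfl := hone _ hzx hr
            refine ⟨false :: false :: t', GY_true.2 ⟨Red0_Fw.2 (Red0_Fw.2 hF'), _, rfl⟩,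
              ?_, ?_, ?_⟩
            · rw [lt_wd_wd_len]
              exact ⟨((List.sublist_cons_self _ _)).cons_cons _, by simp⟩
            · exact ((List.sublist_cons_self _ _)).cons_cons _
            · simp

/-- **(Y)** bottom `10s`, `s` sorted, `s ≠ []`. Strong induction on `h.length`. `h = 0h'`: `fl_red`,
`y := z`, `A` part and upper parts `upper_all`. `h = 10h2` (`h2 ∈ F`): `fl_red` with letter `1`:
`x = 0u`, `u ≥ 10s`; `z` starting with `0`: `y := z`; `z = 10t'` (`x = 010t'`), `t' ∈ F`:
`y := 00t'` (word `100t'`); `t' = s`: if `0 ∈ s`: `y := 01s` (word `101s`), if `s = 1^b`: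
`y := 0101^(b-1)` (word `10101^(b-1)`). `A` part: `strip` twice + `zshI`. Upper part:
`{10t : t ≥ u}`. -/
theorem yshI (s h : List Bool) (hs : ¬ Fw s) (hs0 : s ≠ [])
    (hgh : wd (true :: false :: s) < wd h) (hh : PY h) :
    ShI (PW PY) (wd (true :: false :: s)) (wd h) :=
  GY_main s hs hs0 h.length h le_rfl hgh hh

end H58
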