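import Pool.Agent.W_58ccg_h2.GWd
import Pool.Agent.W_58ccg_h2.GY

/-!
# General `k`: step (d), words starting with `10`
-/

namespace H58

open El

/-- after the removal of the words `10s` (`s` sorted): words of `PY`. -/
def WY (u : List Bool) : Prop := Fw u ∧ PY u

theorem GD_Fw_true {u : List Bool} : Fw (true :: u) ↔ false ∈ u := by
  constructor
  · intro h
    have h1 : [true, false].Sublist (true :: u) := h
    rcases List.sublist_cons_iff.1 h1 with h2 | ⟨r, hr, h2⟩
    · exact h2.subset (by simp)
    · have : r = [false] := by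
        simpa using hr.symm
      subst this
      exact List.singleton_sublist.1 h2
  · intro h
    exact List.Sublist.cons_cons true (List.singleton_sublist.2 h)

theorem GD_Fw_mem {u : List Bool} (h : Fw u) : false ∈ u :=
  List.Sublist.subset (show [true, false].Sublist u from h) (by simp)

/-- a proper subword is contained in an upper cover inside the word. -/
theorem GD_cover {s v : List Bool} (h : s.Sublist v) (hl : s.length < v.length) :
    ∃ u, s.Sublist u ∧ u.Sublist v ∧ u.length = s.length + 1 := by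
  induction h with
  | slnil => simp at hl
  | cons b h ih =>
    rename_i l₁ l₂
    exact ⟨b :: l₁, List.sublist_cons_self _ _, h.cons_cons b, by simp⟩
  | cons_cons b h ih =>
    simp only [List.length_cons] at hl
    obtain ⟨u, h1, h2, h3⟩ := ih (by omega)
    exact ⟨b :: u, h1.cons_cons b, h2.cons_cons b, by simp [h3]⟩

/-- insert a missing letter. -/
theorem GD_insert {c : Bool} {r a : List Bool} (h : r.Sublist a) (hr : c ∉ r) (ha : c ∈ a) :
    ∃ t, c ∈ t ∧ r.Sublist t ∧ t.Sublist a ∧ t.length = r.length + 1 := by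
  induction h with
  | slnil => simp at ha
  | cons b h ih =>
    rename_i l₁ l₂
    by_cases hb : b = c
    · exact ⟨c :: l₁, by simp, List.sublist_cons_self _ _, by rw [hb]; exact h.cons_cons c, by simp⟩
    · have ha' : c ∈ l₂ := by
        rcases List.mem_cons.1 ha with h1 | h1
        · exact absurd h1.symm hb
        · exact h1
      obtain ⟨t, h1, h2, h3, h4⟩ := ih hr ha'
      exact ⟨t, h1, h2, h3.cons b, h4⟩
  | cons_cons b h ih =>
    have hb : c ≠ b := fun he => hr (by rw [he]; simp)
    have hr' : c ∉ _ := fun he => hr (List.mem_cons_of_mem b he)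
    have ha' : c ∈ _ := (List.mem_cons.1 ha).resolve_left hb
    obtain ⟨t, h1, h2, h3, h4⟩ := ih hr' ha'
    exact ⟨b :: t, List.mem_cons_of_mem b h1, h2.cons_cons b, h3.cons_cons b, by simp [h4]⟩

/-- between a word and a non sorted word two letters longer there is a non sorted word. -/
theorem GD_between (a : List Bool) : ∀ r : List Bool, r.Sublist a → r.length + 2 = a.length →
    3 ≤ a.length → Fw a → ∃ t, Fw t ∧ r.Sublist t ∧ t.Sublist a ∧ t.length = r.length + 1 := by
  induction a with
  | nil => intro r _ _ h3 _; simp at h3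
  | cons c a ih =>
    intro r hr hl h3 hF
    simp only [List.length_cons] at hl h3
    -- the case `r = c :: r'`, `r' ≤ a`
    have caseA : ∀ r', r = c :: r' → r'.Sublist a →
        ∃ t, Fw t ∧ r.Sublist t ∧ t.Sublist (c :: a) ∧ t.length = r.length + 1 := by
      intro r' hr' hs
      subst hr'
      simp only [List.length_cons] at hl
      cases c with
      | false =>
        have hFa : Fw a := Red0_Fw.1 hF
        by_cases h4 : 3 ≤ a.length
        · obtain ⟨t, h5, h6, h7, h8⟩ := ih r' hs (by omega) h4 hFa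
          exact ⟨false :: t, Red0_Fw.2 h5, h6.cons_cons _, h7.cons_cons _, by simp [h8]⟩
        · have h5 : r' = [] := List.length_eq_zero_iff.1 (by omega)
          subst h5
          have h6 : [false].Sublist a := List.singleton_sublist.2 (GD_Fw_mem hFa)
          exact ⟨a, hFa, h6, List.sublist_cons_self _ _, by simp; omega⟩
      | true =>
        have hf : false ∈ a := GD_Fw_true.1 hF
        by_cases h5 : false ∈ r'
        · obtain ⟨t, h6, h7, h8⟩ := GD_cover hs (by omega)
          exact ⟨true :: t, GD_Fw_true.2 (h6.subset h5), h6.cons_cons _, h7.cons_cons _, by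
            simp only [List.length_cons]
            omega⟩
        · obtain ⟨t, h6, h7, h8, h9⟩ := GD_insert hs h5 hf
          exact ⟨true :: t, GD_Fw_true.2 h6, h7.cons_cons _, h8.cons_cons _, by
            simp only [List.length_cons]
            omega⟩
    rcases List.sublist_cons_iff.1 hr with hra | ⟨r', hr', hs⟩
    · cases c with
      | false =>
        have hFa : Fw a := Red0_Fw.1 hF
        exact ⟨a, hFa, hra, List.sublist_cons_self _ _, by omega⟩
      | true =>
        by_cases h5 : false ∈ r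
        · exact ⟨true :: r, GD_Fw_true.2 h5, List.sublist_cons_self _ _, hra.cons_cons _, by simp⟩
        · -- `r` consists of ones
          cases r with
          | nil =>
            simp only [List.length_nil] at hl
            omega
          | cons d r' =>
            have hd : d = true := by
              cases d
              · exact absurd (List.mem_cons_self) h5
              · rfl
            subst hd
            exact caseA r' rfl ((List.sublist_cons_self _ _).trans hra)
    · exact caseA r' hr' hs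

/-- `s⁻ < s < s⁺` covers, `s` sorted with at least two letters, `s⁺` non sorted: there is a non
sorted `t`, `s⁻ < t < s⁺`. -/
theorem between_F (r s a : List Bool) (hs : ¬ Fw s) (hs2 : 2 ≤ s.length) (ha : Fw a)
    (h1 : r.Sublist s) (hl1 : r.length + 1 = s.length) (h2 : s.Sublist a)
    (hl2 : s.length + 1 = a.length) :
    ∃ t, Fw t ∧ r.Sublist t ∧ t.Sublist a ∧ t.length = s.length := by
  obtain ⟨t, h3, h4, h5, h6⟩ := GD_between a r (h1.trans h2) (by omega) (by omega) ha
  exact ⟨t, h3, h4, h5, by omega⟩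

theorem GD_lis_lt {u : List Bool} (h : Fw u) : lis u + 1 ≤ u.length := by
  have h1 := GWd_lis (show [true, false].Sublist u from h)
  have h2 : lis [true, false] = 1 := by decide
  rw [h2] at h1
  simp only [List.length_cons, List.length_nil] at h1
  omega

theorem GD_lis10 (t : List Bool) : lis (true :: false :: t) = lis t + 1 := by
  have h := count_le_lis t
  simp only [lis_true, lis_false]
  have : (false :: t).count true = t.count true := by simp
  rw [this]
  omega

/-- `0u ≤ 10t` iff `u ≤ t`. -/
theorem GD_sub0 {u t : List Bool} : (false :: u).Sublist (true :: false :: t) ↔ u.Sublist t := by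
  constructor
  · intro h
    have h1 : (false :: u).Sublist (false :: t) := Red0_f (b := false) h
    exact List.cons_sublist_cons.1 h1
  · intro h
    exact (h.cons_cons false).cons true

theorem GD_sub10 {u t : List Bool} :
    (true :: false :: u).Sublist (true :: false :: t) ↔ u.Sublist t := by
  rw [List.cons_sublist_cons, List.cons_sublist_cons]

/-- `10u ≤ 0v` iff `10u ≤ v`. -/
theorem GD_sub_10_0 {u v : List Bool} :
    (true :: u).Sublist (false :: v) ↔ (true :: u).Sublist v :=
  ⟨fun h => Red0_f (b := true) h, fun h => h.cons false⟩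

theorem GD_WY0 {u : List Bool} (h : Fw u) : WY (false :: u) :=
  ⟨Red0_Fw.2 h, Or.inl ⟨u, rfl⟩⟩

theorem GD_WY10 {u : List Bool} (h : Fw u) : WY (true :: false :: u) :=
  ⟨GD_Fw_true.2 (by simp), Or.inr ⟨u, rfl, h⟩⟩

/-- the part of the words starting with `0` below `10t`. -/
theorem GD_A (n : ℕ) (t : List Bool) (hn : 3 ≤ n) (hF : Fw t) (hl : n ≤ lis t + 1)
    (hW : Winf (n - 1) t) :
    ShI (PW (fun u => WY u ∧ St false u)) (idp n) (wd (true :: false :: t)) := by
  obtain ⟨m, rfl⟩ : ∃ m, n = m + 1 := ⟨n - 1, by omega⟩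
  have h1 : ShI (PW (fun u => WY u ∧ St false u)) (idp (m + 1)) (wd (false :: t)) := by
    refine strip_id WY m t ?_
    exact shI_congr (fun u _ _ => ⟨fun h => GD_WY0 h, fun h => Red0_Fw.1 h.1⟩) hW
  have h2 := GD_lis_lt hF
  unfold ShI at h1 ⊢
  have e : Op (PW (fun u => WY u ∧ St false u)) (idp (m + 1)) (wd (true :: false :: t)) =
      insert (wd (false :: t))
        (Op (PW (fun u => WY u ∧ St false u)) (idp (m + 1)) (wd (false :: t))) := by
    ext x
    rw [Set.mem_insert_iff]
    constructor
    · rintro ⟨⟨u, rfl, hu, ⟨v, rfl⟩⟩, h3, h4⟩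
      have h5 : v.Sublist t := GD_sub0.1 ((lt_wd_wd _ _).1 h4).1
      by_cases hvt : v = t
      · left
        rw [hvt]
      · right
        refine ⟨⟨_, rfl, hu, ⟨v, rfl⟩⟩, h3, ?_⟩
        rw [lt_wd_wd]
        exact ⟨h5.cons_cons false, fun h => hvt (List.cons.inj h).2⟩
    · rintro (rfl | ⟨⟨u, rfl, hu, hs⟩, h3, h4⟩)
      · refine ⟨⟨_, rfl, GD_WY0 hF, ⟨t, rfl⟩⟩, ?_, ?_⟩
        · rw [lt_id_wd, lis_false]
          exact hl
        · rw [lt_wd_wd_len]
          exact ⟨List.sublist_cons_self _ _, by simp⟩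
      · refine ⟨⟨u, rfl, hu, hs⟩, h3, h4.trans ?_⟩
        rw [lt_wd_wd_len]
        exact ⟨List.sublist_cons_self _ _, by simp⟩
  rw [e]
  have hd : rk (wd (true :: false :: t)) - rk (idp (m + 1)) - 1 =
      rk (wd (false :: t)) - rk (idp (m + 1)) - 1 + 1 := by
    simp only [rk_wd, rk_id, List.length_cons]
    omega
  rw [hd]
  refine sh_cone _ ?_ ?_ h1
  · rintro ⟨_, _, h5⟩
    exact absurd h5 (lt_irrefl _)
  · rintro q ⟨_, _, h5⟩
    exact Or.inr h5

/-- (d2) `sh_down`, `P = WY`, `A` = words starting with `0`: for `x = 10t` (`t ∈ F`) the lower part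
is the cone with apex `0t` over the words `0t'`, `t' < t` (`strip_id`, `hW`); `hE`: `z = 0t`;
`a = 10t⁺`: `0t⁺`; `a = 010t`: `00t`. Upper part: `vshI` with `lam = 1` (above `10t` all words
with at most one leading `1` are in `WY`). -/
theorem d_down (n : ℕ) (h2 : List Bool) (hn : 3 ≤ n) (hF : Fw h2) (hl : n ≤ lis h2 + 1)
    (hW : ∀ t, Fw t → t.Sublist h2 → n ≤ lis t + 1 → Winf (n - 1) t) :
    ShI (PW WY) (idp n) (wd (true :: false :: h2)) := by
  have hout : ∀ x ∈ PW WY, x ∉ PW (fun u => WY u ∧ St false u) →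
      ∃ t, x = wd (true :: false :: t) ∧ Fw t := by
    rintro x ⟨u, rfl, hu⟩ hx
    rcases hu.2 with h3 | ⟨t, rfl, ht⟩
    · exact absurd ⟨u, rfl, hu, h3⟩ hx
    · exact ⟨t, rfl, ht⟩
  refine sh_down (PW WY) (PW (fun u => WY u ∧ St false u)) (idp n) (wd (true :: false :: h2)) ?_
    (Or.inr ⟨?_, ?_⟩) ?_ (GD_A n h2 hn hF hl (hW h2 hF (List.Sublist.refl _) hl)) ?_ ?_ ?_
  · rw [lt_id_wd, GD_lis10]
    exact hl
  · rintro x ⟨u, rfl, hu⟩
    exact (wd_mem_PP u).2 hu.1
  · exact (wd_mem_PP _).2 (GD_Fw_true.2 (by simp))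
  · rintro x ⟨u, rfl, hu, _⟩
    exact ⟨u, rfl, hu⟩
  · intro x hxP hgx hxh hxA
    obtain ⟨t, rfl, ht⟩ := hout x hxP hxA
    have h3 : t.Sublist h2 := GD_sub10.1 ((lt_wd_wd _ _).1 hxh).1
    rw [lt_id_wd, GD_lis10] at hgx
    exact GD_A n t hn ht hgx (hW t ht h3 hgx)
  · intro x hxP hgx hxh hxA
    obtain ⟨t, rfl, ht⟩ := hout x hxP hxA
    have hV := vshI true 1 (true :: false :: t) (true :: false :: h2) hxh (by simp [lead])
    refine shI_congr (fun u h3 h4 => ?_) hV
    have h5 := ((lt_wd_wd _ _).1 h3).1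
    constructor
    · intro hlead
      have hFu : Fw u := Fw_mono (GD_Fw_true.2 (by simp)) h5
      match u, h5, hlead, hFu with
      | [], _, _, hFu => exact absurd (GD_Fw_mem hFu) (by simp)
      | false :: v, _, _, hFu => exact ⟨hFu, Or.inl ⟨v, rfl⟩⟩
      | [true], _, _, hFu => exact absurd (GD_Fw_true.1 hFu) (by simp)
      | true :: true :: v, _, hlead, _ => simp [lead] at hlead
      | true :: false :: v, h5, _, hFu =>
        exact ⟨hFu, Or.inr ⟨v, rfl, Fw_mono ht (GD_sub10.1 h5)⟩⟩
    · rintro ⟨hFu, hP⟩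
      rcases hP with ⟨v, rfl⟩ | ⟨v, rfl, _⟩
      · simp [lead]
      · simp [lead]
  · intro x hxP hgx hxh hxA z a hz hgz hzx hrk ha hxa hah hra
    obtain ⟨t, rfl, ht⟩ := hout x hxP hxA
    have h3 := GD_lis_lt ht
    have h4 := hgx
    rw [lt_id_wd, GD_lis10] at h4
    simp only [rk_wd, List.length_cons] at hrk hra
    have hz' : z = wd (false :: t) := by
      rcases hz with rfl | ⟨u, rfl, _, ⟨v, rfl⟩⟩
      · rw [rk_id] at hrk
        omega
      · have h5 : v.Sublist t := GD_sub0.1 ((lt_wd_wd _ _).1 hzx).1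
        simp only [rk_wd, List.length_cons] at hrk
        rw [h5.eq_of_length (by omega)]
    subst hz'
    -- the form of `a`
    have ha' : (∃ v, a = wd (true :: false :: v) ∧ Fw v) ∨ ∃ v, a = wd (false :: v) := by
      rcases ha with rfl | ⟨u, rfl, hu⟩
      · exact Or.inl ⟨h2, rfl, hF⟩
      · rcases hu.2 with ⟨v, rfl⟩ | ⟨v, rfl, hv⟩
        · exact Or.inr ⟨v, rfl⟩
        · exact Or.inl ⟨v, rfl, hv⟩
    rcases ha' with ⟨v, rfl, hv⟩ | ⟨v, rfl⟩
    · simp only [rk_wd, List.length_cons] at hra
      have h5 : t.Sublist v := GD_sub10.1 ((lt_wd_wd _ _).1 hxa).1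
      refine ⟨wd (false :: v), ⟨_, rfl, GD_WY0 hv, ⟨v, rfl⟩⟩, ?_, ?_⟩
      · rw [lt_wd_wd_len]
        refine ⟨h5.cons_cons _, ?_⟩
        simp only [List.length_cons]
        omega
      · rw [lt_wd_wd_len]
        exact ⟨List.sublist_cons_self _ _, by simp⟩
    · simp only [rk_wd, List.length_cons] at hra
      have h5 : (true :: false :: t).Sublist v := GD_sub_10_0.1 ((lt_wd_wd _ _).1 hxa).1
      have h6 : true :: false :: t = v := h5.eq_of_length (by simp only [List.length_cons]; omega)
      subst h6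
      refine ⟨wd (false :: false :: t), ⟨_, rfl, GD_WY0 (Red0_Fw.2 ht), ⟨_, rfl⟩⟩, ?_, ?_⟩
      · rw [lt_wd_wd_len]
        exact ⟨List.sublist_cons_self _ _, by simp⟩
      · rw [lt_wd_wd_len]
        refine ⟨List.Sublist.cons_cons _ (List.sublist_cons_self _ _), by simp⟩

end H58
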