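import Pool.Agent.W_58ccg_h2.GBase

/-!
# General `k`, family (R)
-/

namespace H58

open El

/-- words `10t`, `t` sorted. -/
def PR (u : List Bool) : Prop := ∃ t, u = true :: false :: t ∧ ¬ Fw t

/-- the sorted word with `i` zeros and `j` ones. -/
def GR_w (i j : ℕ) : List Bool := List.replicate i false ++ List.replicate j true

theorem GR_sub (i j i' j' : ℕ) : (GR_w i j).Sublist (GR_w i' j') ↔ i ≤ i' ∧ j ≤ j' := by
  constructor
  · intro h
    have h0 := h.count_le false
    have h1 := h.count_le true
    simp [GR_w, List.count_append, List.count_replicate] at h0 h1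
    exact ⟨h0, h1⟩
  · rintro ⟨h0, h1⟩
    exact List.Sublist.append (List.replicate_sublist_replicate false |>.2 h0)
      (List.replicate_sublist_replicate true |>.2 h1)

theorem GR_len (i j : ℕ) : (GR_w i j).length = i + j := by
  simp [GR_w]

theorem GR_inj {i j i' j' : ℕ} : GR_w i j = GR_w i' j' ↔ i = i' ∧ j = j' := by
  constructor
  · intro h
    have h0 := congrArg (List.count false) h
    have h1 := congrArg (List.count true) h
    simp [GR_w, List.count_append, List.count_replicate] at h0 h1
    exact ⟨h0, h1⟩
  · rintro ⟨rfl, rfl⟩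
    rfl

theorem GR_cons (i j : ℕ) : false :: GR_w i j = GR_w (i + 1) j := rfl

theorem GR_nFw (i j : ℕ) : ¬ Fw (GR_w i j) := by
  induction i with
  | zero =>
    intro h
    have h1 := h.count_le false
    simp [GR_w, List.count_replicate] at h1
  | succ i ih =>
    rw [← GR_cons, Red0_Fw]
    exact ih

theorem GR_ex {s : List Bool} (h : ¬ Fw s) : ∃ i j, s = GR_w i j := by
  induction s with
  | nil => exact ⟨0, 0, rfl⟩
  | cons b t ih =>
    cases b
    · rw [Red0_Fw] at h
      obtain ⟨i, j, rfl⟩ := ih h
      exact ⟨i + 1, j, rfl⟩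
    · have h1 : false ∉ t := by
        intro h2
        apply h
        unfold Fw
        exact List.Sublist.cons_cons true (List.singleton_sublist.2 h2)
      have h2 : t = List.replicate t.length true := by
        apply List.eq_replicate_of_mem
        intro b hb
        cases b
        · exact absurd hb h1
        · rfl
      refine ⟨0, t.length + 1, ?_⟩
      rw [GR_w, List.replicate_zero, List.nil_append, List.replicate_succ, ← h2]

/-- the element `10 0^i 1^j`. -/
def GR_E (i j : ℕ) : El := wd (true :: false :: GR_w i j)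

theorem GR_E_lt (i j i' j' : ℕ) :
    GR_E i j < GR_E i' j' ↔ (i ≤ i' ∧ j ≤ j') ∧ ¬ (i = i' ∧ j = j') := by
  rw [GR_E, GR_E, lt_wd_wd, List.cons_sublist_cons, List.cons_sublist_cons, GR_sub]
  simp only [ne_eq, List.cons.injEq, true_and, GR_inj]

theorem GR_E_inj {i j i' j' : ℕ} : GR_E i j = GR_E i' j' ↔ i = i' ∧ j = j' := by
  simp only [GR_E, wd.injEq, List.cons.injEq, true_and, GR_inj]

theorem GR_lis (i j : ℕ) : lis (GR_w i j) = i + j := by
  induction i with
  | zero =>
    induction j with
    | zero => rfl
    | succ j ih =>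
      have e : GR_w 0 (j + 1) = true :: GR_w 0 j := by
        simp [GR_w, List.replicate_succ]
      rw [e, lis_true, ih]
      have e2 : (GR_w 0 j).count true = j := by
        simp [GR_w, List.count_replicate]
      rw [e2]
      omega
  | succ i ih =>
    rw [← GR_cons, lis_false, ih]
    omega

theorem GR_id_lt (n i j : ℕ) : idp n < GR_E i j ↔ n ≤ i + j + 1 := by
  rw [GR_E, lt_id_wd, lis_true, lis_false, GR_lis]
  have e2 : (false :: GR_w i j).count true = j := by
    simp [GR_w, List.count_append, List.count_replicate]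
  rw [e2]
  constructor
  · intro h
    omega
  · intro h
    omega

theorem GR_rk (i j : ℕ) : rk (GR_E i j) = i + j + 2 := by
  rw [GR_E, rk_wd, List.length_cons, List.length_cons, GR_len]

theorem GR_mem {e : El} : e ∈ PW PR ↔ ∃ i j, e = GR_E i j := by
  constructor
  · rintro ⟨u, rfl, t, rfl, ht⟩
    obtain ⟨i, j, rfl⟩ := GR_ex ht
    exact ⟨i, j, rfl⟩
  · rintro ⟨i, j, rfl⟩
    exact ⟨_, rfl, _, rfl, GR_nFw i j⟩

/-- the truncated grid. -/
def GR_S (a b n : ℕ) : Set El :=
  {e | ∃ i j, i ≤ a ∧ j ≤ b ∧ n ≤ i + j + 1 ∧ ¬ (i = a ∧ j = b) ∧ e = GR_E i j}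

theorem GR_Op (a b n : ℕ) : Op (PW PR) (idp n) (GR_E a b) = GR_S a b n := by
  ext e
  constructor
  · rintro ⟨h1, h2, h3⟩
    obtain ⟨i, j, rfl⟩ := GR_mem.1 h1
    rw [GR_id_lt] at h2
    rw [GR_E_lt] at h3
    exact ⟨i, j, h3.1.1, h3.1.2, h2, h3.2, rfl⟩
  · rintro ⟨i, j, h1, h2, h3, h4, rfl⟩
    exact ⟨GR_mem.2 ⟨i, j, rfl⟩, (GR_id_lt _ _ _).2 h3, (GR_E_lt _ _ _ _).2 ⟨⟨h1, h2⟩, h4⟩⟩

/-- insert a zero and append `c` ones. -/
def GR_phi (c : ℕ) : El → El
  | wd (x :: y :: t) => wd (x :: y :: false :: (t ++ List.replicate c true))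
  | e => e

theorem GR_phi_E (c i j : ℕ) : GR_phi c (GR_E i j) = GR_E (i + 1) (j + c) := by
  show wd (true :: false :: false :: (GR_w i j ++ List.replicate c true)) = _
  have e : GR_w i j ++ List.replicate c true = GR_w i (j + c) := by
    rw [GR_w, GR_w, List.append_assoc, List.replicate_add]
  rw [e, GR_cons, GR_E]

theorem GR_img {d a b n : ℕ} (c : ℕ) (H : Sh (· < ·) d (GR_S a b n)) :
    Sh (· < ·) d {e | ∃ i j, i ≤ a ∧ j ≤ b ∧ n ≤ i + j + 1 ∧ ¬ (i = a ∧ j = b) ∧
      e = GR_E (i + 1) (j + c)} := by
  have h := sh_image (s := (· < ·)) (GR_phi c) (fun x hx y hy hxy => ?_) (fun x hx y hy => ?_) H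
  · have e : GR_phi c '' GR_S a b n = {e | ∃ i j, i ≤ a ∧ j ≤ b ∧ n ≤ i + j + 1 ∧
        ¬ (i = a ∧ j = b) ∧ e = GR_E (i + 1) (j + c)} := by
      ext e
      constructor
      · rintro ⟨_, ⟨i, j, h1, h2, h3, h4, rfl⟩, rfl⟩
        exact ⟨i, j, h1, h2, h3, h4, GR_phi_E c i j⟩
      · rintro ⟨i, j, h1, h2, h3, h4, rfl⟩
        exact ⟨GR_E i j, ⟨i, j, h1, h2, h3, h4, rfl⟩, GR_phi_E c i j⟩
    rw [← e]
    exact h
  · obtain ⟨i, j, -, -, -, -, rfl⟩ := hx
    obtain ⟨i', j', -, -, -, -, rfl⟩ := hy
    rw [GR_phi_E, GR_phi_E, GR_E_inj] at hxy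
    rw [GR_E_inj]
    omega
  · obtain ⟨i, j, -, -, -, -, rfl⟩ := hx
    obtain ⟨i', j', -, -, -, -, rfl⟩ := hy
    show GR_E i j < GR_E i' j' ↔ GR_phi c (GR_E i j) < GR_phi c (GR_E i' j')
    rw [GR_phi_E, GR_phi_E, GR_E_lt, GR_E_lt]
    omega

theorem GR_main (N : ℕ) : ∀ a b n : ℕ, a + b = N → 1 ≤ n → n ≤ N + 1 →
    Sh (· < ·) (N + 1 - n) (GR_S a b n) := by
  induction N using Nat.strong_induction_on with
  | _ N ih =>
    have key : ∀ a b n : ℕ, a + b = N → 2 ≤ n → n ≤ N + 1 →
        Sh (· < ·) (N + 1 - n) (GR_S a b n) := by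
      intro a b n hab hn2 hn
      cases a with
      | zero =>
        rcases Nat.lt_or_ge N n with h | h
        · have e : GR_S 0 b n = ∅ := by
            ext e
            simp only [Set.mem_empty_iff_false, iff_false]
            rintro ⟨i, j, h1, h2, h3, h4, rfl⟩
            omega
          rw [e, show N + 1 - n = 0 by omega]
          exact sh_empty _
        · obtain ⟨b', rfl⟩ : ∃ b', b = b' + 1 := ⟨b - 1, by omega⟩
          have h1 := ih (N - 1) (by omega) 0 b' n (by omega) (by omega) (by omega)
          have h2 := sh_cone (GR_E 0 b') (Q := GR_S 0 b' n) ?_ ?_ h1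
          · have e : insert (GR_E 0 b') (GR_S 0 b' n) = GR_S 0 (b' + 1) n := by
              ext e
              rw [Set.mem_insert_iff]
              constructor
              · rintro (rfl | ⟨i, j, h1, h2, h3, h4, rfl⟩)
                · exact ⟨0, b', le_rfl, by omega, by omega, by omega, rfl⟩
                · exact ⟨i, j, h1, by omega, h3, by omega, rfl⟩
              · rintro ⟨i, j, h1, h2, h3, h4, rfl⟩
                by_cases hj : j = b'
                · left
                  rw [GR_E_inj]
                  omega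
                · right
                  exact ⟨i, j, h1, by omega, h3, by omega, rfl⟩
            rw [e, show N - 1 + 1 - n + 1 = N + 1 - n by omega] at h2
            exact h2
          · rintro ⟨i, j, h1, h2, h3, h4, h5⟩
            rw [GR_E_inj] at h5
            omega
          · rintro _ ⟨i, j, h1, h2, h3, h4, rfl⟩
            right
            rw [GR_E_lt]
            omega
      | succ a' =>
        have hP : ShI (PW PR) (idp n) (GR_E (a' + 1) b) := by
          refine sh_up (PW PR) {e | ∃ i j, e = GR_E (i + 1) j} (idp n) (GR_E (a' + 1) b)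
            ((GR_id_lt _ _ _).2 (by omega)) (Or.inr ⟨?_, ?_⟩) ?_ ?_ ?_ ?_ ?_
          · intro x hx
            obtain ⟨i, j, rfl⟩ := GR_mem.1 hx
            rw [GR_E, wd_mem_PP]
            exact List.Sublist.cons_cons true (List.Sublist.cons_cons false (List.nil_sublist _))
          · rw [GR_E, wd_mem_PP]
            exact List.Sublist.cons_cons true (List.Sublist.cons_cons false (List.nil_sublist _))
          · rintro _ ⟨i, j, rfl⟩
            exact GR_mem.2 ⟨_, _, rfl⟩
          · have h1 := GR_img 0 (ih (N - 1) (by omega) a' b (n - 1) (by omega) (by omega)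
              (by omega))
            have e : Op {e | ∃ i j, e = GR_E (i + 1) j} (idp n) (GR_E (a' + 1) b) =
                {e | ∃ i j, i ≤ a' ∧ j ≤ b ∧ n - 1 ≤ i + j + 1 ∧ ¬ (i = a' ∧ j = b) ∧
                  e = GR_E (i + 1) (j + 0)} := by
              ext e
              constructor
              · rintro ⟨⟨i, j, rfl⟩, h2, h3⟩
                rw [GR_id_lt] at h2
                rw [GR_E_lt] at h3
                exact ⟨i, j, by omega, by omega, by omega, by omega, rfl⟩
              · rintro ⟨i, j, h1, h2, h3, h4, rfl⟩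
                refine ⟨⟨i, j, rfl⟩, ?_, ?_⟩
                · rw [GR_id_lt]
                  omega
                · rw [GR_E_lt]
                  omega
            rw [← e] at h1
            show Sh (· < ·) (rk (GR_E (a' + 1) b) - rk (idp n) - 1) _
            rw [GR_rk, rk_id, show a' + 1 + b + 2 - n - 1 = N - 1 + 1 - (n - 1) by omega]
            exact h1
          · intro x hx hgx hxh hxA
            obtain ⟨i, c, rfl⟩ := GR_mem.1 hx
            rw [GR_id_lt] at hgx
            rw [GR_E_lt] at hxh
            have hi : i = 0 := by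
              cases i with
              | zero => rfl
              | succ i => exact absurd ⟨i, c, rfl⟩ hxA
            subst hi
            show Sh (· < ·) (rk (GR_E 0 c) - rk (idp n) - 1) _
            rw [GR_Op, GR_rk, rk_id, show 0 + c + 2 - n - 1 = c + 1 - n by omega]
            exact ih c (by omega) 0 c n (by omega) (by omega) (by omega)
          · intro x hx hgx hxh hxA
            obtain ⟨i, c, rfl⟩ := GR_mem.1 hx
            rw [GR_id_lt] at hgx
            rw [GR_E_lt] at hxh
            have hi : i = 0 := by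
              cases i with
              | zero => rfl
              | succ i => exact absurd ⟨i, c, rfl⟩ hxA
            subst hi
            have h1 := GR_img c (ih (a' + (b - c)) (by omega) a' (b - c) 1 rfl (by omega)
              (by omega))
            have e : Op {e | ∃ i j, e = GR_E (i + 1) j} (GR_E 0 c) (GR_E (a' + 1) b) =
                {e | ∃ i j, i ≤ a' ∧ j ≤ b - c ∧ 1 ≤ i + j + 1 ∧ ¬ (i = a' ∧ j = b - c) ∧
                  e = GR_E (i + 1) (j + c)} := by
              ext e
              constructor
              · rintro ⟨⟨i, j, rfl⟩, h2, h3⟩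
                rw [GR_E_lt] at h2 h3
                refine ⟨i, j - c, by omega, by omega, by omega, by omega, ?_⟩
                rw [GR_E_inj]
                omega
              · rintro ⟨i, j, h1, h2, h3, h4, rfl⟩
                refine ⟨⟨i, _, rfl⟩, ?_, ?_⟩
                · rw [GR_E_lt]
                  omega
                · rw [GR_E_lt]
                  omega
            rw [← e] at h1
            show Sh (· < ·) (rk (GR_E (a' + 1) b) - rk (GR_E 0 c) - 1) _
            rw [GR_rk, GR_rk, show a' + 1 + b + 2 - (0 + c + 2) - 1 =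
              a' + (b - c) + 1 - 1 by omega]
            exact h1
          · intro x hx hgx hxh hxA z a hz hgz hzx hrz ha hxa hah hra
            obtain ⟨i, c, rfl⟩ := GR_mem.1 hx
            rw [GR_id_lt] at hgx
            rw [GR_E_lt] at hxh
            have hi : i = 0 := by
              cases i with
              | zero => rfl
              | succ i => exact absurd ⟨i, c, rfl⟩ hxA
            subst hi
            have ha' : ∃ i' j', a = GR_E (i' + 1) j' := by
              rcases ha with rfl | ⟨i', j', rfl⟩
              · exact ⟨_, _, rfl⟩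
              · exact ⟨_, _, rfl⟩
            obtain ⟨i', j', rfl⟩ := ha'
            rw [GR_rk, GR_rk] at hra
            rw [GR_E_lt] at hxa
            refine ⟨GR_E 1 (c - 1), ⟨0, c - 1, rfl⟩, ?_, ?_⟩
            · rcases hz with rfl | hz
              · rw [GR_rk, rk_id] at hrz
                rw [GR_id_lt]
                omega
              · obtain ⟨i2, j2, rfl⟩ := GR_mem.1 hz
                rw [GR_rk, GR_rk] at hrz
                rw [GR_E_lt] at hzx
                rw [GR_E_lt]
                omega
            · rw [GR_E_lt]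
              omega
        have h2 : Sh (· < ·) (rk (GR_E (a' + 1) b) - rk (idp n) - 1)
            (Op (PW PR) (idp n) (GR_E (a' + 1) b)) := hP
        rw [GR_Op, GR_rk, rk_id, show a' + 1 + b + 2 - n - 1 = N + 1 - n by omega] at h2
        exact h2
    intro a b n hab hn1 hn
    rcases Nat.lt_or_ge n 2 with h | h
    · obtain rfl : n = 1 := by omega
      rcases Nat.eq_zero_or_pos N with hN | hN
      · have e : GR_S a b 1 = ∅ := by
          ext e
          simp only [Set.mem_empty_iff_false, iff_false]
          rintro ⟨i, j, h1, h2, h3, h4, rfl⟩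
          omega
        rw [e, show N + 1 - 1 = 0 by omega]
        exact sh_empty _
      · have h2 := sh_cone (GR_E 0 0) (Q := GR_S a b 2) ?_ ?_ (key a b 2 hab le_rfl (by omega))
        · have e : insert (GR_E 0 0) (GR_S a b 2) = GR_S a b 1 := by
            ext e
            rw [Set.mem_insert_iff]
            constructor
            · rintro (rfl | ⟨i, j, h1, h2, h3, h4, rfl⟩)
              · exact ⟨0, 0, by omega, by omega, by omega, by omega, rfl⟩
              · exact ⟨i, j, h1, by omega, by omega, by omega, rfl⟩
            · rintro ⟨i, j, h1, h2, h3, h4, rfl⟩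
              by_cases hj : i + j = 0
              · left
                rw [GR_E_inj]
                omega
              · right
                exact ⟨i, j, h1, by omega, by omega, by omega, rfl⟩
          rw [e, show N + 1 - 2 + 1 = N + 1 - 1 by omega] at h2
          exact h2
        · rintro ⟨i, j, h1, h2, h3, h4, h5⟩
          rw [GR_E_inj] at h5
          omega
        · rintro _ ⟨i, j, h1, h2, h3, h4, rfl⟩
          left
          rw [GR_E_lt]
          omega
    · exact key a b n hab h hn

/-- **(R)** sorted words, rank at least `n + 1`: the words `10t`, `t < s`, `t.length + 1 ≥ n`, `s`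
sorted. Induction on `s.length` (`s = 0^a 1^b`), all `n`. `n = 1` (after `n ≥ 2` for the same `s`):
empty if `s = []`, else the cone with apex `10` over the case `n = 2`. `n ≥ 2`: `a = 0`: a chain
(`sh_cone`); `a ≥ 1`: `sh_up` with `A` = the words `100t`: outside `10 1^c` (`c ≥ n - 1 ≥ 1`), cover
`10 0 1^c`; `z = 10 1^(c-1)` or `idp n` (`c = n - 1`): `y = 10 0 1^(c-1)`; lower part a chain; upper
part the words `100u`, `1^c ≤ u < 0^(a-1) 1^b`; `A` part: the case `(a - 1, b)`, `n - 1` shifted by
a zero. -/
theorem rshI (n : ℕ) (s : List Bool) (hs : ¬ Fw s) (hn1 : 1 ≤ n) (hn : n ≤ s.length + 1) :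
    ShI (PW PR) (idp n) (wd (true :: false :: s)) := by
  obtain ⟨a, b, rfl⟩ := GR_ex hs
  rw [GR_len] at hn
  have h := GR_main (a + b) a b n rfl hn1 hn
  show Sh (· < ·) (rk (GR_E a b) - rk (idp n) - 1) (Op (PW PR) (idp n) (GR_E a b))
  rw [GR_Op, GR_rk, rk_id, show a + b + 2 - n - 1 = a + b + 1 - n by omega]
  exact h

end H58
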