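import Pool.Agent.W_58ccg_h2.GD
import Pool.Agent.W_58ccg_h2.GR

/-!
# General `k`: step (d), removal of the words `10s`, `s` sorted
-/

namespace H58

open El

theorem GDb_lis_sorted {s : List Bool} (h : ¬ Fw s) : lis s = s.length := by
  induction s with
  | nil => simp
  | cons b s ih =>
    cases b
    · have h1 : ¬ Fw s := fun hs => h (Red0_Fw.2 hs)
      rw [lis_false, ih h1, List.length_cons]
    · have h1 : false ∉ s := fun hs => h (GD_Fw_true.2 hs)
      have h2 : s.count true = s.length := by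
        rw [List.count_eq_length]
        intro b hb
        cases b
        · exact absurd hb h1
        · rfl
      have h3 := lis_le_length s
      rw [lis_true, h2, List.length_cons]
      omega

/-- words with at most one leading one, non sorted: start with `0` or with `10`. -/
theorem GDb_form {u : List Bool} (h : WP 1 u) :
    (∃ v, u = false :: v ∧ Fw v) ∨ ∃ v, u = true :: false :: v := by
  obtain ⟨hF, hl⟩ := h
  match u, hF, hl with
  | [], hF, _ => exact absurd (GD_Fw_mem hF) (by simp)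
  | false :: v, hF, _ => exact Or.inl ⟨v, rfl, Red0_Fw.1 hF⟩
  | [true], hF, _ => exact absurd (GD_Fw_true.1 hF) (by simp)
  | true :: true :: v, _, hl => simp [lead] at hl
  | true :: false :: v, _, _ => exact Or.inr ⟨v, rfl⟩

theorem GDb_WP0 {u : List Bool} (h : Fw u) : WP 1 (false :: u) :=
  ⟨Red0_Fw.2 h, by simp [lead]⟩

theorem GDb_WP10 (u : List Bool) : WP 1 (true :: false :: u) :=
  ⟨GD_Fw_true.2 (by simp), by simp [lead]⟩

/-- the case of a sorted word. -/
theorem GDb_sorted (n : ℕ) (s : List Bool) (hs : ¬ Fw s) (hn1 : 1 ≤ n) (hn : n ≤ s.length + 1) :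
    Wsh 1 n (true :: false :: s) := by
  refine shI_congr (fun u h1 h2 => ?_) (rshI n s hs hn1 hn)
  have h3 := ((lt_wd_wd _ _).1 h2).1
  constructor
  · rintro ⟨t, rfl, _⟩
    exact GDb_WP10 t
  · intro h
    rcases GDb_form h with ⟨v, rfl, hv⟩ | ⟨v, rfl⟩
    · exact absurd (Fw_mono hv (GD_sub0.1 h3)) hs
    · exact ⟨v, rfl, fun hv => hs (Fw_mono hv (GD_sub10.1 h3))⟩

/-- (d1) `sh_up`, `P = WP 1`, `A = WY`: outside `x = 10s`, `s` sorted, `s.length + 1 ≥ n`; covers
`010s` and `10s⁺` (`s⁺ ∈ F`). `z = 10s⁻`: `010s⁻`, resp. `10t`, `s⁻ < t < s⁺`, `t ∈ F`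
(`between_F`). `z = idp n` (`s.length = n - 1`): `010s⁻` (any `s⁻`), resp. `0s⁺`. Lower part
`rshI`, upper part `yshI`. If `h2` is sorted, `W_n(10h2)` is `rshI` itself. -/
theorem dshI (n : ℕ) (h2 : List Bool) (hn : 3 ≤ n) (hl : n ≤ lis h2 + 1)
    (hW : ∀ t, Fw t → t.Sublist h2 → n ≤ lis t + 1 → Winf (n - 1) t) :
    Wsh 1 n (true :: false :: h2) := by
  by_cases hF : Fw h2
  swap
  · refine GDb_sorted n h2 hF (by omega) ?_
    rw [← GDb_lis_sorted hF]
    exact hl
  have hout : ∀ x ∈ PW (WP 1), x ∉ PW WY → ∃ s, x = wd (true :: false :: s) ∧ ¬ Fw s := by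
    rintro x ⟨u, rfl, hu⟩ hx
    rcases GDb_form hu with ⟨v, rfl, hv⟩ | ⟨v, rfl⟩
    · exact absurd ⟨_, rfl, GD_WY0 hv⟩ hx
    · exact ⟨v, rfl, fun hv => hx ⟨_, rfl, GD_WY10 hv⟩⟩
  have hWP : ∀ u, WY u → WP 1 u := by
    rintro u ⟨h1, h3⟩
    refine ⟨h1, ?_⟩
    rcases h3 with ⟨v, rfl⟩ | ⟨v, rfl, _⟩
    · simp [lead]
    · simp [lead]
  unfold Wsh
  refine sh_up (PW (WP 1)) (PW WY) (idp n) (wd (true :: false :: h2)) ?_
    (Or.inr ⟨?_, ?_⟩) ?_ (d_down n h2 hn hF hl hW) ?_ ?_ ?_
  · rw [lt_id_wd, GD_lis10]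
    exact hl
  · rintro x ⟨u, rfl, hu⟩
    exact (wd_mem_PP u).2 hu.1
  · exact (wd_mem_PP _).2 (GD_Fw_true.2 (by simp))
  · rintro x ⟨u, rfl, hu⟩
    exact ⟨u, rfl, hWP u hu⟩
  · intro x hxP hgx hxh hxA
    obtain ⟨s, rfl, hs⟩ := hout x hxP hxA
    rw [lt_id_wd, GD_lis10, GDb_lis_sorted hs] at hgx
    exact GDb_sorted n s hs (by omega) hgx
  · intro x hxP hgx hxh hxA
    obtain ⟨s, rfl, hs⟩ := hout x hxP hxA
    rw [lt_id_wd, GD_lis10, GDb_lis_sorted hs] at hgx
    have hs0 : s ≠ [] := by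
      rintro rfl
      simp only [List.length_nil] at hgx
      omega
    refine shI_congr (fun u h3 _ => ?_)
      (yshI s (true :: false :: h2) hs hs0 hxh (Or.inr ⟨h2, rfl, hF⟩))
    have h5 := ((lt_wd_wd _ _).1 h3).1
    exact ⟨fun h => ⟨Fw_mono (GD_Fw_true.2 (by simp)) h5, h⟩, fun h => h.2⟩
  · intro x hxP hgx hxh hxA z a hz hgz hzx hrk ha hxa hah hra
    obtain ⟨s, rfl, hs⟩ := hout x hxP hxA
    have hgs := hgx
    rw [lt_id_wd, GD_lis10, GDb_lis_sorted hs] at hgs
    simp only [rk_wd, List.length_cons] at hrk hra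
    -- the form of `z`
    have hz' : (z = idp n ∧ s.length + 1 = n) ∨
        ∃ r, z = wd (true :: false :: r) ∧ r.Sublist s ∧ r.length + 1 = s.length := by
      rcases hz with rfl | ⟨u, rfl, hu⟩
      · left
        rw [rk_id] at hrk
        exact ⟨rfl, by omega⟩
      · right
        have h5 := ((lt_wd_wd _ _).1 hzx).1
        rcases GDb_form hu with ⟨v, rfl, hv⟩ | ⟨v, rfl⟩
        · exact absurd (Fw_mono hv (GD_sub0.1 h5)) hs
        · simp only [rk_wd, List.length_cons] at hrk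
          exact ⟨v, rfl, GD_sub10.1 h5, by omega⟩
    -- the form of `a`
    have ha' : (∃ v, a = wd (true :: false :: v) ∧ Fw v ∧ s.Sublist v ∧
        s.length + 1 = v.length) ∨ a = wd (false :: true :: false :: s) := by
      have ha2 : (∃ v, a = wd (true :: false :: v) ∧ Fw v) ∨ ∃ v, a = wd (false :: v) := by
        rcases ha with rfl | ⟨u, rfl, hu⟩
        · exact Or.inl ⟨h2, rfl, hF⟩
        · rcases hu.2 with ⟨v, rfl⟩ | ⟨v, rfl, hv⟩
          · exact Or.inr ⟨v, rfl⟩
          · exact Or.inl ⟨v, rfl, hv⟩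
      rcases ha2 with ⟨v, rfl, hv⟩ | ⟨v, rfl⟩
      · left
        simp only [rk_wd, List.length_cons] at hra
        exact ⟨v, rfl, hv, GD_sub10.1 ((lt_wd_wd _ _).1 hxa).1, by omega⟩
      · right
        simp only [rk_wd, List.length_cons] at hra
        have h5 : (true :: false :: s).Sublist v := GD_sub_10_0.1 ((lt_wd_wd _ _).1 hxa).1
        rw [h5.eq_of_length (by simp only [List.length_cons]; omega)]
    rcases hz' with ⟨rfl, hsn⟩ | ⟨r, rfl, hrs, hrl⟩
    · rcases ha' with ⟨v, rfl, hv, hsv, hvl⟩ | rfl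
      · refine ⟨wd (false :: v), ⟨_, rfl, GD_WY0 hv⟩, ?_, ?_⟩
        · have h6 := lis_mono hsv
          rw [GDb_lis_sorted hs] at h6
          rw [lt_id_wd, lis_false]
          omega
        · rw [lt_wd_wd_len]
          exact ⟨List.sublist_cons_self _ _, by simp⟩
      · obtain ⟨r, hr1, hr2, hr3⟩ := GWd_pred (s := []) (v := s) (List.nil_sublist s) (by
          simp only [List.length_nil]
          omega)
        have hrF : ¬ Fw r := fun h => hs (Fw_mono h hr2)
        refine ⟨wd (false :: true :: false :: r), ⟨_, rfl, GD_WY0 (GD_Fw_true.2 (by simp))⟩, ?_, ?_⟩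
        · rw [lt_id_wd, lis_false, GD_lis10, GDb_lis_sorted hrF]
          omega
        · rw [lt_wd_wd_len]
          refine ⟨((hr2.cons_cons _).cons_cons _).cons_cons _, ?_⟩
          simp only [List.length_cons]
          omega
    · rcases ha' with ⟨v, rfl, hv, hsv, hvl⟩ | rfl
      · obtain ⟨t, ht1, ht2, ht3, ht4⟩ := between_F r s v hs (by omega) hv hrs hrl hsv hvl
        refine ⟨wd (true :: false :: t), ⟨_, rfl, GD_WY10 ht1⟩, ?_, ?_⟩
        · rw [lt_wd_wd_len]
          refine ⟨GD_sub10.2 ht2, ?_⟩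
          simp only [List.length_cons]
          omega
        · rw [lt_wd_wd_len]
          refine ⟨GD_sub10.2 ht3, ?_⟩
          simp only [List.length_cons]
          omega
      · refine ⟨wd (false :: true :: false :: r), ⟨_, rfl, GD_WY0 (GD_Fw_true.2 (by simp))⟩, ?_, ?_⟩
        · rw [lt_wd_wd_len]
          exact ⟨List.sublist_cons_self _ _, by simp⟩
        · rw [lt_wd_wd_len]
          refine ⟨((hrs.cons_cons _).cons_cons _).cons_cons _, ?_⟩
          simp only [List.length_cons]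
          omega

end H58
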