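import Pool.Agent.W_58cc_h2.Defs

/-!
# MP_58cc3c_co, general `k`: definitions of the final statement
-/

namespace Pool.Agent.W_58cc_h2

/-- The open interval between `s` and `t` is disconnected: its elements can be coloured with two
colours, both of which are used, so that comparable elements have the same colour. -/
def Disconnected (s t : FPerm) : Prop :=
  ∃ C : FPerm → Prop, (∃ x ∈ Interior s t, C x) ∧ (∃ x ∈ Interior s t, ¬ C x) ∧
    ∀ x ∈ Interior s t, ∀ y ∈ Interior s t, PatLE x y → (C x ↔ C y)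

/-- The obstructions for the lower bound `id_k`: `o = id_p ⊕ τ ⊕ id_q` (direct sum), where `τ` has
length `2 m`, `m ≥ 3`, is increasing on both halves, `τ (m + i + 1) < τ i` for `1 ≤ i < m`
(one-line notation starting with `τ 1`), and `p + m + q ≥ k`. -/
def Obstruction (k : ℕ) (o : FPerm) : Prop :=
  ∃ p m q : ℕ, 3 ≤ m ∧ k ≤ p + m + q ∧ o.n = p + 2 * m + q ∧
    (∀ i : Fin o.n, (i : ℕ) < p ∨ p + 2 * m ≤ (i : ℕ) → o.p i = i) ∧
    (∀ i j : Fin o.n, p ≤ (i : ℕ) → i < j → (j : ℕ) < p + m → o.p i < o.p j) ∧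
    (∀ i j : Fin o.n, p + m ≤ (i : ℕ) → i < j → (j : ℕ) < p + 2 * m → o.p i < o.p j) ∧
    (∀ i j : Fin o.n, p ≤ (i : ℕ) → (i : ℕ) + 1 < p + m → (j : ℕ) = (i : ℕ) + m + 1 →
      o.p j < o.p i)

/-- The final statement, for all lower bounds. -/
def FinalAll : Prop :=
  ∀ s t : FPerm, OneDescent t → PatLE s t →
    (Shellable (Delta s t) ↔
      ∀ x y : FPerm, PatLE s x → PatLE x y → PatLE y t → x.n + 3 ≤ y.n → ¬ Disconnected x y) ∧
    (Shellable (Delta s t) ↔
      ¬ ∃ (k : ℕ) (o : FPerm), s = idn k ∧ Obstruction k o ∧ PatLE o t)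

end Pool.Agent.W_58cc_h2
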