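import Pool.Agent.W_58ccg_h2.GDefs
import Pool.Agent.W_58cc_h2.Glue
import Pool.Agent.W_58ccg_h2.GObs

/-!
# MP_58cc3c_co, general `k`: the obstructions are the permutations of the words `0^p v 1^q`
-/

namespace Pool.Agent.W_58cc_h2

theorem gWordA_take_succ (l : List Bool) (b : Bool) {u : ℕ} (hu : u < l.length) :
    (l.take (u + 1)).count b = (l.take u).count b + if l[u] = b then 1 else 0 := by
  rw [List.take_succ_eq_append_getElem hu, List.count_append, List.count_singleton]
  congr 1
  by_cases h : l[u] = b <;> simp [h]

theorem gWordA_take_mono (l : List Bool) (b : Bool) {u v : ℕ} (h : u ≤ v) :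
    (l.take u).count b ≤ (l.take v).count b := by
  apply List.Sublist.count_le
  exact (List.take_prefix_take_left h).sublist

theorem gWordA_take_le (l : List Bool) (b : Bool) (u : ℕ) :
    (l.take u).count b ≤ l.count b := (List.take_sublist u l).count_le b

theorem gWordA_take_lt (l : List Bool) (b : Bool) {u v : ℕ} (hu : u < l.length) (hb : l[u] = b)
    (h : u < v) : (l.take u).count b < (l.take v).count b := by
  have h1 := gWordA_take_succ l b hu
  rw [if_pos hb] at h1
  have h2 := gWordA_take_mono l b (Nat.succ_le_of_lt h)
  rw [Nat.succ_eq_add_one] at h2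
  omega

theorem gWordA_take_lt' (l : List Bool) (b : Bool) {u : ℕ} (hu : u < l.length) (hb : l[u] = b) :
    (l.take u).count b < l.count b := by
  have h1 := gWordA_take_lt l b hu hb hu
  rwa [List.take_length] at h1

theorem gWordA_id {n : ℕ} {g : Fin n → ℕ} (hg : StrictMono g) (hb : ∀ i, g i < n) (i : Fin n) :
    g i = i := by
  have hm : StrictMono (fun i => (⟨g i, hb i⟩ : Fin n)) := fun i j hij => hg hij
  have hs : Function.Surjective (fun i => (⟨g i, hb i⟩ : Fin n)) :=
    Finite.surjective_of_injective hm.injective
  have he : hm.orderIsoOfSurjective _ hs = OrderIso.refl _ := Subsingleton.elim _ _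
  have h1 : hm.orderIsoOfSurjective _ hs i = i := by rw [he]; rfl
  exact congrArg Fin.val h1

/-- the positions of the values in the permutation of a word. -/
theorem ofWord_symm (l : List Bool) (u : Fin l.length) :
    (((ofWord l).p.symm u : Fin l.length) : ℕ) =
      if l[u] = false then (l.take u).count false else l.count false + (l.take u).count true := by
  set G : Fin l.length → ℕ := fun u =>
    if l[u] = false then (l.take u).count false else l.count false + (l.take u).count true with hG
  have hlen : l.count false + l.count true = l.length := by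
    have := List.length_eq_countP_add_countP (fun b => b == false) (l := l)
    rw [List.count_eq_countP, List.count_eq_countP]
    rw [this]
    congr 1
    apply List.countP_congr
    intro b _
    cases b <;> simp
  have hlt : ∀ u, G u < l.length := by
    intro u
    simp only [hG]
    split_ifs with h
    · have := gWordA_take_lt' l false u.2 h
      omega
    · have h' : l[(u : ℕ)] = true := by simpa using h
      have := gWordA_take_lt' l true u.2 h'
      omega
  have hmono : ∀ u v : Fin l.length, (Tuple.sort l.get).symm u < (Tuple.sort l.get).symm v →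
      G u < G v := by
    intro u v h
    rw [sort_symm_lt] at h
    simp only [List.get_eq_getElem] at h
    simp only [hG]
    rcases h with h | ⟨h1, h2⟩
    · have hu : l[(u : ℕ)] = false := by
        cases h3 : l[(u : ℕ)]
        · rfl
        · rw [h3] at h; cases h4 : l[(v : ℕ)] <;> rw [h4] at h <;> exact absurd h (by decide)
      have hv : l[(v : ℕ)] = true := by
        cases h3 : l[(v : ℕ)]
        · rw [h3, hu] at h; exact absurd h (by decide)
        · rfl
      have := gWordA_take_lt' l false u.2 hu
      simp only [Fin.getElem_fin, hu, hv, if_true, Bool.true_eq_false, if_false]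
      omega
    · have h2' : (u : ℕ) < v := h2
      cases h3 : l[(u : ℕ)]
      · have h4 : l[(v : ℕ)] = false := by rw [← h1, h3]
        simp only [Fin.getElem_fin, h4, if_true]
        exact gWordA_take_lt l false u.2 h3 h2'
      · have h4 : l[(v : ℕ)] = true := by rw [← h1, h3]
        simp only [Fin.getElem_fin, h4, Bool.true_eq_false, if_false]
        have := gWordA_take_lt l true u.2 h3 h2'
        omega
  have hid := gWordA_id (g := fun i => G ((Tuple.sort l.get) i)) (fun i j hij => hmono _ _ (by
    simpa using hij)) (fun i => hlt _) ((Tuple.sort l.get).symm u)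
  simp only [Equiv.apply_symm_apply] at hid
  exact hid.symm

/-- positions of the zeros and the ones. -/
theorem gWordA_pos (l : List Bool) (i : Fin l.length) :
    ∃ u : Fin l.length, (ofWord l).p i = u ∧
      ((l[(u : ℕ)] = false ∧ (i : ℕ) = (l.take u).count false ∧ (i : ℕ) < l.count false) ∨
        (l[(u : ℕ)] = true ∧ (i : ℕ) = l.count false + (l.take u).count true)) := by
  refine ⟨(ofWord l).p i, rfl, ?_⟩
  have h := ofWord_symm l ((ofWord l).p i)
  have h1 : (ofWord l).p.symm ((ofWord l).p i) = i := (ofWord l).p.symm_apply_apply i
  rw [h1] at h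
  have hlt : ∀ u : Fin l.length, l[(u : ℕ)] = false → (l.take u).count false < l.count false :=
    fun u hu => gWordA_take_lt' l false u.2 hu
  set u : Fin l.length := (ofWord l).p i
  cases h2 : l[(u : ℕ)]
  · left
    have h3 : l[u] = false := h2
    rw [if_pos h3] at h
    exact ⟨rfl, h, by rw [h]; exact hlt u h2⟩
  · right
    have h3 : ¬ l[u] = false := by
      have : l[u] = true := h2
      rw [this]; decide
    rw [if_neg h3] at h
    exact ⟨rfl, h⟩

theorem gWordA_lt (l : List Bool) {i j : Fin l.length} (hij : i < j)
    (h : (j : ℕ) < l.count false ∨ l.count false ≤ (i : ℕ)) :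
    ((ofWord l).p i : Fin l.length) < (ofWord l).p j := by
  obtain ⟨u, hu, h1⟩ := gWordA_pos l i
  obtain ⟨v, hv, h2⟩ := gWordA_pos l j
  have h3 := sort_symm_lt l.get ((ofWord l).p i) ((ofWord l).p j)
  have h4 : (Tuple.sort l.get).symm ((ofWord l).p i) = i := (Tuple.sort l.get).symm_apply_apply i
  have h5 : (Tuple.sort l.get).symm ((ofWord l).p j) = j := (Tuple.sort l.get).symm_apply_apply j
  rw [h4, h5, hu, hv] at h3
  simp only [List.get_eq_getElem] at h3
  have hij' : (i : ℕ) < j := hij
  rw [hu, hv]
  rcases h3.1 hij with h6 | h6
  · exfalso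
    rcases h1 with ⟨a1, a2, a3⟩ | ⟨a1, a2⟩
    · rcases h2 with ⟨b1, b2, b3⟩ | ⟨b1, b2⟩
      · rw [a1, b1] at h6; exact absurd h6 (by decide)
      · omega
    · rcases h2 with ⟨b1, b2, b3⟩ | ⟨b1, b2⟩
      · rw [a1, b1] at h6; exact absurd h6 (by decide)
      · rw [a1, b1] at h6; exact absurd h6 (by decide)
  · exact h6.2

section obw

variable {p q : ℕ} {v : List Bool}

theorem gWordA_rep (b c : Bool) (n : ℕ) :
    (List.replicate n b).count c = if b = c then n else 0 := by
  rw [List.count_replicate]
  cases b <;> cases c <;> simp

theorem gWordA_len (h : H58.PD v) : v.length = 2 * v.count true := by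
  have := List.count_true_add_count_false v
  have := h.1
  omega

theorem gWordA_olen (h : H58.PD v) :
    (H58.obw p q v).length = p + 2 * v.count true + q := by
  have h1 := gWordA_len h
  unfold H58.obw
  simp only [List.length_append, List.length_replicate]
  omega

theorem gWordA_ofalse (h : H58.PD v) :
    (H58.obw p q v).count false = p + v.count true := by
  have h1 := h.1
  unfold H58.obw
  simp only [List.count_append, gWordA_rep]
  simp
  omega

theorem gWordA_get_ge (hv : H58.PD v) {u : ℕ} (hu : u < (H58.obw p q v).length)
    (h : p + 2 * v.count true ≤ u) : (H58.obw p q v)[u] = true := by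
  have h1 := gWordA_len hv
  have h2 : (H58.obw p q v)[u] =
      (List.replicate p false ++ v ++ List.replicate q true)[u]'(by
        simpa [H58.obw] using hu) := rfl
  rw [h2, List.getElem_append_right (by
    simp only [List.length_append, List.length_replicate]; omega)]
  simp

theorem gWordA_take1 {u : ℕ} (h : u ≤ p) :
    (H58.obw p q v).take u = List.replicate u false := by
  unfold H58.obw
  rw [List.append_assoc, List.take_append_of_le_length (by simpa using h), List.take_replicate]
  congr 1
  omega

theorem gWordA_take2 (hv : H58.PD v) {a : ℕ} (h : a ≤ 2 * v.count true) :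
    (H58.obw p q v).take (p + a) = List.replicate p false ++ v.take a := by
  have h1 := gWordA_len hv
  unfold H58.obw
  rw [List.take_append_of_le_length (by
    simp only [List.length_append, List.length_replicate]; omega)]
  rw [List.take_append]
  simp

theorem gWordA_take3 (hv : H58.PD v) {a : ℕ} (h : a ≤ q) :
    (H58.obw p q v).take (p + 2 * v.count true + a) =
      List.replicate p false ++ v ++ List.replicate a true := by
  have h1 := gWordA_len hv
  unfold H58.obw
  rw [List.take_append]
  simp only [List.length_append, List.length_replicate, List.take_replicate]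
  rw [List.take_of_length_le (by
    simp only [List.length_append, List.length_replicate]; omega)]
  congr 2
  omega

end obw

/-- words give obstructions (`i`-th zero of `v` comes after the `(i+1)`-st one). -/
theorem obstruction_of_word {k p q : ℕ} {v : List Bool} (h : H58.PD v) (h3 : 3 ≤ v.count true)
    (hk : k ≤ p + v.count true + q) : Obstruction k (ofWord (H58.obw p q v)) := by
  have hA : ∀ n ≤ p, ((H58.obw p q v).take n).count false = n := by
    intro n hn
    rw [gWordA_take1 hn]
    simp
  have hB : ((H58.obw p q v).take (p + 2 * v.count true)).count true = v.count true := by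
    rw [gWordA_take2 h le_rfl, ← gWordA_len h, List.take_length, List.count_append, gWordA_rep]
    simp
  have hC : ∀ a ≤ q, ((H58.obw p q v).take (p + 2 * v.count true + a)).count true =
      v.count true + a := by
    intro a ha
    rw [gWordA_take3 h ha, List.count_append, List.count_append, gWordA_rep, gWordA_rep]
    simp
  have hD : ∀ a ≤ 2 * v.count true, ∀ b, ((H58.obw p q v).take (p + a)).count b =
      (if false = b then p else 0) + (v.take a).count b := by
    intro a ha b
    rw [gWordA_take2 h ha, List.count_append, gWordA_rep]
  set w := H58.obw p q v with hw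
  have hlen : w.length = p + 2 * v.count true + q := gWordA_olen h
  have hfal : w.count false = p + v.count true := gWordA_ofalse h
  have hE : ∀ u (hu : u < w.length), p + 2 * v.count true ≤ u → w[u] = true :=
    fun u hu h5 => gWordA_get_ge h hu h5
  refine ⟨p, v.count true, q, h3, hk, hlen, ?_, ?_, ?_, ?_⟩
  · intro i hi
    obtain ⟨u, hu, h1⟩ := gWordA_pos w i
    rw [hu]
    have hu2 := u.2
    have hi2 : (i : ℕ) < p + 2 * v.count true + q := by
      have : (i : ℕ) < w.length := i.2
      omega
    apply Fin.ext
    rcases hi with hi | hi
    · rcases h1 with ⟨a1, a2, a3⟩ | ⟨a1, a2⟩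
      · rcases le_or_gt p (u : ℕ) with h4 | h4
        · have h5 := gWordA_take_mono w false h4
          have h6 := hA p le_rfl
          omega
        · have h6 := hA u h4.le
          omega
      · omega
    · rcases h1 with ⟨a1, a2, a3⟩ | ⟨a1, a2⟩
      · omega
      · rcases lt_or_ge (u : ℕ) (p + 2 * v.count true) with h4 | h4
        · exfalso
          have h5 := gWordA_take_lt w true u.2 a1 h4
          omega
        · obtain ⟨a, ha⟩ := Nat.exists_eq_add_of_le h4
          have h5 := hC a (by omega)
          rw [← ha] at h5
          omega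
  · intro i j hi hij hj
    exact gWordA_lt w hij (Or.inl (by omega))
  · intro i j hi hij hj
    exact gWordA_lt w hij (Or.inr (by omega))
  · intro i j hi hi2 hj
    obtain ⟨u, hu, h1⟩ := gWordA_pos w i
    obtain ⟨u', hu', h1'⟩ := gWordA_pos w j
    rw [hu, hu']
    rcases h1 with ⟨a1, a2, a3⟩ | ⟨a1, a2⟩
    swap
    · omega
    rcases h1' with ⟨b1, b2, b3⟩ | ⟨b1, b2⟩
    · omega
    by_contra hcon
    have hne : (u : ℕ) ≠ u' := by
      intro he
      have he' : u = u' := Fin.ext he
      subst he'
      rw [a1] at b1
      exact absurd b1 (by decide)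
    have hlt : (u : ℕ) < u' := by
      have h9 : ¬ (u' : ℕ) < u := hcon
      omega
    have hup : p ≤ (u : ℕ) := by
      by_contra h4
      have h6 := hA u (by omega)
      omega
    have hu2 : (u : ℕ) < p + 2 * v.count true := by
      by_contra h4
      have h9 := hE u u.2 (not_lt.1 h4)
      rw [a1] at h9
      exact absurd h9 (by decide)
    obtain ⟨a, ha⟩ := Nat.exists_eq_add_of_le hup
    have hc1 := gWordA_take_succ w false u.2
    rw [if_pos a1] at hc1
    have hc2 := gWordA_take_mono w true (Nat.succ_le_of_lt hlt)
    rw [Nat.succ_eq_add_one] at hc2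
    have e1 := hD (a + 1) (by omega) false
    have e2 := hD (a + 1) (by omega) true
    rw [← add_assoc, ← ha] at e1 e2
    simp only [if_true, Bool.false_eq_true, if_false] at e1 e2
    have hPD := h.2 (v.take (a + 1)) (v.drop (a + 1)) (List.take_append_drop _ _).symm (by
      intro he
      rw [he] at e1
      simp only [List.count_nil] at e1
      omega) (by
      intro he
      have h7 : v.take (a + 1) = v := by
        have := List.take_append_drop (a + 1) v
        rw [he, List.append_nil] at this
        exact this
      rw [h7, ← h.1] at e1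
      omega)
    omega

/-- obstructions are words: `f u = (p + m ≤ position of the value u)`; the word is `0^p v 1^q`. -/
theorem word_of_obstruction {k : ℕ} {o : FPerm} (h : Obstruction k o) :
    ∃ p q v, H58.PD v ∧ 3 ≤ v.count true ∧ k ≤ p + v.count true + q ∧
      o = ofWord (H58.obw p q v) := by
  obtain ⟨N, π⟩ := o
  obtain ⟨p, m, q, hm, hk, hN, h1, h2, h3, h4⟩ := h
  simp only at hN h1 h2 h3 h4
  -- values
  have hlow : ∀ i : Fin N, p ≤ (i : ℕ) → p ≤ (π i : ℕ) := by
    intro i hi
    by_contra hc
    have h5 := h1 (π i) (Or.inl (by omega))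
    have h6 := π.injective h5
    rw [h6] at hc
    omega
  have hhigh : ∀ i : Fin N, (i : ℕ) < p + 2 * m → (π i : ℕ) < p + 2 * m := by
    intro i hi
    by_contra hc
    have h5 := h1 (π i) (Or.inr (by omega))
    have h6 := π.injective h5
    rw [h6] at hc
    omega
  let f : Fin N → Bool := fun u => decide (p + m ≤ ((π.symm u : Fin N) : ℕ))
  have hfπ : ∀ i : Fin N, f (π i) = decide (p + m ≤ (i : ℕ)) := by
    intro i
    simp only [f, Equiv.symm_apply_apply]
  have hsort : π = Tuple.sort f := by
    rw [Tuple.eq_sort_iff]
    constructor
    · intro a b hab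
      simp only [Function.comp_apply, hfπ]
      have hab' : (a : ℕ) ≤ b := hab
      by_cases h5 : p + m ≤ (a : ℕ)
      · have h6 : p + m ≤ (b : ℕ) := h5.trans hab'
        simp [h5, h6]
      · simp [h5]
    · intro a b hab hf
      simp only [hfπ] at hf
      have hab' : (a : ℕ) < b := hab
      by_cases h5 : p + m ≤ (a : ℕ)
      · rcases lt_or_ge (b : ℕ) (p + 2 * m) with h6 | h6
        · exact h3 a b h5 hab h6
        · have h7 := h1 b (Or.inr h6)
          rw [h7]
          rcases lt_or_ge (a : ℕ) (p + 2 * m) with h8 | h8
          · have h9 := hhigh a h8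
            apply Fin.lt_def.2
            omega
          · rw [h1 a (Or.inr h8)]
            exact hab
      · have h6 : ¬ p + m ≤ (b : ℕ) := by
          intro h6
          simp [h5, h6] at hf
        rcases lt_or_ge (a : ℕ) p with h7 | h7
        · rw [h1 a (Or.inl h7)]
          rcases lt_or_ge (b : ℕ) p with h8 | h8
          · rw [h1 b (Or.inl h8)]
            exact hab
          · have h9 := hlow b h8
            apply Fin.lt_def.2
            omega
        · exact h2 a b h7 hab (by omega)
  have ho : (⟨N, π⟩ : FPerm) = ofWord (List.ofFn f) := by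
    rw [ofWord_ofFn]
    unfold permOf
    rw [← hsort]
  -- the letters
  have hwlen : (List.ofFn f).length = N := List.length_ofFn
  have hget : ∀ u (hu : u < N), (List.ofFn f)[u]'(by rw [hwlen]; exact hu) = f ⟨u, hu⟩ := by
    intro u hu
    simp
  have hfix : ∀ u (hu : u < N), (u < p ∨ p + 2 * m ≤ u) → π.symm ⟨u, hu⟩ = ⟨u, hu⟩ := by
    intro u hu h5
    rw [Equiv.symm_apply_eq]
    exact (h1 ⟨u, hu⟩ h5).symm
  -- positions of the letters
  have hposn : ∀ i : Fin N, ∃ u : ℕ, ∃ hu : u < N, π i = ⟨u, hu⟩ ∧
      ((f ⟨u, hu⟩ = false ∧ (i : ℕ) = ((List.ofFn f).take u).count false ∧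
          (i : ℕ) < (List.ofFn f).count false) ∨
        (f ⟨u, hu⟩ = true ∧
          (i : ℕ) = (List.ofFn f).count false + ((List.ofFn f).take u).count true)) := by
    intro i
    have hi := gWordA_pos (List.ofFn f) (Fin.cast hwlen.symm i)
    obtain ⟨u, hu, h5⟩ := hi
    have hu2 : (u : ℕ) < N := lt_of_lt_of_eq u.2 hwlen
    refine ⟨u, hu2, ?_, ?_⟩
    · apply Fin.ext
      have key : ∀ (o' : FPerm) (ho' : (⟨N, π⟩ : FPerm) = o') (i : Fin N),
          ((π i : Fin N) : ℕ) = (o'.p (Fin.cast (congrArg FPerm.n ho') i) : Fin o'.n) := by
        intro o' ho' i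
        subst ho'
        rfl
      have h6 := key _ ho i
      rw [h6]
      exact congrArg Fin.val hu
    · have h7 : (List.ofFn f)[(u : ℕ)] = f ⟨u, hu2⟩ := hget u hu2
      rw [h7] at h5
      exact h5
  have hcf : (List.ofFn f).count false = p + m := by
    rcases lt_trichotomy ((List.ofFn f).count false) (p + m) with h5 | h5 | h5
    · exfalso
      obtain ⟨u, hu, h6, h7⟩ := hposn ⟨(List.ofFn f).count false, by omega⟩
      have h8 := hfπ ⟨(List.ofFn f).count false, by omega⟩
      rw [h6] at h8
      have h9 : ¬ p + m ≤ (List.ofFn f).count false := not_le.2 h5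
      simp only [h9, decide_false] at h8
      rcases h7 with ⟨a1, a2, a3⟩ | ⟨a1, a2⟩
      · exact absurd a3 (lt_irrefl _)
      · rw [h8] at a1
        exact absurd a1 (by decide)
    · exact h5
    · exfalso
      obtain ⟨u, hu, h6, h7⟩ := hposn ⟨p + m, by omega⟩
      have h8 := hfπ ⟨p + m, by omega⟩
      rw [h6] at h8
      simp only [le_refl, decide_true] at h8
      rcases h7 with ⟨a1, a2, a3⟩ | ⟨a1, a2⟩
      · rw [h8] at a1
        exact absurd a1 (by decide)
      · simp only at a2
        omega
  -- the shape
  set w := List.ofFn f with hw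
  obtain ⟨v, hv⟩ : ∃ v, v = (w.drop p).take (2 * m) := ⟨_, rfl⟩
  have hvlen : v.length = 2 * m := by
    rw [hv, List.length_take, List.length_drop]
    omega
  have hshape : w = List.replicate p false ++ v ++ List.replicate q true := by
    have e1 : w.take p = List.replicate p false := by
      apply List.ext_getElem
      · rw [List.length_take, List.length_replicate]
        omega
      · intro u hu hu'
        rw [List.length_replicate] at hu'
        rw [List.getElem_take, List.getElem_replicate]
        have huN : u < N := by omega
        rw [hget u huN]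
        simp only [f]
        rw [hfix u huN (Or.inl hu')]
        simp only [decide_eq_false_iff_not]
        omega
    have e2 : (w.drop p).drop (2 * m) = List.replicate q true := by
      apply List.ext_getElem
      · rw [List.length_drop, List.length_drop, List.length_replicate]
        omega
      · intro u hu hu'
        rw [List.length_replicate] at hu'
        rw [List.getElem_drop, List.getElem_drop, List.getElem_replicate]
        have huN : p + (2 * m + u) < N := by omega
        rw [hget _ huN]
        simp only [f]
        rw [hfix _ huN (Or.inr (by omega))]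
        simp only [decide_eq_true_eq]
        omega
    rw [← e1, ← e2, hv, List.append_assoc, List.take_append_drop, List.take_append_drop]
  have hvf : v.count false = m := by
    have h5 := hcf
    rw [hshape, List.count_append, List.count_append, gWordA_rep, gWordA_rep] at h5
    simp at h5
    exact h5
  have hvt : v.count true = m := by
    have := List.count_true_add_count_false v
    omega
  have htake : ∀ a b, v = a ++ b → ∀ c, (w.take (p + a.length)).count c =
      (if false = c then p else 0) + a.count c := by
    intro a b hab c
    rw [hshape, hab]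
    have e3 : (List.replicate p false ++ (a ++ b) ++ List.replicate q true) =
        (List.replicate p false ++ a) ++ (b ++ List.replicate q true) := by
      simp
    have e4 : p + a.length = (List.replicate p false ++ a).length := by simp
    rw [e3, e4, List.take_left', List.count_append, gWordA_rep]
    rfl
  refine ⟨p, q, v, ⟨by rw [hvf, hvt], ?_⟩, by rw [hvt]; exact hm, by rw [hvt]; exact hk, ?_⟩
  · intro a b hab ha hb
    have hla := List.count_true_add_count_false a
    have hlb := List.count_true_add_count_false b
    have ha0 : 0 < a.length := List.length_pos_of_ne_nil ha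
    have hb0 : 0 < b.length := List.length_pos_of_ne_nil hb
    have hct : a.count true + b.count true = m := by
      rw [← hvt, hab, List.count_append]
    have hcf2 : a.count false + b.count false = m := by
      rw [← hvf, hab, List.count_append]
    by_contra hcon
    have hs1 : 1 ≤ a.count false := by omega
    obtain ⟨t, ht⟩ : ∃ t, t = min (a.count false) (m - 1) - 1 := ⟨_, rfl⟩
    have htm : t + 2 ≤ m := by omega
    have hts : t + 1 ≤ a.count false := by omega
    obtain ⟨u, hu, h6, h7⟩ := hposn ⟨p + t, by omega⟩
    obtain ⟨u', hu', h6', h7'⟩ := hposn ⟨p + t + m + 1, by omega⟩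
    have h8 := h4 ⟨p + t, by omega⟩ ⟨p + t + m + 1, by omega⟩ (by simp) (by
      simp only; omega) rfl
    rw [h6, h6'] at h8
    have h8' : u' < u := h8
    simp only at h7 h7'
    rcases h7 with ⟨a1, a2, a3⟩ | ⟨a1, a2⟩
    swap
    · omega
    rcases h7' with ⟨b1, b2, b3⟩ | ⟨b1, b2⟩
    · omega
    have hu1 : u < p + a.length := by
      by_contra h9
      have h10 := gWordA_take_mono w false (not_lt.1 h9)
      rw [htake a b hab false] at h10
      simp only [if_true] at h10
      omega
    have hb1' : w[u']'(by omega) = true := by
      rw [hget u' hu']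
      exact b1
    have h11 := gWordA_take_succ w true (u := u') (by omega)
    rw [if_pos hb1'] at h11
    have h12 := gWordA_take_mono w true (show u' + 1 ≤ p + a.length by omega)
    rw [htake a b hab true] at h12
    simp only [Bool.false_eq_true, if_false] at h12
    omega
  · rw [ho]
    congr 1

/-- containment of an obstruction in `ofWord w`. -/
theorem contains_iff {k : ℕ} {w : List Bool} (hw : NS w) :
    (∃ o, Obstruction k o ∧ PatLE o (ofWord w)) ↔ ¬ ∀ n, k ≤ n → H58.AvB n w := by
  constructor
  · rintro ⟨o, ho, hle⟩ hA
    obtain ⟨p, q, v, hPD, h3, hk, rfl⟩ := word_of_obstruction ho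
    have hns : NS (H58.obw p q v) := (H58.obw_Fw hPD h3).1
    have h5 := (patLE_toP (x := .wd (H58.obw p q v)) (y := .wd w) (wd_mem_PP.2 hns)
      (wd_mem_PP.2 hw)).1 hle
    exact hA _ hk p q v hPD h3 rfl h5
  · intro h
    push Not at h
    obtain ⟨n, hn, h⟩ := h
    unfold H58.AvB at h
    push Not at h
    obtain ⟨p, q, v, hPD, h3, hpq, hs⟩ := h
    refine ⟨ofWord (H58.obw p q v), obstruction_of_word hPD h3 (by omega), ?_⟩
    rw [patLE_ofWord]
    exact ⟨_, hs, rfl⟩

end Pool.Agent.W_58cc_h2
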