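import Pool.Agent.W_58cc_h2.NegA
import Pool.Agent.W_58cc_h2.Up0
import Pool.Agent.W_58cc_h2.Mir

/-!
# General `k`, negative part: disconnected open intervals (paper proof, row 468, section 10)
-/

namespace H58

open El

/-- `S` is disconnected: a colouring with both colours which is constant on comparable pairs. -/
def Disc (S : Set El) : Prop :=
  ∃ col : El → Prop, (∃ a ∈ S, col a) ∧ (∃ b ∈ S, ¬ col b) ∧
    ∀ a ∈ S, ∀ b ∈ S, a < b → (col a ↔ col b)

/-- `colour_const` for a chain `D` with at most `d - 2` elements (same proof, `F' \ D` has at least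
two elements). -/
theorem colour_const' {α : Type*} [DecidableEq α] {r : α → α → Prop} {d : ℕ} {Q : Set α}
    (h : Sh r d Q) (D : Finset α) (hD : D.card + 2 ≤ d) (col : α → Prop)
    (hcol : ∀ F, Fct r d Q F → D ⊆ F → ∀ a ∈ F, a ∉ D → ∀ b ∈ F, b ∉ D → (col a ↔ col b))
    (F G : Finset α) (hF : Fct r d Q F) (hG : Fct r d Q G) (hDF : D ⊆ F) (hDG : D ⊆ G)
    (a b : α) (ha : a ∈ F) (haD : a ∉ D) (hb : b ∈ G) (hbD : b ∉ D) : col a ↔ col b := by
  obtain ⟨_, _, f, hinj, hsh⟩ := h
  obtain ⟨F0, ⟨hF0, hDF0⟩, hmin⟩ : ∃ F0, (Fct r d Q F0 ∧ D ⊆ F0) ∧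
      ∀ F', (Fct r d Q F' ∧ D ⊆ F') → f F0 ≤ f F' := by
    have hne : (Set.range fun F' : {F' : Finset α // Fct r d Q F' ∧ D ⊆ F'} => f F'.1).Nonempty :=
      ⟨f F, ⟨F, hF, hDF⟩, rfl⟩
    obtain ⟨⟨F0, hF0⟩, hF0e⟩ := Nat.sInf_mem hne
    refine ⟨F0, hF0, fun F' hF' => ?_⟩
    have h1 : f F0 = sInf (Set.range fun F' : {F' : Finset α // Fct r d Q F' ∧ D ⊆ F'} => f F'.1) :=
      hF0e
    rw [h1]
    exact Nat.sInf_le ⟨⟨F', hF'⟩, rfl⟩
  have hcard : ∀ F', Fct r d Q F' → D ⊆ F' → 2 ≤ (F' \ D).card := by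
    intro F' hF' hDF'
    rw [Finset.card_sdiff_of_subset hDF', hF'.2.2]
    omega
  obtain ⟨b0, hb0⟩ : (F0 \ D).Nonempty := by
    rw [← Finset.card_pos]
    have := hcard F0 hF0 hDF0
    omega
  rw [Finset.mem_sdiff] at hb0
  have key : ∀ n : ℕ, ∀ F', Fct r d Q F' → D ⊆ F' → f F' = n → ∀ a ∈ F', a ∉ D →
      (col a ↔ col b0) := by
    intro n
    induction n using Nat.strong_induction_on with
    | _ n ih =>
      intro F' hF' hDF' hn a ha haD
      by_cases hFF : F' = F0
      · subst hFF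
        exact hcol F' hF' hDF' a ha haD b0 hb0.1 hb0.2
      · have h1 := hmin F' ⟨hF', hDF'⟩
        have h2 : f F0 ≠ f F' := fun h3 => hFF (hinj F0 F' hF0 hF' h3).symm
        obtain ⟨H, hH, hHlt, v, hv, hvF0, hvH⟩ := hsh F' F0 hF' hF0 (lt_of_le_of_ne h1 h2)
        have hDH : D ⊆ H := by
          intro x hx
          apply hvH x (hDF' hx)
          rintro rfl
          exact hvF0 (hDF0 hx)
        obtain ⟨w, hw, hwv⟩ := Finset.exists_mem_ne (s := F' \ D)
          (by have := hcard F' hF' hDF'; omega) v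
        rw [Finset.mem_sdiff] at hw
        rw [hcol F' hF' hDF' a ha haD w hw.1 hw.2]
        exact ih (f H) (by omega) H hH hDH rfl w (hvH w hw.1 hwv) hw.2
  rw [key _ F hF hDF rfl a ha haD, key _ G hG hDG rfl b hb hbD]

/-- subwords: one can delete a letter of `l` and keep a given proper subword. -/
theorem exists_del {s l : List Bool} (h : s.Sublist l) (hl : s.length < l.length) :
    ∃ u, s.Sublist u ∧ u.Sublist l ∧ u.length + 1 = l.length := by
  induction h with
  | slnil => exact absurd hl (lt_irrefl _)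
  | cons a h ih => exact ⟨_, h, List.sublist_cons_self _ _, rfl⟩
  | cons_cons a h ih =>
    obtain ⟨u, h1, h2, h3⟩ := ih (by simpa using hl)
    exact ⟨a :: u, h1.cons_cons a, h2.cons_cons a, by simpa using h3⟩

theorem GNegA_sorted {u : List Bool} (h : ¬ Fw u) : u.length ≤ lis u := by
  unfold Fw at h
  induction u with
  | nil => simp
  | cons b z ih =>
    cases b
    · have h1 := ih fun h2 => h (h2.cons false)
      simp only [lis_false, List.length_cons]
      omega
    · have h1 : false ∉ z := fun h2 => h ((List.singleton_sublist.2 h2).cons_cons true)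
      have h2 : z.count true = z.length := by
        rw [List.count_eq_length]
        intro b hb
        cases b
        · exact absurd hb h1
        · rfl
      simp only [lis_true, List.length_cons]
      omega

/-- `PP` is graded: between `x < y` with `rk y ≥ rk x + 2` there is an element of `PP`.
(`idp m < wd l`: if `m < lis l` take `idp (m+1)`; if `m = lis l` take a sorted subword `s` of
length `m` and `u = wd` of `exists_del`: `u` sorted would give `lis u = u.length > m`.) -/
theorem exists_mid {x y : El} (hx : x ∈ PP) (hy : y ∈ PP) (hxy : x < y) (hr : rk x + 2 ≤ rk y) :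
    ∃ z ∈ PP, x < z ∧ z < y := by
  cases x with
  | idp m =>
    cases y with
    | idp n =>
      have h1 : m + 2 ≤ n := hr
      exact ⟨idp (m + 1), idp_mem_PP _, (lt_id_id _ _).2 (by omega), (lt_id_id _ _).2 (by omega)⟩
    | wd l =>
      have h1 : m + 2 ≤ l.length := hr
      have h2 : m ≤ lis l := (lt_id_wd m l).1 hxy
      by_cases h3 : m < lis l
      · exact ⟨idp (m + 1), idp_mem_PP _, (lt_id_id _ _).2 (by omega), (lt_id_wd _ _).2 h3⟩
      · obtain ⟨a, b, hab, hs⟩ := (le_lis_iff m l).1 h2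
        have h4 : (List.replicate a false ++ List.replicate b true).length = m := by
          rw [List.length_append, List.length_replicate, List.length_replicate, hab]
        obtain ⟨u, hu1, hu2, hu3⟩ := exists_del hs (by omega)
        have h5 : Fw u := by
          by_contra h6
          have h7 := GNegA_sorted h6
          have h8 := lis_mono hu2
          omega
        refine ⟨wd u, (wd_mem_PP u).2 h5, (lt_id_wd _ _).2 ?_,
          (lt_wd_wd_len _ _).2 ⟨hu2, by omega⟩⟩
        exact (le_lis_iff m u).2 ⟨a, b, hab, hu1⟩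
  | wd s =>
    cases y with
    | idp n => exact absurd hxy (by simp)
    | wd l =>
      have h1 : s.length + 2 ≤ l.length := hr
      obtain ⟨h2, h3⟩ := (lt_wd_wd_len s l).1 hxy
      obtain ⟨u, hu1, hu2, hu3⟩ := exists_del h2 h3
      have h5 : Fw u := ((wd_mem_PP s).1 hx).trans hu1
      exact ⟨wd u, (wd_mem_PP u).2 h5, (lt_wd_wd_len _ _).2 ⟨hu1, by omega⟩,
        (lt_wd_wd_len _ _).2 ⟨hu2, by omega⟩⟩

/-- two comparable elements between `x` and `y` if `rk y ≥ rk x + 3`. -/
theorem exists_mid2 {x y : El} (hx : x ∈ PP) (hy : y ∈ PP) (hxy : x < y) (hr : rk x + 3 ≤ rk y) :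
    ∃ a ∈ PP, ∃ b ∈ PP, x < a ∧ a < b ∧ b < y := by
  obtain ⟨z, hz, h1, h2⟩ := exists_mid hx hy hxy (by omega)
  have h3 := rk_lt h1 (Or.inr hz)
  have h4 := rk_lt h2 (Or.inr hy)
  by_cases h5 : rk x + 2 ≤ rk z
  · obtain ⟨a, ha, h6, h7⟩ := exists_mid hx hz h1 h5
    exact ⟨a, ha, z, hz, h6, h7, h2⟩
  · obtain ⟨a, ha, h6, h7⟩ := exists_mid hz hy h2 (by omega)
    exact ⟨z, hz, a, ha, h1, h6, h7⟩

end H58
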