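import Pool.Agent.W_58ccg_h2.GDefs
import Pool.Agent.W_58cc_h2.Glue
import Pool.Agent.W_58ccg_h2.GNegA

/-!
# MP_58cc3c_co, general `k`: disconnected intervals in both models
-/

namespace Pool.Agent.W_58cc_h2

/-- lengths are ranks. -/
theorem n_toP {x : El} : (toP x).n = rk x := by
  cases x <;> rfl

theorem GWordB_inv {x y z : FPerm} {b : El} (hb : b ∈ PP) (hy : y = toP b)
    (hz : z ∈ Interior x y) : ∃ c : H58.El, c ∈ H58.PP ∧ toP (cv c) = z := by
  subst hy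
  have h1 : ∃ c ∈ PP, toP c = z := by
    cases b with
    | idp n =>
      have h2 := hz.2.1
      rw [toP_idp, idn_eq n] at h2
      exact exists_of_patLE h2
    | wd l => exact exists_of_patLE hz.2.1
  obtain ⟨c, hc, rfl⟩ := h1
  cases c with
  | idp n => exact ⟨.idp n, H58.idp_mem_PP n, rfl⟩
  | wd l => exact ⟨.wd l, cv_PP.2 hc, rfl⟩

theorem GWordB_mem {x y z : H58.El} (hx : x ∈ H58.PP) (hy : y ∈ H58.PP) (hz : z ∈ H58.PP) :
    toP (cv z) ∈ Interior (toP (cv x)) (toP (cv y)) ↔ z ∈ H58.Op H58.PP x y := by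
  have px := cv_PP.1 hx
  have py := cv_PP.1 hy
  have pz := cv_PP.1 hz
  constructor
  · rintro ⟨h1, h2, h3, h4⟩
    rw [patLE_toP px pz, ← cv_le] at h1
    rw [patLE_toP pz py, ← cv_le] at h2
    exact ⟨hz, lt_of_le_of_ne h1 (fun h => h3 (by rw [h])),
      lt_of_le_of_ne h2 (fun h => h4 (by rw [h]))⟩
  · rintro ⟨-, h1, h2⟩
    refine ⟨?_, ?_, ?_, ?_⟩
    · rw [patLE_toP px pz, ← cv_le]; exact h1.le
    · rw [patLE_toP pz py, ← cv_le]; exact h2.le
    · intro h; exact h1.ne (cv_inj (toP_injOn pz px h)).symm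
    · intro h; exact h2.ne (cv_inj (toP_injOn pz py h))

/-- a disconnected interval below `ofWord w` in the word model. -/
theorem disconnected_iff {x y : H58.El} (hx : x ∈ H58.PP) (hy : y ∈ H58.PP) :
    Disconnected (toP (cv x)) (toP (cv y)) ↔ H58.Disc (H58.Op H58.PP x y) := by
  have px := cv_PP.1 hx
  have py := cv_PP.1 hy
  constructor
  · rintro ⟨C, ⟨a, ha, hCa⟩, ⟨b, hb, hCb⟩, hC⟩
    refine ⟨fun z => C (toP (cv z)), ?_, ?_, ?_⟩
    · obtain ⟨c, hc, rfl⟩ := GWordB_inv py rfl ha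
      exact ⟨c, (GWordB_mem hx hy hc).1 ha, hCa⟩
    · obtain ⟨c, hc, rfl⟩ := GWordB_inv py rfl hb
      exact ⟨c, (GWordB_mem hx hy hc).1 hb, hCb⟩
    · intro z hz z' hz' hlt
      apply hC _ ((GWordB_mem hx hy hz.1).2 hz) _ ((GWordB_mem hx hy hz'.1).2 hz')
      rw [patLE_toP (cv_PP.1 hz.1) (cv_PP.1 hz'.1), ← cv_le]
      exact hlt.le
  · rintro ⟨col, ⟨a, ha, hCa⟩, ⟨b, hb, hCb⟩, hC⟩
    refine ⟨fun z => ∃ c : H58.El, c ∈ H58.PP ∧ toP (cv c) = z ∧ col c, ?_, ?_, ?_⟩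
    · exact ⟨toP (cv a), (GWordB_mem hx hy ha.1).2 ha, a, ha.1, rfl, hCa⟩
    · refine ⟨toP (cv b), (GWordB_mem hx hy hb.1).2 hb, ?_⟩
      rintro ⟨c, hc, h, hcc⟩
      have : c = b := cv_inj (toP_injOn (cv_PP.1 hc) (cv_PP.1 hb.1) h)
      rw [this] at hcc
      exact hCb hcc
    · intro z hz z' hz' hle
      obtain ⟨c, hc, rfl⟩ := GWordB_inv py rfl hz
      obtain ⟨c', hc', rfl⟩ := GWordB_inv py rfl hz'
      have m := (GWordB_mem hx hy hc).1 hz
      have m' := (GWordB_mem hx hy hc').1 hz'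
      have e : ∀ e : H58.El, e ∈ H58.PP →
          ((∃ f : H58.El, f ∈ H58.PP ∧ toP (cv f) = toP (cv e) ∧ col f) ↔ col e) := by
        intro e he
        constructor
        · rintro ⟨f, hf, h, hcf⟩
          have : f = e := cv_inj (toP_injOn (cv_PP.1 hf) (cv_PP.1 he) h)
          rw [← this]; exact hcf
        · intro h; exact ⟨e, he, rfl, h⟩
      refine (e c hc).trans (Iff.trans ?_ (e c' hc').symm)
      rw [patLE_toP (cv_PP.1 hc) (cv_PP.1 hc'), ← cv_le] at hle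
      rcases eq_or_lt_of_le hle with h | h
      · rw [h]
      · exact hC c m c' m' h

end Pool.Agent.W_58cc_h2
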