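import Pool.Agent.W_58ccg_h2.GAll
import Pool.Agent.W_58ccg_h2.GWordA
import Pool.Agent.W_58ccg_h2.GWordB

/-!
# MP_58cc3c_co, general `k`: the final statement
-/

namespace Pool.Agent.W_58cc_h2

theorem GFinal_inv {w : List Bool} {z : FPerm} (hz : PatLE z (ofWord w)) :
    ∃ c : H58.El, c ∈ H58.PP ∧ toP (cv c) = z := by
  obtain ⟨c, hc, rfl⟩ := exists_of_patLE hz
  cases c with
  | idp n => exact ⟨.idp n, H58.idp_mem_PP n, rfl⟩
  | wd l => exact ⟨.wd l, cv_PP.2 hc, rfl⟩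

theorem GFinal_trans {a b c : FPerm} (h1 : PatLE a b) (h2 : PatLE b c) : PatLE a c := by
  obtain ⟨f, hf, hf2⟩ := h1
  obtain ⟨g, hg, hg2⟩ := h2
  exact ⟨g ∘ f, hg.comp hf, fun i j => (hf2 i j).trans (hg2 _ _)⟩

theorem GFinal_n {c : H58.El} : (toP (cv c)).n = H58.rk c := by
  cases c <;> rfl

theorem GFinal_le {x y : H58.El} (hx : x ∈ H58.PP) (hy : y ∈ H58.PP) :
    PatLE (toP (cv x)) (toP (cv y)) ↔ x ≤ y := by
  rw [patLE_toP (cv_PP.1 hx) (cv_PP.1 hy), ← cv_le]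

/-- the condition on disconnected intervals in both models. -/
theorem GFinal_cond {g : H58.El} (hg : g ∈ H58.PP) {w : List Bool} (hw : NS w) :
    (∀ x y : FPerm, PatLE (toP (cv g)) x → PatLE x y → PatLE y (ofWord w) → x.n + 3 ≤ y.n →
      ¬ Disconnected x y) ↔
    ∀ x ∈ H58.PP, ∀ y ∈ H58.PP, g ≤ x → y ≤ H58.El.wd w → x < y → H58.rk x + 3 ≤ H58.rk y →
      ¬ H58.Disc (H58.Op H58.PP x y) := by
  have hwP : H58.El.wd w ∈ H58.PP := (H58.wd_mem_PP w).2 hw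
  constructor
  · intro h x hx y hy hgx hyw hxy hr
    rw [← disconnected_iff hx hy]
    apply h
    · rw [GFinal_le hg hx]; exact hgx
    · rw [GFinal_le hx hy]; exact hxy.le
    · exact (GFinal_le hy hwP).2 hyw
    · rw [GFinal_n, GFinal_n]; exact hr
  · intro h x y hgx hxy hyw hr
    obtain ⟨x', hx', rfl⟩ := GFinal_inv (GFinal_trans hxy hyw)
    obtain ⟨y', hy', rfl⟩ := GFinal_inv hyw
    rw [GFinal_n, GFinal_n] at hr
    rw [disconnected_iff hx' hy']
    have h1 := (GFinal_le hx' hy').1 hxy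
    refine h x' hx' y' hy' ((GFinal_le hg hx').1 hgx) ((GFinal_le hy' hwP).1 hyw) ?_ hr
    refine lt_of_le_of_ne h1 ?_
    rintro rfl
    omega

theorem finalAll : FinalAll := by
  intro s t ht hst
  obtain ⟨w, hw, rfl⟩ := exists_word ht
  obtain ⟨g, hg, rfl⟩ := GFinal_inv hst
  have hwP : H58.El.wd w ∈ H58.PP := (H58.wd_mem_PP w).2 hw
  have hgw : g ≤ .wd w := (GFinal_le hg hwP).1 hst
  rw [GFinal_cond hg hw]
  have hsh : Shellable (Delta (toP (cv g)) (ofWord w)) ↔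
      ∃ d, H58.Sh (· < ·) d (H58.Op H58.PP g (.wd w)) := by
    rw [shellable_iff (cv_PP.1 hg) hw]
    constructor
    · rintro ⟨d, h⟩
      exact ⟨d, (sh_Op_iff g (.wd w)).2 h⟩
    · rintro ⟨d, h⟩
      exact ⟨d, (sh_Op_iff g (.wd w)).1 h⟩
  cases g with
  | idp k =>
    have hk : k ≤ H58.lis w := (H58.le_id_wd k w).1 hgw
    obtain ⟨h1, h2, h3⟩ := H58.all_id w hw k hk
    have h4 : (¬ ∃ (k' : ℕ) (o : FPerm), toP (cv (.idp k)) = idn k' ∧ Obstruction k' o ∧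
        PatLE o (ofWord w)) ↔ H58.Av k w := by
      have h5 := contains_iff (k := k) hw
      unfold H58.Av
      rw [← not_iff_not, not_not, ← h5]
      constructor
      · rintro ⟨k', o, h6, h7, h8⟩
        have h9 : k = k' := congrArg FPerm.n h6
        subst h9
        exact ⟨o, h7, h8⟩
      · rintro ⟨o, h7, h8⟩
        exact ⟨k, o, rfl, h7, h8⟩
    rw [h4, hsh]
    exact ⟨⟨h2, fun h => ⟨_, h1 (h3 h)⟩⟩, ⟨fun h => h3 (h2 h), fun h => ⟨_, h1 h⟩⟩⟩
  | wd u =>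
    have hu : H58.Fw u := (H58.wd_mem_PP u).1 hg
    have h6 : ¬ ∃ (k : ℕ) (o : FPerm), toP (cv (.wd u)) = idn k ∧ Obstruction k o ∧
        PatLE o (ofWord w) := by
      rintro ⟨k, o, h7, -⟩
      exact ofWord_ne_idn hu k h7
    rcases eq_or_lt_of_le hgw with h7 | h7
    · have h8 : Shellable (Delta (toP (cv (.wd u))) (ofWord w)) := by
        have : u = w := H58.El.wd.inj h7
        rw [this]
        exact shellable_self _
      refine ⟨⟨fun _ => ?_, fun _ => h8⟩, ⟨fun _ => h6, fun _ => h8⟩⟩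
      intro x hx y hy hux hyw hxy hr
      exfalso
      rw [← h7] at hyw
      exact absurd (hux.trans_lt (hxy.trans_le hyw)) (lt_irrefl _)
    · obtain ⟨h8, h9⟩ := H58.all_wd u w hu h7
      have h10 := hsh.2 ⟨_, h8⟩
      exact ⟨⟨fun _ => h9, fun _ => h10⟩, ⟨fun _ => h6, fun _ => h10⟩⟩

end Pool.Agent.W_58cc_h2
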