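import Pool.Agent.W_58ccg_h2.GBase

/-!
# General `k`: first letter reduction
-/

namespace H58

open El

/-- **First letter reduction** (lemma L with `A` = words of `P` starting with the first letter `b`
of the top). A word `x` of `P` below the top not starting with `b` is below `h'`, and its only
cover starting with `b` is `b :: x`; so the exchange condition is `hE`. -/
theorem fl_red (P : List Bool → Prop) (b : Bool) (g : El) (h' : List Bool)
    (hR : (∃ s, g = wd s) ∨ ((∀ u, P u → Fw u) ∧ Fw (b :: h')))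
    (hgh : g < wd (b :: h'))
    (hA : ShI (PW (fun u => P u ∧ St b u)) g (wd (b :: h')))
    (hlow : ∀ x, P x → g < wd x → x.Sublist h' → ¬ St b x → ShI (PW P) g (wd x))
    (hup : ∀ x, P x → g < wd x → x.Sublist h' → ¬ St b x →
      ShI (PW (fun u => P u ∧ St b u)) (wd x) (wd (b :: h')))
    (hE : ∀ x, P x → g < wd x → x.Sublist h' → ¬ St b x → ∀ z,
      (z = g ∨ ∃ v, z = wd v ∧ P v) → g ≤ z → z < wd x → rk (wd x) = rk z + 1 →
      ∃ y, P (b :: y) ∧ z < wd (b :: y) ∧ y.Sublist x ∧ y.length + 1 = x.length) :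
    ShI (PW P) g (wd (b :: h')) := by
  have hsub : ∀ u : List Bool, ¬ St b u → ∀ t, u.Sublist (b :: t) → u.Sublist t :=
    fun u hu t h => (Sub_cons fun t' ht' => hu ⟨t', ht'⟩).1 h
  refine sh_up (PW P) (PW (fun u => P u ∧ St b u)) g (wd (b :: h')) hgh ?_ ?_ hA ?_ ?_ ?_
  · rcases hR with h | ⟨h1, h2⟩
    · exact Or.inl h
    · refine Or.inr ⟨?_, (wd_mem_PP _).2 h2⟩
      rintro _ ⟨u, rfl, hu⟩
      exact (wd_mem_PP _).2 (h1 u hu)
  · rintro _ ⟨u, rfl, hu, -⟩
    exact ⟨u, rfl, hu⟩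
  · rintro _ ⟨u, rfl, hu⟩ hgu huh hnA
    have hb : ¬ St b u := fun h => hnA ⟨u, rfl, hu, h⟩
    exact hlow u hu hgu (hsub u hb h' ((lt_wd_wd _ _).1 huh).1) hb
  · rintro _ ⟨u, rfl, hu⟩ hgu huh hnA
    have hb : ¬ St b u := fun h => hnA ⟨u, rfl, hu, h⟩
    exact hup u hu hgu (hsub u hb h' ((lt_wd_wd _ _).1 huh).1) hb
  · rintro _ ⟨u, rfl, hu⟩ hgu huh hnA z a hz hgz hzu hrz ha hua hah hra
    have hb : ¬ St b u := fun h => hnA ⟨u, rfl, hu, h⟩
    have hat : ∃ t, a = wd (b :: t) := by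
      rcases ha with rfl | ⟨v, rfl, _, t, rfl⟩
      · exact ⟨h', rfl⟩
      · exact ⟨t, rfl⟩
    obtain ⟨t, rfl⟩ := hat
    have hut : u = t := by
      refine (hsub u hb t ((lt_wd_wd _ _).1 hua).1).eq_of_length ?_
      simp only [rk_wd, List.length_cons] at hra
      omega
    subst hut
    have hz' : z = g ∨ ∃ v, z = wd v ∧ P v := hz
    obtain ⟨y, hy1, hy2, hy3, hy4⟩ := hE u hu hgu (hsub u hb h' ((lt_wd_wd _ _).1 huh).1) hb z
      hz' hgz hzu hrz
    refine ⟨wd (b :: y), ⟨b :: y, rfl, hy1, y, rfl⟩, hy2, ?_⟩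
    rw [lt_wd_wd_len]
    refine ⟨List.cons_sublist_cons.2 hy3, ?_⟩
    simp only [List.length_cons]
    omega

end H58
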