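import Pool.Agent.W_58ccg_h2.GGood

/-!
# General `k`: goodness lemma
-/

namespace H58

open El

theorem GGoodB_len (l : List Bool) : l.count true + l.count false = l.length := by
  induction l with
  | nil => rfl
  | cons x l ih => cases x <;> simp <;> omega

theorem GGoodB_cut (l : List Bool) :
    ∃ a b, l = a ++ b ∧ lis l = a.count false + b.count true := by
  induction l with
  | nil => exact ⟨[], [], rfl, rfl⟩
  | cons c l ih =>
    obtain ⟨a, b, h1, h2⟩ := ih
    cases c with
    | false =>
      refine ⟨false :: a, b, by rw [h1]; rfl, ?_⟩
      rw [lis_false, h2, List.count_cons_self]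
      omega
    | true =>
      rcases Nat.lt_or_ge (lis l) (l.count true + 1) with h | h
      · refine ⟨[], true :: l, rfl, ?_⟩
        rw [lis_true, List.count_cons_self, max_eq_right h.le]
        simp
      · refine ⟨true :: a, b, by rw [h1]; rfl, ?_⟩
        have h3 : (true :: a).count false = a.count false :=
          List.count_cons_of_ne (by decide)
        rw [lis_true, max_eq_left h, h3, h2]

/-- **goodness lemma**: `1^r 0 u ≤ h` with `n` ones in `1^r 0 u`, `lis (0u) ≥ n`, `r ≥ 2`, `h`
avoids `AvB n`: the path of `1^r 0 u` (up for `1`, down for `0`) returns to 0 somewhere (a cut with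
at least as many zeros before it as ones before it, since `lis (0u) ≥ n` means
`#0 (before) + #1 (after) ≥ n = #1`); the first return cuts a prime Dyck prefix `v` with `m` ones,
followed by `n - m` ones, so `v 1^(n-m) ≤ h` and `m ≤ 2`, i.e. `v = 1100`. -/
theorem good_key (r n : ℕ) (u h : List Bool) (hr : 2 ≤ r) (hh : AvB n h)
    (hsub : (List.replicate r true ++ false :: u).Sublist h) (hc : r + u.count true = n)
    (hl : n ≤ lis (false :: u)) : r = 2 ∧ St false u := by
  obtain ⟨w, hw⟩ : ∃ w, w = List.replicate r true ++ false :: u := ⟨_, rfl⟩
  have hfu : (false :: u).count true = u.count true := List.count_cons_of_ne (by decide)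
  have hwc : w.count true = n := by
    rw [hw, List.count_append, List.count_replicate_self, hfu, hc]
  obtain ⟨a, b, hab, hlis⟩ := GGoodB_cut (false :: u)
  -- a nonempty prefix with at least as many zeros as ones
  have hex : ∃ k, 1 ≤ k ∧ k ≤ w.length ∧ (w.take k).count true ≤ (w.take k).count false := by
    refine ⟨r + a.length, by omega, ?_, ?_⟩
    · rw [hw, List.length_append, List.length_replicate, hab, List.length_append]
      omega
    · have h1 : w.take (r + a.length) = List.replicate r true ++ a := by
        rw [hw, hab, ← List.append_assoc]
        apply List.take_left'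
        simp
      rw [h1, List.count_append, List.count_append, List.count_replicate_self]
      have h2 : (List.replicate r true).count false = 0 := by
        rw [List.count_replicate]
        rfl
      rw [h2]
      have h3 : u.count true = a.count true + b.count true := by
        rw [← hfu, hab, List.count_append]
      omega
  classical
  obtain ⟨k, hk, hmin⟩ : ∃ k, (1 ≤ k ∧ k ≤ w.length ∧
      (w.take k).count true ≤ (w.take k).count false) ∧
      ∀ j, j < k → 1 ≤ j → (w.take j).count false < (w.take j).count true := by
    refine ⟨Nat.find hex, Nat.find_spec hex, fun j hj hj1 => ?_⟩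
    have h1 := Nat.find_min hex hj
    by_contra h2
    exact h1 ⟨hj1, (hj.le.trans (Nat.find_spec hex).2.1), not_lt.1 h2⟩
  obtain ⟨hk1, hk2, hk3⟩ := hk
  -- `k > r`
  have htake : ∀ j, j ≤ r → w.take j = List.replicate j true := by
    intro j hj
    rw [hw, List.take_append_of_le_length (by rw [List.length_replicate]; exact hj),
      List.take_replicate, min_eq_left hj]
  have hkr : r < k := by
    by_contra h1
    rw [htake k (not_lt.1 h1), List.count_replicate_self, List.count_replicate] at hk3
    simp at hk3
    omega
  have hlenk : (w.take k).length = k := by
    rw [List.length_take]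
    exact min_eq_left hk2
  have hlenk1 : (w.take (k - 1)).length = k - 1 := by
    rw [List.length_take]
    exact min_eq_left (by omega)
  have hsubk : ∀ i j, i ≤ j → (w.take i).Sublist (w.take j) := fun i j hij =>
    (List.take_sublist_take_left hij)
  -- the prefix is a prime Dyck word
  have hPD : PD (w.take k) := by
    constructor
    · have h1 := hmin (k - 1) (by omega) (by omega)
      have h2 := GGoodB_len (w.take k)
      have h3 := GGoodB_len (w.take (k - 1))
      have h4 := (hsubk (k - 1) k (by omega)).count_le true
      omega
    · intro a' b' hab' ha' hb'
      have h1 : a'.length < k := by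
        have h2 : (w.take k).length = a'.length + b'.length := by
          rw [hab', List.length_append]
        have h3 : 0 < b'.length := List.length_pos_iff.2 hb'
        omega
      have h4 : a' = w.take a'.length := by
        have h5 : (w.take k).take a'.length = a' := by
          rw [hab']
          exact List.take_left' rfl
        rw [List.take_take, min_eq_left h1.le] at h5
        exact h5.symm
      rw [h4]
      exact hmin _ h1 (List.length_pos_iff.2 ha')
  -- number of ones
  have hm : r ≤ (w.take k).count true := by
    have h1 := (hsubk r k hkr.le).count_le true
    rw [htake r le_rfl, List.count_replicate_self] at h1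
    exact h1
  have hsplit : (w.take k).count true + (w.drop k).count true = n := by
    rw [← List.count_append, List.take_append_drop, hwc]
  have hm3 : (w.take k).count true < 3 := by
    by_contra h1
    refine hh 0 ((w.drop k).count true) (w.take k) hPD (not_lt.1 h1) (by omega) ?_
    rw [List.replicate_zero, List.nil_append]
    have h2 : (List.replicate ((w.drop k).count true) true).Sublist (w.drop k) :=
      List.replicate_sublist_iff.2 le_rfl
    have h3 : (w.take k ++ List.replicate ((w.drop k).count true) true).Sublist
        (w.take k ++ w.drop k) := List.Sublist.append (List.Sublist.refl _) h2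
    rw [List.take_append_drop, hw] at h3
    rw [hw]
    exact h3.trans hsub
  have hr2 : r = 2 := by omega
  have hv := pd_two hPD (by omega)
  have hk4 : k = 4 := by
    rw [← hlenk, hv]
    rfl
  subst hr2 hk4
  refine ⟨rfl, ?_⟩
  rw [hw] at hv
  cases u with
  | nil => simp at hv
  | cons c t =>
    simp at hv
    exact (St_cons false c t).2 hv

end H58
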