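import Pool.Agent.W_58ccg_h2.GV
import Pool.Agent.W_58ccg_h2.GLeadB

/-!
# General `k`: reduction of the number of leading letters, up version
-/

namespace H58

open El

private theorem GLU_sub (b : Bool) (s : ℕ) (u v : List Bool) (h : u.Sublist v) :
    (List.replicate s b ++ (!b) :: u).Sublist (List.replicate s b ++ (!b) :: v) :=
  List.Sublist.append (List.Sublist.refl _) (h.cons_cons _)

private theorem GLU_ins (b : Bool) (s m : ℕ) (x : List Bool) (hs : s ≤ m) :
    (List.replicate m b ++ x).Sublist
      (List.replicate s b ++ (!b) :: (List.replicate (m - s) b ++ x)) := by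
  have h1 : List.replicate m b ++ x = List.replicate s b ++ (List.replicate (m - s) b ++ x) := by
    rw [← List.append_assoc, List.replicate_append_replicate, Nat.add_sub_cancel' hs]
  rw [h1]
  exact List.Sublist.append (List.Sublist.refl _) (List.Sublist.cons _ (List.Sublist.refl _))

private theorem GLU_lead (b : Bool) (s : ℕ) (u : List Bool) :
    lead b (List.replicate s b ++ (!b) :: u) = s := lead_rep' b s u

/-- **lead_up**: `U` is upward closed, the top `h` has `r` leading letters `b`, `r < lam`. Remove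
the words with more than `r` leading `b` by `sh_up`, `A` = at most `r` leading `b`. For
`x = b^(r+1) x'` the covers in `A ∪ {h}` are `b^s (!b) b^(r+1-s) x'`, `s ≤ r` (`cover_form`);
`z = b^(r+1) z'`: `y = b^s (!b) b^(r+1-s) z'`; `z = b^r x'`: `y = b^s (!b) b^(r-s) x'`
(`pred_form`); `z = g`: `hbot`. Upper part: `U` is automatic above `x`, `vshI`. -/
theorem lead_up (U : List Bool → Prop) (hU : ∀ u v, U u → u.Sublist v → U v) (b : Bool) (g : El)
    (h : List Bool) (r lam : ℕ) (hr : lead b h = r) (hrl : r < lam)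
    (hR : (∃ s, g = wd s) ∨ ((∀ u, U u → Fw u) ∧ Fw h)) (hgh : g < wd h)
    (hA : ShI (PW (fun u => U u ∧ lead b u ≤ r)) g (wd h))
    (hlow : ∀ x, U x → r < lead b x → lead b x ≤ lam → g < wd x → wd x < wd h →
      ShI (PW (fun u => U u ∧ lead b u ≤ lam)) g (wd x))
    (hbot : ∀ x, U x → r < lead b x → g < wd x → wd x < wd h → rk (wd x) = rk g + 1 →
      ∀ s ≤ r, ∃ y, U y ∧ lead b y ≤ r ∧ g < wd y ∧
        wd y < wd (List.replicate s b ++ (!b) :: x.drop s)) :
    ShI (PW (fun u => U u ∧ lead b u ≤ lam)) g (wd h) := by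
  have hword : ∀ u, lead b u ≤ lam → U u → wd u ∉ PW (fun u => U u ∧ lead b u ≤ r) →
      r < lead b u := by
    intro u _ hu h3
    by_contra h4
    exact h3 ⟨u, rfl, hu, not_lt.1 h4⟩
  refine sh_up (PW (fun u => U u ∧ lead b u ≤ lam)) (PW (fun u => U u ∧ lead b u ≤ r)) g (wd h)
    hgh ?_ ?_ hA ?_ ?_ ?_
  · rcases hR with hR | ⟨hR1, hR2⟩
    · exact Or.inl hR
    · refine Or.inr ⟨?_, (wd_mem_PP h).2 hR2⟩
      rintro _ ⟨u, rfl, hu, _⟩
      exact (wd_mem_PP u).2 (hR1 u hu)
  · rintro _ ⟨u, rfl, hu, hl⟩
    exact ⟨u, rfl, hu, hl.trans hrl.le⟩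
  · rintro _ ⟨u, rfl, hu, hl⟩ h1 h2 h3
    exact hlow u hu (hword u hl hu h3) hl h1 h2
  · rintro _ ⟨u, rfl, hu, hl⟩ h1 h2 h3
    refine shI_congr ?_ (vshI b r u h h2 hr.le)
    intro v hv1 hv2
    have h5 : U v := hU u v hu ((lt_wd_wd u v).1 hv1).1
    exact ⟨fun h6 => ⟨h5, h6⟩, fun h6 => h6.2⟩
  · rintro _ ⟨u, rfl, hu, hl⟩ h1 h2 h3 z a hz hgz hzx hrz ha hxa hah hra
    have hr' : r < lead b u := hword u hl hu h3
    obtain ⟨w, rfl, hw⟩ : ∃ w, a = wd w ∧ lead b w ≤ r := by
      rcases ha with rfl | ⟨w, rfl, _, hw⟩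
      · exact ⟨h, rfl, hr.le⟩
      · exact ⟨w, rfl, hw⟩
    obtain ⟨x', hx'⟩ : ∃ x', u = List.replicate (r + 1) b ++ x' := by
      obtain ⟨t, ht, _⟩ := lead_decomp b u
      refine ⟨List.replicate (lead b u - (r + 1)) b ++ t, ?_⟩
      rw [← List.append_assoc, List.replicate_append_replicate, Nat.add_sub_cancel' hr']
      exact ht
    have hlen : u.length = r + 1 + x'.length := by
      rw [hx', List.length_append, List.length_replicate]
    have hwlen : w.length = r + 1 + x'.length + 1 := by
      simp only [rk_wd] at hra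
      omega
    have hsub : (List.replicate (r + 1) b ++ x').Sublist w := by
      rw [← hx']
      exact ((lt_wd_wd u w).1 hxa).1
    have hwf := cover_form b (r + 1) x' w hsub hwlen (by omega)
    obtain ⟨s, hs⟩ : ∃ s, lead b w = s := ⟨_, rfl⟩
    rw [hs] at hwf hw
    rcases hz with rfl | ⟨v, rfl, hv, hvl⟩
    · obtain ⟨y, hy1, hy2, hy3, hy4⟩ := hbot u hu hr' h1 h2 hrz s hw
      refine ⟨wd y, ⟨y, rfl, hy1, hy2⟩, hy3, ?_⟩
      have hd : u.drop s = List.replicate (r + 1 - s) b ++ x' := by
        rw [hx', List.drop_append_of_le_length (by rw [List.length_replicate]; omega),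
          List.drop_replicate]
      rw [hd] at hy4
      rw [hwf]
      exact hy4
    · simp only [rk_wd] at hrz
      have hvs : v.Sublist (List.replicate (r + 1) b ++ x') := by
        rw [← hx']
        exact ((lt_wd_wd v u).1 hzx).1
      rcases pred_form b r x' v hvs (by omega) with hv1 | ⟨z', hv1, hz1, hz2⟩
      · have e1 := GLU_ins b s r x' hw
        refine ⟨wd (List.replicate s b ++ (!b) :: (List.replicate (r - s) b ++ x')),
          ⟨_, rfl, hU v _ hv (by rw [hv1]; exact e1), ?_⟩, ?_, ?_⟩
        · rw [GLU_lead]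
          exact hw
        · rw [lt_wd_wd_len, hv1]
          refine ⟨e1, ?_⟩
          simp only [List.length_append, List.length_replicate, List.length_cons]
          omega
        · rw [hwf, lt_wd_wd_len]
          refine ⟨GLU_sub b s _ _ (List.Sublist.append ?_ (List.Sublist.refl _)), ?_⟩
          · exact List.replicate_sublist_replicate b |>.2 (by omega)
          · simp only [List.length_append, List.length_replicate, List.length_cons]
            omega
      · have e1 := GLU_ins b s (r + 1) z' (by omega)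
        refine ⟨wd (List.replicate s b ++ (!b) :: (List.replicate (r + 1 - s) b ++ z')),
          ⟨_, rfl, hU v _ hv (by rw [hv1]; exact e1), ?_⟩, ?_, ?_⟩
        · rw [GLU_lead]
          exact hw
        · rw [lt_wd_wd_len, hv1]
          refine ⟨e1, ?_⟩
          simp only [List.length_append, List.length_replicate, List.length_cons]
          omega
        · rw [hwf, lt_wd_wd_len]
          refine ⟨GLU_sub b s _ _ (List.Sublist.append (List.Sublist.refl _) hz1), ?_⟩
          simp only [List.length_append, List.length_replicate, List.length_cons]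
          omega

end H58
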