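import Pool.Agent.W_58ccg_h2.GBase

/-!
# General `k`: leading letters
-/

namespace H58

open El

/-- number of leading letters `b`. -/
def lead (b : Bool) : List Bool → ℕ
  | [] => 0
  | c :: l => if c = b then lead b l + 1 else 0

theorem lead_le_length (b : Bool) (l : List Bool) : lead b l ≤ l.length := by
  induction l with
  | nil => simp [lead]
  | cons c l ih =>
    unfold lead
    split_ifs
    · simpa using ih
    · exact Nat.zero_le _

theorem lead_decomp (b : Bool) (l : List Bool) :
    ∃ t, l = List.replicate (lead b l) b ++ t ∧ ¬ St b t := by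
  induction l with
  | nil => exact ⟨[], by simp [lead], by simp⟩
  | cons c l ih =>
    unfold lead
    split_ifs with h
    · subst h
      obtain ⟨t, h1, h2⟩ := ih
      refine ⟨t, ?_, h2⟩
      rw [List.replicate_succ, List.cons_append, ← h1]
    · exact ⟨c :: l, by simp, by rw [St_cons]; exact h⟩

/-- a word containing `!b` is `b^s (!b) t`. -/
theorem lead_decomp' (b : Bool) (l : List Bool) (h : (!b) ∈ l) :
    ∃ t, l = List.replicate (lead b l) b ++ (!b) :: t := by
  induction l with
  | nil => simp at h
  | cons c l ih =>
    unfold lead
    split_ifs with h1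
    · subst h1
      have h2 : (!c) ∈ l := by
        rcases List.mem_cons.1 h with h3 | h3
        · cases c <;> simp at h3
        · exact h3
      obtain ⟨t, h3⟩ := ih h2
      refine ⟨t, ?_⟩
      rw [List.replicate_succ, List.cons_append, ← h3]
    · have h2 : c = !b := by cases b <;> cases c <;> simp_all
      exact ⟨l, by rw [h2]; simp⟩

theorem lead_rep (b : Bool) (r : ℕ) (t : List Bool) (ht : ¬ St b t) :
    lead b (List.replicate r b ++ t) = r := by
  induction r with
  | zero =>
    cases t with
    | nil => simp [lead]
    | cons c t =>
      rw [St_cons] at ht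
      simp [lead, ht]
  | succ r ih =>
    rw [List.replicate_succ, List.cons_append]
    unfold lead
    rw [if_pos rfl, ih]

@[simp] theorem lead_rep' (b : Bool) (r : ℕ) (t : List Bool) :
    lead b (List.replicate r b ++ (!b) :: t) = r := by
  apply lead_rep
  rw [St_cons]
  cases b <;> simp

theorem lead_eq_zero (b : Bool) (l : List Bool) : lead b l = 0 ↔ ¬ St b l := by
  cases l with
  | nil => simp [lead]
  | cons c t =>
    rw [St_cons]
    unfold lead
    split_ifs with h
    · simp [h]
    · simp [h]

/-- `b^p x ≤ b^s (!b) u` with `s < p` means `b^(p-s) x ≤ u`. -/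
theorem rep_sub (b : Bool) (p s : ℕ) (x u : List Bool) (hsp : s < p)
    (h : (List.replicate p b ++ x).Sublist (List.replicate s b ++ (!b) :: u)) :
    (List.replicate (p - s) b ++ x).Sublist u := by
  induction s generalizing p with
  | zero =>
    obtain ⟨p, rfl⟩ : ∃ q, p = q + 1 := ⟨p - 1, by omega⟩
    rw [List.replicate_succ, List.cons_append] at h
    rw [Nat.sub_zero, List.replicate_succ, List.cons_append]
    simp only [List.replicate_zero, List.nil_append] at h
    rcases List.cons_sublist_cons'.1 h with h | h
    · exact h
    · have h1 := h.1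
      cases b <;> simp at h1
  | succ s ih =>
    obtain ⟨p, rfl⟩ : ∃ q, p = q + 1 := ⟨p - 1, by omega⟩
    rw [List.replicate_succ, List.cons_append, List.replicate_succ, List.cons_append,
      List.cons_sublist_cons] at h
    rw [Nat.add_sub_add_right]
    exact ih p (by omega) h

end H58
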