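import Pool.Agent.W_58ccg_h2.GXm

/-!
# General `k`, family (M)
-/

namespace H58

open El

/-- `u = 1^j 0 t` with as many ones in `t` as in `y`. -/
def MEx (j : ℕ) (y u : List Bool) : Prop :=
  ∃ t, u = List.replicate j true ++ false :: t ∧ t.count true = y.count true

theorem GM_lead_true (u : List Bool) : lead true (true :: u) = lead true u + 1 := by
  simp [lead]

theorem GM_lead_false (u : List Bool) : lead true (false :: u) = 0 := by
  simp [lead]

theorem GM_ex_true (j : ℕ) (y u : List Bool) : MEx (j + 1) y (true :: u) ↔ MEx j y u := by
  unfold MEx
  simp [List.replicate_succ]

theorem GM_ex_false (j : ℕ) (y u : List Bool) : ¬ MEx (j + 1) y (false :: u) := by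
  unfold MEx
  simp [List.replicate_succ]

theorem GM_ex_zero (y u : List Bool) : MEx 0 y (false :: u) ↔ u.count true = y.count true := by
  unfold MEx
  constructor
  · rintro ⟨t, h, ht⟩
    simp only [List.replicate_zero, List.nil_append, List.cons.injEq, true_and] at h
    rw [h, ht]
  · intro h
    exact ⟨u, rfl, h⟩

theorem GM_f {b : Bool} {s l : List Bool} (h : (b :: s).Sublist ((!b) :: l)) :
    (b :: s).Sublist l := by
  rcases List.sublist_cons_iff.1 h with h | ⟨r, hr, _⟩
  · exact h
  · simp at hr

theorem GM_count (j : ℕ) (y : List Bool) :
    (List.replicate j true ++ false :: y).count true = j + y.count true := by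
  simp

/-- **(M)** bottom `1^j 0 y`, at most `j` leading ones, the words `1^j 0 t` with the same number of
ones are forbidden. Induction on `h.length` (all `j`). `j = 0`: `0 X(y, h2)` (`x_all`, `strip`).
`j ≥ 1`, `h = 0h'`: `fl_red`, `y := z`. `h = 1h1`: `fl_red` with letter `1`; `z` starting with `0`:
`y := z`; `z = 1z1`, `x = 01z1`: `y := 0z1` (word `10z1`) if it is allowed (`j ≥ 2`, or `z` itself
allowed), and if `j = 1`, `z = 10y`: `y := 01y` (the word `101y`). `A` part: `strip` and induction
with `j - 1`. Upper part of `x = 0t`: nothing is forbidden above it: `strip_half`, `vHP` with
`j - 1`. -/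
theorem mshI (j : ℕ) (y h : List Bool)
    (hgh : wd (List.replicate j true ++ false :: y) < wd h) (hl : lead true h ≤ j)
    (hex : ¬ MEx j y h) :
    ShI (PW (fun u => lead true u ≤ j ∧ ¬ MEx j y u))
      (wd (List.replicate j true ++ false :: y)) (wd h) := by
  induction hn : h.length using Nat.strong_induction_on generalizing j y h with
  | _ n ih =>
    have hlen := ((lt_wd_wd_len _ _).1 hgh).2
    have hsub := ((lt_wd_wd _ _).1 hgh).1
    cases j with
    | zero =>
      simp only [List.replicate_zero, List.nil_append] at hgh hlen hsub ⊢
      match h, hgh, hl, hex, hn, hlen, hsub with
      | [], _, _, _, _, hlen, _ => simp at hlen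
      | true :: h1, _, hl, _, _, _, _ =>
        rw [GM_lead_true] at hl
        omega
      | false :: h2, hgh, _, hex, _, _, hsub =>
        rw [GM_ex_zero] at hex
        have h1 : y.Sublist h2 := List.cons_sublist_cons.1 hsub
        have h2' := h1.count_le true
        have h3 : wd y < wd h2 := by
          rw [lt_wd_wd] at hgh ⊢
          exact ⟨h1, fun he => hgh.2 (by rw [he])⟩
        have h4 := (x_all h2 y h3 (by omega)).1
        have h5 := strip (fun u => lead true u ≤ 0 ∧ ¬ MEx 0 y u) false y h2
          (shI_congr (by
            intro u hu _
            have h6 := ((lt_wd_wd _ _).1 hu).1.count_le true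
            rw [GM_lead_false, GM_ex_zero]
            constructor
            · intro h7
              exact ⟨le_rfl, by omega⟩
            · rintro ⟨_, h7⟩
              omega) h4)
        refine shI_congr ?_ h5
        intro u hu _
        constructor
        · exact fun h6 => h6.1
        · intro h6
          refine ⟨h6, ?_⟩
          match u, hu, h6 with
          | [], hu, _ =>
            have := ((lt_wd_wd_len _ _).1 hu).2
            simp at this
          | false :: u, _, _ => exact ⟨u, rfl⟩
          | true :: u, _, h6 =>
            have h7 := h6.1
            rw [GM_lead_true] at h7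
            omega
    | succ j =>
      have hg : List.replicate (j + 1) true ++ false :: y =
          true :: (List.replicate j true ++ false :: y) := by
        rw [List.replicate_succ, List.cons_append]
      have hgc := GM_count (j + 1) y
      match h, hgh, hl, hex, hn, hlen, hsub with
      | [], _, _, _, _, hlen, _ => simp at hlen
      | false :: h', hgh, _, _, hn, _, hsub =>
        have hP0 : ∀ u : List Bool, lead true (false :: u) ≤ j + 1 ∧
            ¬ MEx (j + 1) y (false :: u) := by
          intro u
          rw [GM_lead_false]
          exact ⟨Nat.zero_le _, GM_ex_false j y u⟩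
        have hgh' : (List.replicate (j + 1) true ++ false :: y).Sublist h' := by
          rw [hg] at hsub ⊢
          exact GM_f (b := true) hsub
        refine fl_red (fun u => lead true u ≤ j + 1 ∧ ¬ MEx (j + 1) y u) false _ h'
          (Or.inl ⟨_, rfl⟩) hgh ?_ ?_ ?_ ?_
        · refine upper_all _ false _ h' ?_ hgh' fun u _ _ => hP0 u
          rw [hg, St_cons]
          simp
        · intro x hPx hgx hxh _
          have h1 := hxh.length_le
          refine ih x.length ?_ (j + 1) y x hgx hPx.1 hPx.2 rfl
          rw [← hn, List.length_cons]
          omega
        · intro x _ _ hxh hx
          exact upper_all _ false x h' hx hxh fun u _ _ => hP0 u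
        · intro x hPx hgx hxh hx z hz hgz hzx hrz
          obtain ⟨v, rfl⟩ : ∃ v, z = wd v := by
            rcases hz with hz | ⟨v, hz, _⟩
            · exact ⟨_, hz⟩
            · exact ⟨v, hz⟩
          refine ⟨v, hP0 v, ?_, hzx.le, ?_⟩
          · rw [lt_wd_wd_len]
            exact ⟨List.sublist_cons_self _ _, by simp⟩
          · simp only [rk_wd] at hrz
            omega
      | true :: h1, hgh, hl, hex, hn, _, hsub =>
        rw [GM_lead_true] at hl
        rw [GM_ex_true] at hex
        have hP1 : ∀ u : List Bool, (lead true (true :: u) ≤ j + 1 ∧
            ¬ MEx (j + 1) y (true :: u)) ↔ (lead true u ≤ j ∧ ¬ MEx j y u) := by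
          intro u
          rw [GM_lead_true, GM_ex_true]
          constructor
          · rintro ⟨h3, h4⟩
            exact ⟨by omega, h4⟩
          · rintro ⟨h3, h4⟩
            exact ⟨by omega, h4⟩
        have hx0 : ∀ x : List Bool, wd (List.replicate (j + 1) true ++ false :: y) < wd x →
            ¬ St true x → ∃ t, x = false :: t ∧
              (List.replicate (j + 1) true ++ false :: y).Sublist t := by
          intro x hgx hx
          match x, hgx, hx with
          | [], hgx, _ =>
            have := ((lt_wd_wd_len _ _).1 hgx).2
            simp at this
          | true :: t, _, hx => exact absurd ⟨t, rfl⟩ hx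
          | false :: t, hgx, _ =>
            refine ⟨t, rfl, ?_⟩
            have h3 := ((lt_wd_wd _ _).1 hgx).1
            rw [hg] at h3 ⊢
            exact GM_f (b := true) h3
        refine fl_red (fun u => lead true u ≤ j + 1 ∧ ¬ MEx (j + 1) y u) true _ h1
          (Or.inl ⟨_, rfl⟩) hgh ?_ ?_ ?_ ?_
        · rw [hg] at hgh ⊢
          apply strip
          have h3 : wd (List.replicate j true ++ false :: y) < wd h1 := by
            rw [lt_wd_wd] at hgh ⊢
            exact ⟨List.cons_sublist_cons.1 hgh.1, fun he => hgh.2 (by rw [he])⟩
          refine shI_congr ?_ (ih h1.length ?_ j y h1 h3 (by omega) hex rfl)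
          · intro u _ _
            exact (hP1 u).symm
          · rw [← hn, List.length_cons]
            omega
        · intro x hPx hgx hxh _
          have h3 := hxh.length_le
          refine ih x.length ?_ (j + 1) y x hgx hPx.1 hPx.2 rfl
          rw [← hn, List.length_cons]
          omega
        · intro x _ hgx hxh hx
          apply strip_half _ true x h1 hx
          obtain ⟨t, ht, hgt⟩ := hx0 x hgx hx
          have hlx : lead true x = 0 := (lead_eq_zero true x).2 hx
          have h3 := vHP true j x h1 hxh (by omega) (by omega)
          rw [HP_congr (P' := fun u => lead true (true :: u) ≤ j + 1 ∧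
            ¬ MEx (j + 1) y (true :: u))] at h3
          · exact h3
          · intro u hxu _ _
            rw [hP1 u]
            constructor
            · intro h4
              refine ⟨h4, ?_⟩
              rintro ⟨s, hs1, hs2⟩
              have h5 := hxu.count_le true
              have h6 := hgt.count_le true
              have h7 := GM_count j s
              rw [ht] at h5
              rw [hgc] at h6
              rw [← hs1] at h7
              simp only [List.count_cons] at h5
              simp at h5
              omega
            · exact fun h4 => h4.1
        · intro x hPx hgx hxh hx z hz hgz hzx hrz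
          obtain ⟨t, rfl, hgt⟩ := hx0 x hgx hx
          have hz2 : ∃ v, z = wd v ∧ (v = List.replicate (j + 1) true ++ false :: y ∨
              (lead true v ≤ j + 1 ∧ ¬ MEx (j + 1) y v)) := by
            rcases hz with hz | ⟨v, hz, hv⟩
            · exact ⟨_, hz, Or.inl rfl⟩
            · exact ⟨v, hz, Or.inr hv⟩
          obtain ⟨v, rfl, hv⟩ := hz2
          simp only [rk_wd, List.length_cons] at hrz
          have hgv : (List.replicate (j + 1) true ++ false :: y).Sublist v := hgz
          have hvx : v.Sublist (false :: t) := hzx.le
          have hgvc := hgv.count_le true
          rw [hgc] at hgvc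
          match v, hv, hgv, hvx, hgvc, hrz with
          | [], _, hgv, _, _, _ => simp at hgv
          | false :: v', _, _, hvx, hgvc, hrz =>
            refine ⟨false :: v', ?_, ?_, hvx, ?_⟩
            · rw [hP1]
              refine ⟨by rw [GM_lead_false]; exact Nat.zero_le _, ?_⟩
              rintro ⟨s, hs1, hs2⟩
              have h7 := GM_count j s
              rw [← hs1] at h7
              omega
            · rw [lt_wd_wd_len]
              exact ⟨List.sublist_cons_self _ _, by simp⟩
            · simp only [List.length_cons] at hrz ⊢
              omega
          | true :: v1, hv, hgv, hvx, hgvc, hrz =>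
            have h3 : (true :: v1).Sublist t := GM_f (b := true) hvx
            have h4 : true :: v1 = t := h3.eq_of_length (by omega)
            subst h4
            by_cases hok : MEx j y (false :: v1)
            · cases j with
              | succ i => exact absurd hok (GM_ex_false i y v1)
              | zero =>
                rw [GM_ex_zero] at hok
                rcases hv with hv | hv
                · have h5 : v1 = false :: y := by simpa using hv
                  subst h5
                  refine ⟨false :: true :: y, ?_, ?_, ?_, ?_⟩
                  · rw [hP1, GM_lead_false, GM_ex_zero]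
                    simp
                  · rw [lt_wd_wd_len]
                    exact ⟨((List.sublist_cons_self _ _).cons_cons _).cons_cons _, by simp⟩
                  · exact ((List.sublist_cons_self _ _).cons_cons _).cons_cons _
                  · simp
                · exfalso
                  rw [hP1] at hv
                  match v1, hv, hok, hgv with
                  | [], _, _, hgv =>
                    have := hgv.length_le
                    simp at this
                  | true :: v2, hv, _, _ =>
                    have := hv.1
                    rw [GM_lead_true] at this
                    omega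
                  | false :: v2, hv, hok, _ =>
                    apply hv.2
                    rw [GM_ex_zero]
                    simpa using hok
            · refine ⟨false :: v1, ?_, ?_, ?_, ?_⟩
              · rw [hP1, GM_lead_false]
                exact ⟨Nat.zero_le _, hok⟩
              · rw [lt_wd_wd_len]
                exact ⟨(List.sublist_cons_self _ _).cons_cons _, by simp⟩
              · exact (List.sublist_cons_self _ _).cons_cons _
              · simp

end H58
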