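import Pool.Agent.W_58ccg_h2.GXm

/-!
# General `k`, families (M') and (M'')
-/

namespace H58

open El

/-- `u = 1^j 0 1 t` with as many ones in `1t` as in `y`. -/
def MEx2 (j : ℕ) (y u : List Bool) : Prop :=
  ∃ t, u = List.replicate j true ++ false :: true :: t ∧ (true :: t).count true = y.count true

theorem GMb_ne_nil {b : Bool} {s x : List Bool} (h : (b :: s).Sublist x) : x ≠ [] := by
  rintro rfl
  simp at h

/-- above a word starting with `b`, a word is `b :: t` or `(!b) :: t`. -/
theorem GMb_head {b : Bool} {x : List Bool} (hne : x ≠ []) (hx : ¬ St b x) :
    ∃ t, x = (!b) :: t := by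
  cases x with
  | nil => exact absurd rfl hne
  | cons c t =>
    rw [St_cons] at hx
    refine ⟨t, ?_⟩
    cases b <;> cases c <;> simp_all

/-- **(M'')** bottom `1y1`: words starting with `1` and having the same number of ones are
forbidden. `h = 0h'`: `fl_red`, `y := z`. `h = 1h1`: `fl_red`: `z` starting with `0`: `y := z`;
`z = 1z1`: `y := 1z1` (word `11z1`). `A` part: `strip` + `(x_all ..).1` for `y1`, `h1`. -/
theorem m0shI (y1 h : List Bool) (hgh : wd (true :: y1) < wd h)
    (hex : ¬ (St true h ∧ h.count true = (true :: y1).count true)) :
    ShI (PW (fun u => ¬ (St true u ∧ u.count true = (true :: y1).count true)))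
      (wd (true :: y1)) (wd h) := by
  induction hn : h.length using Nat.strong_induction_on generalizing h with
  | _ n ih =>
    have hge := ((lt_wd_wd _ _).1 hgh).1
    cases h with
    | nil => exact absurd rfl (GMb_ne_nil hge)
    | cons c h' =>
      have hlen : h'.length < n := by rw [← hn, List.length_cons]; exact Nat.lt_succ_self _
      have hlow : ∀ x : List Bool, ¬ (St true x ∧ x.count true = (true :: y1).count true) →
          wd (true :: y1) < wd x → x.Sublist h' →
          ShI (PW (fun u => ¬ (St true u ∧ u.count true = (true :: y1).count true)))
            (wd (true :: y1)) (wd x) := by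
        intro x hx hgx hxh
        exact ih x.length (lt_of_le_of_lt hxh.length_le hlen) x hgx hx rfl
      cases c with
      | false =>
        have hall : ∀ u : List Bool, ¬ (St true (false :: u) ∧
            (false :: u).count true = (true :: y1).count true) := by
          rintro u ⟨⟨t, ht⟩, -⟩
          simp at ht
        refine fl_red _ false _ h' (Or.inl ⟨_, rfl⟩) hgh ?_ ?_ ?_ ?_
        · exact upper_all _ false _ h' (by simp) (Red0_f (b := true) hge) (fun u _ _ => hall u)
        · intro x hx hgx hxh _
          exact hlow x hx hgx hxh
        · intro x hx hgx hxh hxs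
          exact upper_all _ false _ h' hxs hxh (fun u _ _ => hall u)
        · intro x hx hgx hxh hxs z hz hgz hzx hrk
          obtain ⟨v, rfl⟩ : ∃ v, z = wd v := by
            rcases hz with rfl | ⟨v, rfl, -⟩
            · exact ⟨_, rfl⟩
            · exact ⟨v, rfl⟩
          refine ⟨v, hall v, ?_, ((lt_wd_wd _ _).1 hzx).1, ?_⟩
          · rw [lt_wd_wd_len]
            exact ⟨List.sublist_cons_self _ _, by simp⟩
          · simp only [rk_wd] at hrk
            omega
      | true =>
        have hge' : y1.Sublist h' := List.cons_sublist_cons.1 hge
        have hcnt : y1.count true < h'.count true := by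
          have h1 := hge'.count_le true
          rcases h1.lt_or_eq with h2 | h2
          · exact h2
          · exact absurd ⟨⟨h', rfl⟩, by simp [h2]⟩ hex
        have hlt : wd y1 < wd h' := by
          rw [lt_wd_wd]
          refine ⟨hge', ?_⟩
          rintro rfl
          exact lt_irrefl _ hcnt
        have hall : ∀ x u : List Bool, (true :: y1).Sublist x → x.Sublist u →
            ¬ (St true (true :: u) ∧ (true :: u).count true = (true :: y1).count true) := by
          rintro x u h1 h2 ⟨-, h3⟩
          have h4 := (h1.trans h2).count_le true
          simp only [List.count_cons_self] at h3 h4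
          omega
        refine fl_red _ true _ h' (Or.inl ⟨_, rfl⟩) hgh ?_ ?_ ?_ ?_
        · refine strip _ true y1 h' ?_
          refine shI_congr ?_ (x_all h' y1 hlt hcnt).1
          intro u h1 _
          have h2 := ((lt_wd_wd _ _).1 h1).1.count_le true
          constructor
          · rintro h3 ⟨-, h4⟩
            simp only [List.count_cons_self] at h4
            omega
          · intro h3
            rcases h2.lt_or_eq with h4 | h4
            · exact h4
            · exact absurd ⟨⟨u, rfl⟩, by simp [h4]⟩ h3
        · intro x hx hgx hxh _
          exact hlow x hx hgx hxh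
        · intro x hx hgx hxh hxs
          exact upper_all _ true _ h' hxs hxh
            (fun u h1 _ => hall x u ((lt_wd_wd _ _).1 hgx).1 h1)
        · intro x hx hgx hxh hxs z hz hgz hzx hrk
          obtain ⟨v, rfl⟩ : ∃ v, z = wd v := by
            rcases hz with rfl | ⟨v, rfl, -⟩
            · exact ⟨_, rfl⟩
            · exact ⟨v, rfl⟩
          refine ⟨v, hall v v ((le_wd_wd _ _).1 hgz) (List.Sublist.refl v), ?_,
            ((lt_wd_wd _ _).1 hzx).1, ?_⟩
          · rw [lt_wd_wd_len]
            exact ⟨List.sublist_cons_self _ _, by simp⟩
          · simp only [rk_wd] at hrk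
            omega

theorem GMb_MEx2_cons (j : ℕ) (y u : List Bool) : MEx2 (j + 1) y (true :: u) ↔ MEx2 j y u := by
  constructor
  · rintro ⟨t, ht, hc⟩
    refine ⟨t, ?_, hc⟩
    rw [List.replicate_succ, List.cons_append] at ht
    exact (List.cons.inj ht).2
  · rintro ⟨t, ht, hc⟩
    exact ⟨t, by rw [ht, List.replicate_succ, List.cons_append], hc⟩

theorem GMb_MEx2_false (j : ℕ) (y u : List Bool) : ¬ MEx2 (j + 1) y (false :: u) := by
  rintro ⟨t, ht, -⟩
  rw [List.replicate_succ, List.cons_append] at ht
  exact absurd (List.cons.inj ht).1 (by simp)

theorem GMb_lead_false (u : List Bool) : lead true (false :: u) = 0 := by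
  simp [lead]

theorem GMb_lead_true (u : List Bool) : lead true (true :: u) = lead true u + 1 := by
  simp [lead]

/-- if `u = 1^j 0 1 t` is above `0 x'` and `x'` above `1^(j+1) 0 1 y1` then `1t` has more ones
than `1y1`. -/
theorem GMb_key (j : ℕ) (y1 x' u : List Bool)
    (h1 : (List.replicate (j + 1) true ++ false :: true :: y1).Sublist x')
    (h2 : (false :: x').Sublist u) : ¬ MEx2 j (true :: y1) u := by
  rintro ⟨t, rfl, hc⟩
  have h3 : ∀ j : ℕ, (false :: x').Sublist (List.replicate j true ++ false :: true :: t) →
      (false :: x').Sublist (false :: true :: t) := by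
    intro j
    induction j with
    | zero => exact fun h => h
    | succ j ih =>
      intro h
      rw [List.replicate_succ, List.cons_append] at h
      exact ih (Red0_f (b := false) h)
  have h4 := List.cons_sublist_cons.1 (h3 j h2)
  have h5 := (h1.trans h4).count_le true
  simp only [List.count_append, List.count_replicate_self, List.count_cons_self] at h5 hc
  rw [List.count_cons_of_ne (by simp)] at h5
  simp only [List.count_cons_self] at h5
  omega

/-- **(M')** bottom `1^j 0 1 y1`, at most `j` leading ones, the words `1^j 0 1 t` with the same
number of ones are forbidden. As `mshI`; `j = 0`: `strip` + `m0shI`; `z = 1z1`: `y := 0z1`. -/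
theorem mshI2 (j : ℕ) (y1 h : List Bool)
    (hgh : wd (List.replicate j true ++ false :: true :: y1) < wd h) (hl : lead true h ≤ j)
    (hex : ¬ MEx2 j (true :: y1) h) :
    ShI (PW (fun u => lead true u ≤ j ∧ ¬ MEx2 j (true :: y1) u))
      (wd (List.replicate j true ++ false :: true :: y1)) (wd h) := by
  induction hn : h.length using Nat.strong_induction_on generalizing j h with
  | _ n ih =>
    have hge := ((lt_wd_wd _ _).1 hgh).1
    cases j with
    | zero =>
      have hne : h ≠ [] := GMb_ne_nil (b := false) (by simpa using hge)
      obtain ⟨h', rfl⟩ := GMb_head (b := true) hne ((lead_eq_zero true h).1 (by omega))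
      simp only [Bool.not_true] at hn hgh hl hex hge
      simp only [List.replicate_zero, List.nil_append] at hgh hge ⊢
      have h1 : ShI (PW (fun u => (lead true u ≤ 0 ∧ ¬ MEx2 0 (true :: y1) u) ∧ St false u))
          (wd (false :: true :: y1)) (wd (false :: h')) := by
        refine strip _ false (true :: y1) h' ?_
        have hiff : ∀ u : List Bool, ¬ (St true u ∧ u.count true = (true :: y1).count true) ↔
            (lead true (false :: u) ≤ 0 ∧ ¬ MEx2 0 (true :: y1) (false :: u)) := by
          intro u
          constructor
          · intro h
            refine ⟨by rw [GMb_lead_false], ?_⟩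
            rintro ⟨t, ht, hc⟩
            simp only [List.replicate_zero, List.nil_append] at ht
            have h2 := (List.cons.inj ht).2
            subst h2
            exact h ⟨⟨t, rfl⟩, hc⟩
          · rintro ⟨-, h⟩ ⟨⟨t, rfl⟩, hc⟩
            exact h ⟨t, by simp, hc⟩
        refine shI_congr (fun u _ _ => hiff u) (m0shI y1 h' ?_ ?_)
        · rw [lt_wd_wd] at hgh ⊢
          exact ⟨List.cons_sublist_cons.1 hgh.1, fun h => hgh.2 (by rw [h])⟩
        · rw [hiff]
          exact ⟨hl, hex⟩
      refine shI_congr ?_ h1
      intro u hu _
      constructor
      · exact fun h => h.1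
      · intro h
        refine ⟨h, ?_⟩
        have hune : u ≠ [] := GMb_ne_nil ((lt_wd_wd _ _).1 hu).1
        obtain ⟨t, rfl⟩ := GMb_head (b := true) hune ((lead_eq_zero true u).1 (by omega))
        exact ⟨t, rfl⟩
    | succ j =>
      have hg1 : List.replicate (j + 1) true ++ false :: true :: y1 =
          true :: (List.replicate j true ++ false :: true :: y1) := by
        rw [List.replicate_succ, List.cons_append]
      cases h with
      | nil =>
        rw [hg1] at hge
        exact absurd rfl (GMb_ne_nil hge)
      | cons c h' =>
        have hlen : h'.length < n := by rw [← hn, List.length_cons]; exact Nat.lt_succ_self _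
        have hlow : ∀ x : List Bool, (lead true x ≤ j + 1 ∧ ¬ MEx2 (j + 1) (true :: y1) x) →
            wd (List.replicate (j + 1) true ++ false :: true :: y1) < wd x → x.Sublist h' →
            ShI (PW (fun u => lead true u ≤ j + 1 ∧ ¬ MEx2 (j + 1) (true :: y1) u))
              (wd (List.replicate (j + 1) true ++ false :: true :: y1)) (wd x) := by
          intro x hx hgx hxh
          exact ih x.length (lt_of_le_of_lt hxh.length_le hlen) (j + 1) x hgx hx.1 hx.2 rfl
        cases c with
        | false =>
          have hall : ∀ u : List Bool, lead true (false :: u) ≤ j + 1 ∧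
              ¬ MEx2 (j + 1) (true :: y1) (false :: u) := fun u =>
            ⟨by rw [GMb_lead_false]; omega, GMb_MEx2_false j _ u⟩
          refine fl_red _ false _ h' (Or.inl ⟨_, rfl⟩) hgh ?_ ?_ ?_ ?_
          · rw [hg1] at hge ⊢
            exact upper_all _ false _ h' (by simp) (Red0_f (b := true) hge) (fun u _ _ => hall u)
          · intro x hx hgx hxh _
            exact hlow x hx hgx hxh
          · intro x hx hgx hxh hxs
            exact upper_all _ false _ h' hxs hxh (fun u _ _ => hall u)
          · intro x hx hgx hxh hxs z hz hgz hzx hrk
            obtain ⟨v, rfl⟩ : ∃ v, z = wd v := by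
              rcases hz with rfl | ⟨v, rfl, -⟩
              · exact ⟨_, rfl⟩
              · exact ⟨v, rfl⟩
            refine ⟨v, hall v, ?_, ((lt_wd_wd _ _).1 hzx).1, ?_⟩
            · rw [lt_wd_wd_len]
              exact ⟨List.sublist_cons_self _ _, by simp⟩
            · simp only [rk_wd] at hrk
              omega
        | true =>
          have hiff : ∀ u : List Bool, (lead true u ≤ j ∧ ¬ MEx2 j (true :: y1) u) ↔
              (lead true (true :: u) ≤ j + 1 ∧ ¬ MEx2 (j + 1) (true :: y1) (true :: u)) := by
            intro u
            rw [GMb_lead_true, GMb_MEx2_cons, Nat.add_le_add_iff_right]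
          have hh' : lead true h' ≤ j ∧ ¬ MEx2 j (true :: y1) h' := (hiff h').2 ⟨hl, hex⟩
          -- a word `x` of `P` above the bottom which does not start with `1`
          have hxform : ∀ x : List Bool, wd (List.replicate (j + 1) true ++ false :: true :: y1) <
              wd x → ¬ St true x → ∃ x', x = false :: x' ∧
                (List.replicate (j + 1) true ++ false :: true :: y1).Sublist x' := by
            intro x hgx hxs
            have h1 := ((lt_wd_wd _ _).1 hgx).1
            have hne : x ≠ [] := by
              rw [hg1] at h1
              exact GMb_ne_nil h1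
            obtain ⟨x', rfl⟩ := GMb_head (b := true) hne hxs
            refine ⟨x', rfl, ?_⟩
            rw [hg1] at h1 ⊢
            exact Red0_f (b := true) h1
          refine fl_red _ true _ h' (Or.inl ⟨_, rfl⟩) hgh ?_ ?_ ?_ ?_
          · rw [hg1] at hgh ⊢
            refine strip _ true _ h' ?_
            refine shI_congr (fun u _ _ => hiff u) (ih h'.length hlen j h' ?_ hh'.1 hh'.2 rfl)
            rw [lt_wd_wd] at hgh ⊢
            exact ⟨List.cons_sublist_cons.1 hgh.1, fun h => hgh.2 (by rw [h])⟩
          · intro x hx hgx hxh _
            exact hlow x hx hgx hxh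
          · intro x hx hgx hxh hxs
            obtain ⟨x', rfl, hx'⟩ := hxform x hgx hxs
            refine strip_half _ true _ h' hxs ?_
            rw [HP_congr (P' := fun u => lead true u ≤ j)]
            · exact vHP true j _ h' hxh (by rw [GMb_lead_false]; omega) hh'.1
            · intro u h1 _ _
              rw [← hiff]
              exact ⟨fun h => h.1, fun h => ⟨h, GMb_key j y1 x' u hx' h1⟩⟩
          · intro x hx hgx hxh hxs z hz hgz hzx hrk
            obtain ⟨x', rfl, hx'⟩ := hxform x hgx hxs
            obtain ⟨v, rfl⟩ : ∃ v, z = wd v := by
              rcases hz with rfl | ⟨v, rfl, -⟩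
              · exact ⟨_, rfl⟩
              · exact ⟨v, rfl⟩
            have hgv : (List.replicate (j + 1) true ++ false :: true :: y1).Sublist v :=
              (le_wd_wd _ _).1 hgz
            have hvx := ((lt_wd_wd _ _).1 hzx).1
            simp only [rk_wd, List.length_cons] at hrk
            by_cases hvs : St true v
            · obtain ⟨z1, rfl⟩ := hvs
              have h1 : (true :: z1).Sublist x' := Red0_f (b := true) hvx
              have h2 : true :: z1 = x' := h1.eq_of_length (by simp at hrk ⊢; omega)
              subst h2
              refine ⟨false :: z1, ?_, ?_, ?_, ?_⟩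
              · rw [← hiff, GMb_lead_false]
                refine ⟨by omega, ?_⟩
                cases j with
                | succ j => exact GMb_MEx2_false j _ _
                | zero =>
                  rintro ⟨t, ht, hc⟩
                  simp only [List.replicate_zero, List.nil_append] at ht
                  have h3 := (List.cons.inj ht).2
                  subst h3
                  rcases hz with hz | ⟨w, hw, hw1, -⟩
                  · have h4 := El.wd.inj hz
                    simp at h4
                  · have h4 := El.wd.inj hw
                    subst h4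
                    rw [GMb_lead_true, GMb_lead_true] at hw1
                    omega
              · rw [lt_wd_wd_len]
                exact ⟨(List.sublist_cons_self _ _).cons_cons _, by simp⟩
              · exact (List.sublist_cons_self _ _).cons_cons _
              · simp
            · have hne : v ≠ [] := by
                rw [hg1] at hgv
                exact GMb_ne_nil hgv
              obtain ⟨v', rfl⟩ := GMb_head (b := true) hne hvs
              have hgv' : (List.replicate (j + 1) true ++ false :: true :: y1).Sublist v' := by
                rw [hg1] at hgv ⊢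
                exact Red0_f (b := true) hgv
              refine ⟨false :: v', ?_, ?_, hvx, ?_⟩
              · rw [← hiff, GMb_lead_false]
                exact ⟨by omega, GMb_key j y1 v' _ hgv' (List.Sublist.refl _)⟩
              · rw [lt_wd_wd_len]
                exact ⟨List.sublist_cons_self _ _, by simp⟩
              · simp at hrk ⊢
                omega

end H58
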