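import Pool.Agent.W_58ccg_h2.GWm
import Pool.Agent.W_58cc_h2.CoreA

/-!
# General `k`: the positive theorem
-/

namespace H58

open El

/-- `T_k ⇐ W_n`, `k ≤ n ≤ lis w` (`k ≥ 1`): `sh_up`, `P = PP`, `A = PW Fw`, outside `idp n`; lower
part a chain of identities, upper part `Winf n w`; `hE`: `z = idp (n-1)`, `y` = non sorted lower
cover of the word `a` (`exists_F_pred`, `lis_pred`). -/
theorem t_of_w (k : ℕ) (w : List Bool) (hk : 1 ≤ k) (hF : Fw w) (hkl : k ≤ lis w)
    (hW : ∀ n, k ≤ n → n ≤ lis w → Winf n w) : T k w := by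
  have hAx : ∀ x, x ∈ PP → x ∉ PW Fw → ∃ n, x = idp n := by
    intro x hx hxA
    cases x with
    | idp n => exact ⟨n, rfl⟩
    | wd u => exact absurd ((wd_mem_PW Fw u).2 ((wd_mem_PP u).1 hx)) hxA
  refine sh_up PP (PW Fw) (idp k) (wd w) ((lt_id_wd k w).2 hkl)
    (Or.inr ⟨fun x hx => hx, (wd_mem_PP w).2 hF⟩) ?_ (hW k le_rfl hkl) ?_ ?_ ?_
  · rintro x ⟨u, rfl, hu⟩
    exact (wd_mem_PP u).2 hu
  · intro x hx hgx hxh hxA
    obtain ⟨n, rfl⟩ := hAx x hx hxA
    have h1 := sh_idchain k n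
    unfold ShI
    have e : Op PP (idp k) (idp n) = {y : El | ∃ m, y = idp m ∧ k < m ∧ m < n} := by
      ext y
      constructor
      · rintro ⟨_, h2, h3⟩
        cases y with
        | idp m => exact ⟨m, rfl, (lt_id_id k m).1 h2, (lt_id_id m n).1 h3⟩
        | wd u => exact absurd h3 (by simp)
      · rintro ⟨m, rfl, h2, h3⟩
        exact ⟨idp_mem_PP m, (lt_id_id k m).2 h2, (lt_id_id m n).2 h3⟩
    rw [e]
    exact h1
  · intro x hx hgx hxh hxA
    obtain ⟨n, rfl⟩ := hAx x hx hxA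
    exact hW n ((lt_id_id k n).1 hgx).le ((lt_id_wd n w).1 hxh)
  · intro x hx hgx hxh hxA z a hz hgz hzx hrz ha hxa hah hra
    obtain ⟨n, rfl⟩ := hAx x hx hxA
    have hkn := (lt_id_id k n).1 hgx
    cases z with
    | wd u => exact absurd hzx (by simp)
    | idp m =>
      rw [rk_id, rk_id] at hrz
      have ha' : ∃ u, a = wd u ∧ Fw u := by
        rcases ha with rfl | ⟨u, rfl, hu⟩
        · exact ⟨w, rfl, hF⟩
        · exact ⟨u, rfl, hu⟩
      obtain ⟨u, rfl, hu⟩ := ha'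
      rw [rk_wd, rk_id] at hra
      obtain ⟨v, hv1, hv2, hv3⟩ := exists_F_pred hu (by omega)
      have h1 := lis_pred hv2 hv3
      have h2 := (lt_id_wd n u).1 hxa
      refine ⟨wd v, (wd_mem_PW Fw v).2 hv1, (lt_id_wd m v).2 (by omega), ?_⟩
      rw [lt_wd_wd_len]
      exact ⟨hv2, by omega⟩

/-- **Positive theorem**, all `k`. (`k = 0` from `k = 1` by `red_zero`.) -/
theorem pos_gen (w : List Bool) (hF : Fw w) (k : ℕ) (hk : k ≤ lis w)
    (hav : ∀ n, k ≤ n → AvB n w) : T k w := by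
  have key : ∀ j, 1 ≤ j → k ≤ j → j ≤ lis w → T j w := by
    intro j hj hkj hjl
    refine t_of_w j w hj hF hjl fun n hn hnl => ?_
    have hlen := CoreA_len hF
    have hlead := lead_le_length true w
    exact (wsh_iff_winf w.length n w le_rfl).1
      (w_main w hF n w.length (by omega) hnl (hav n (by omega)) (by omega) hlead)
  rcases Nat.eq_zero_or_pos k with h0 | h0
  · subst h0
    exact red_zero w hF (key 1 le_rfl (by omega) (CoreA_lis1 hF))
  · exact key k h0 le_rfl hk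

end H58
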