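import Pool.Agent.W_58ccg_h2.GWd
import Pool.Agent.W_58ccg_h2.GLeadB

/-!
# General `k`: the critical words `Q_n` (step (c1))
-/

namespace H58

open El

/-- `1^r 0 y` with exactly `n` ones and `lis (0y) < n`. -/
def Qn (r n : ℕ) (u : List Bool) : Prop :=
  ∃ y, u = List.replicate r true ++ false :: y ∧ u.count true = n ∧ lis (false :: y) < n

theorem GQ_count (r : ℕ) (y : List Bool) :
    (List.replicate r true ++ false :: y).count true = r + y.count true := by
  rw [List.count_append, List.count_replicate_self, List.count_cons_of_ne (by decide)]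

theorem GQ_cancel {r : ℕ} {y t : List Bool}
    (h : List.replicate r true ++ false :: y = List.replicate r true ++ false :: t) : y = t :=
  (List.cons.inj (List.append_cancel_left h)).2

/-- the words of `W_n(h)` below `h = 1^r 0 h2` if `lis (1^(r-1) 0 h2) < n`. -/
theorem GQ_form {r n : ℕ} {h2 u : List Bool}
    (h1 : lis (List.replicate (r - 1) true ++ false :: h2) < n)
    (hW : WP r u) (hn : n ≤ lis u) (hu : u.Sublist (List.replicate r true ++ false :: h2)) :
    ∃ y, u = List.replicate r true ++ false :: y ∧ y.Sublist h2 ∧ n ≤ r + y.count true := by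
  have hf : false ∈ u := by
    have h2 : [true, false].Sublist u := hW.1
    exact h2.subset (by simp)
  obtain ⟨y, hy⟩ := lead_decomp' true u hf
  by_cases hlt : lead true u < r
  · exfalso
    have h3 := lis_mono (lead_apex true r u h2 hf hu hlt)
    simp only [Bool.not_true] at h3
    omega
  · have hle : lead true u = r := by
      have := hW.2
      omega
    rw [hle] at hy
    simp only [Bool.not_true] at hy
    have hy2 : y.Sublist h2 := by
      rw [hy] at hu
      exact (rep_sub_iff true r r y h2 le_rfl).1 hu
    refine ⟨y, hy, hy2, ?_⟩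
    rw [hy, lis_rep] at hn
    rw [lis_rep] at h1
    have h4 := lis_mono (hy2.cons_cons false)
    omega

/-- (c1) If `lis (1^(r-1) 0 h2) < n ≤ lis (1^r 0 h2)` then all words of `W_n(h)` contain all the
`n` ones of `h`: `W_n(h) = 1^r 0 {u : 1^(n-r) ≤ u < h2}`. -/
theorem w_crit (r n : ℕ) (h2 : List Bool) (hr : 1 ≤ r)
    (h1 : lis (List.replicate (r - 1) true ++ false :: h2) < n)
    (hl : n ≤ lis (List.replicate r true ++ false :: h2)) :
    Wsh r n (List.replicate r true ++ false :: h2) := by
  have h1' := h1
  rw [lis_rep] at h1 hl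
  have hcnt : n = r + h2.count true := by omega
  have hs : (List.replicate (n - r) true).Sublist h2 := by
    apply List.replicate_sublist_iff.2
    omega
  have hsh := sh_pre_HO (List.replicate r true ++ [false]) (List.replicate (n - r) true) h2
    (sub_HO _ _ hs)
  have e : Op (PW (WP r)) (idp n) (wd (List.replicate r true ++ false :: h2)) =
      {e : El | ∃ u, e = wd ((List.replicate r true ++ [false]) ++ u) ∧
        (List.replicate (n - r) true).Sublist u ∧ u.Sublist h2 ∧ u ≠ h2} := by
    ext x
    constructor
    · rintro ⟨⟨u, rfl, hu⟩, hx1, hx2⟩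
      rw [lt_id_wd] at hx1
      rw [lt_wd_wd] at hx2
      obtain ⟨y, hy, hy1, hy2⟩ := GQ_form h1' hu hx1 hx2.1
      refine ⟨y, ?_, ?_, hy1, ?_⟩
      · rw [hy, List.append_assoc, List.singleton_append]
      · apply List.replicate_sublist_iff.2
        omega
      · rintro rfl
        exact hx2.2 hy
    · rintro ⟨u, rfl, hu1, hu2, hu3⟩
      rw [List.append_assoc, List.singleton_append]
      have h4 := List.replicate_sublist_iff.1 hu1
      refine ⟨⟨_, rfl, Fw_rep r hr u, ?_⟩, ?_, ?_⟩
      · exact (lead_rep' true r u).le
      · rw [lt_id_wd, lis_rep]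
        omega
      · rw [lt_wd_wd]
        exact ⟨(rep_sub_iff true r r u h2 le_rfl).2 hu2, fun h => hu3 (GQ_cancel h)⟩
  unfold Wsh ShI
  rw [e]
  have hd : rk (wd (List.replicate r true ++ false :: h2)) - rk (idp n) - 1 =
      h2.length - (List.replicate (n - r) true).length := by
    simp only [rk_wd, rk_id, List.length_append, List.length_replicate, List.length_cons]
    omega
  rw [hd]
  exact hsh

/-- lower part of a critical word: `1^r 0 {u : 1^(n-r) ≤ u < y}`. -/
theorem q_low (r n : ℕ) (y : List Bool) (hr : 1 ≤ r)
    (hQ : Qn r n (List.replicate r true ++ false :: y)) :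
    Wsh r n (List.replicate r true ++ false :: y) := by
  obtain ⟨t, ht, hc, hlt⟩ := hQ
  obtain rfl := GQ_cancel ht
  rw [GQ_count] at hc
  refine w_crit r n y hr ?_ ?_
  · rw [lis_rep]
    omega
  · rw [lis_rep]
    omega

end H58
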