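import Pool.Agent.W_58ccg_h2.GQ
import Pool.Agent.W_58ccg_h2.GM
import Pool.Agent.W_58ccg_h2.GMb

/-!
# General `k`: upper parts of the critical words
-/

namespace H58

open El

theorem GQb_qn {r n : ℕ} {t : List Bool} :
    Qn r n (List.replicate r true ++ false :: t) ↔
      r + t.count true = n ∧ lis (false :: t) < n := by
  constructor
  · rintro ⟨t', ht', hc, hl⟩
    obtain rfl := GQ_cancel ht'
    rw [GQ_count] at hc
    exact ⟨hc, hl⟩
  · rintro ⟨hc, hl⟩
    exact ⟨t, rfl, by rw [GQ_count]; exact hc, hl⟩

/-- a critical word with `r = 2` is `110t`, `t` not starting with `0`. -/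
theorem GQb_two {n : ℕ} {t : List Bool} (hc : 2 + t.count true = n)
    (hl : lis (false :: t) < n) : ¬ St false t := by
  rintro ⟨t', rfl⟩
  have h1 := count_le_lis t'
  rw [List.count_cons_of_ne (by decide)] at hc
  rw [lis_false, lis_false] at hl
  omega

/-- upper part of a critical word `x = 1^r 0 y`: by `hG` a word `v = 1^r 0 t` of the interval with `n`
ones is critical unless `r = 2` and `t` starts with `0`; so the upper part is (M) (`mshI`) if
`r ≥ 3`, and (M') (`mshI2`) resp. (V) (`vshI`, `y = []`) if `r = 2`. (`y` does not start with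
`0` if `r = 2`, because `lis (00y') ≥ 2 + #1 y'`.) -/
theorem q_up (r n : ℕ) (y h2 : List Bool) (hr : 2 ≤ r)
    (hG : ∀ u, u.Sublist h2 → r + u.count true = n → n ≤ lis (false :: u) → r = 2 ∧ St false u)
    (hh : ¬ Qn r n (List.replicate r true ++ false :: h2))
    (hQ : Qn r n (List.replicate r true ++ false :: y))
    (hlt : wd (List.replicate r true ++ false :: y) < wd (List.replicate r true ++ false :: h2)) :
    ShI (PW (fun u => WP r u ∧ ¬ Qn r n u)) (wd (List.replicate r true ++ false :: y))
      (wd (List.replicate r true ++ false :: h2)) := by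
  obtain ⟨hyc, hyl⟩ := GQb_qn.1 hQ
  have hlead : lead true (List.replicate r true ++ false :: h2) ≤ r := (lead_rep' true r h2).le
  have hsub : ∀ t, (List.replicate r true ++ false :: t).Sublist
      (List.replicate r true ++ false :: h2) → t.Sublist h2 := fun t ht =>
    (rep_sub_iff true r r t h2 le_rfl).1 ht
  have hFw : ∀ u, wd (List.replicate r true ++ false :: y) < wd u → Fw u := fun u hu =>
    Fw_mono (Fw_rep r (by omega) y) ((lt_wd_wd _ _).1 hu).1
  rcases Nat.lt_or_ge 2 r with h3 | h3
  · -- `r ≥ 3`
    have hM : ∀ u, u.Sublist (List.replicate r true ++ false :: h2) →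
        (MEx r y u ↔ Qn r n u) := by
      intro u hu
      constructor
      · rintro ⟨t, rfl, hc⟩
        rw [GQb_qn]
        refine ⟨by omega, ?_⟩
        by_contra hcon
        have h4 := (hG t (hsub t hu) (by omega) (by omega)).1
        omega
      · rintro ⟨t, rfl, hc, -⟩
        rw [GQ_count] at hc
        exact ⟨t, rfl, by omega⟩
    refine shI_congr (P := fun u => lead true u ≤ r ∧ ¬ MEx r y u) ?_
      (mshI r y _ hlt hlead fun h => hh ((hM _ (List.Sublist.refl _)).1 h))
    intro u hu1 hu2
    have h4 := hM u ((lt_wd_wd _ _).1 hu2).1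
    constructor
    · rintro ⟨h5, h6⟩
      exact ⟨⟨hFw u hu1, h5⟩, fun h => h6 (h4.2 h)⟩
    · rintro ⟨h5, h6⟩
      exact ⟨h5.2, fun h => h6 (h4.1 h)⟩
  · -- `r = 2`
    obtain rfl : r = 2 := by omega
    match y, hyc, hyl, hlt, hFw with
    | [], hyc, hyl, hlt, hFw =>
      refine shI_congr (P := fun u => lead true u ≤ 2) ?_ (vshI true 2 _ _ hlt hlead)
      intro u hu1 hu2
      constructor
      · intro h5
        refine ⟨⟨hFw u hu1, h5⟩, ?_⟩
        rintro ⟨t, rfl, hc, hl⟩
        have hn : n = 2 := by
          rw [← hyc]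
          rfl
        subst hn
        match t, hl with
        | [], _ => exact absurd hu1 (lt_irrefl _)
        | false :: t, hl =>
          rw [lis_false, lis_false] at hl
          omega
        | true :: t, hl =>
          rw [lis_false, lis_true] at hl
          omega
      · rintro ⟨h5, -⟩
        exact h5.2
    | false :: y0, hyc, hyl, _, _ => exact absurd ⟨y0, rfl⟩ (GQb_two hyc hyl)
    | true :: y1, hyc, hyl, hlt, hFw =>
      have hM : ∀ u, u.Sublist (List.replicate 2 true ++ false :: h2) →
          (MEx2 2 (true :: y1) u ↔ Qn 2 n u) := by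
        intro u hu
        constructor
        · rintro ⟨t, rfl, hc⟩
          rw [GQb_qn]
          refine ⟨by omega, ?_⟩
          by_contra hcon
          have h4 := (hG (true :: t) (hsub _ hu) (by omega) (by omega)).2
          rw [St_cons] at h4
          exact absurd h4 (by decide)
        · rintro ⟨t, rfl, hc, hl⟩
          rw [GQ_count] at hc
          match t, hc, hl with
          | [], hc, _ =>
            rw [List.count_cons_self] at hyc
            simp only [List.count_nil] at hc
            omega
          | false :: t, hc, hl => exact absurd ⟨t, rfl⟩ (GQb_two hc hl)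
          | true :: t, hc, _ => exact ⟨t, rfl, by omega⟩
      refine shI_congr (P := fun u => lead true u ≤ 2 ∧ ¬ MEx2 2 (true :: y1) u) ?_
        (mshI2 2 y1 _ hlt hlead fun h => hh ((hM _ (List.Sublist.refl _)).1 h))
      intro u hu1 hu2
      have h4 := hM u ((lt_wd_wd _ _).1 hu2).1
      constructor
      · rintro ⟨h5, h6⟩
        exact ⟨⟨hFw u hu1, h5⟩, fun h => h6 (h4.2 h)⟩
      · rintro ⟨h5, h6⟩
        exact ⟨h5.2, fun h => h6 (h4.1 h)⟩

end H58
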