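import Pool.Agent.W_58ccg_h2.GQb

/-!
# General `k`: step (c2)
-/

namespace H58

open El

theorem GQc_ins {y a : List Bool} (h : y.Sublist a) (hl : a.length = y.length + 1) :
    ∃ p b q, a = p ++ b :: q ∧ y = p ++ q := by
  induction h with
  | slnil => simp at hl
  | @cons l₁ l₂ b h ih =>
    rw [List.length_cons] at hl
    have h1 : l₁ = l₂ := h.eq_of_length (by omega)
    exact ⟨[], b, l₂, rfl, h1⟩
  | @cons_cons l₁ l₂ b h ih =>
    rw [List.length_cons, List.length_cons] at hl
    obtain ⟨p, c, q, h1, h2⟩ := ih (by omega)
    exact ⟨b :: p, c, q, by rw [h1]; rfl, by rw [h2]; rfl⟩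

theorem GQc_count {y a : List Bool} (h : y.Sublist a) (hl : a.length = y.length + 1) :
    a.count true = y.count true ∨ a.count true = y.count true + 1 := by
  obtain ⟨p, b, q, rfl, rfl⟩ := GQc_ins h hl
  rw [List.count_append, List.count_append]
  cases b
  · left
    rw [List.count_cons_of_ne (by decide)]
  · right
    rw [List.count_cons_self]
    omega

theorem GQc_mid {x y a : List Bool} (hxy : x.Sublist y) (hya : y.Sublist a)
    (hl1 : y.length = x.length + 1) (hl2 : a.length = y.length + 1)
    (hc1 : x.count true = y.count true) (hc2 : a.count true = y.count true + 1) :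
    ∃ t, x.Sublist t ∧ t.Sublist a ∧ t.length = y.length ∧ t.count true = y.count true + 1 := by
  obtain ⟨p, b, q, rfl, rfl⟩ := GQc_ins hya hl2
  have hb : b = true := by
    cases b
    · rw [List.count_append, List.count_append, List.count_cons_of_ne (by decide)] at hc2
      omega
    · rfl
  subst hb
  obtain ⟨p', q', rfl, hp, hq⟩ := List.sublist_append_iff.1 hxy
  refine ⟨p' ++ true :: q', ?_, ?_, ?_, ?_⟩
  · exact List.Sublist.append (List.Sublist.refl _) (List.sublist_cons_self _ _)
  · exact List.Sublist.append hp (hq.cons_cons true)
  · simp only [List.length_append, List.length_cons] at hl1 ⊢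
    omega
  · rw [List.count_append, List.count_append] at hc1
    rw [List.count_append, List.count_append, List.count_cons_self]
    omega

theorem GQc_notQ {r n : ℕ} {w : List Bool} (h : lead true w ≠ r) : ¬ Qn r n w := by
  rintro ⟨t, rfl, -⟩
  exact h (lead_rep' true r t)

theorem GQc_Fw {s r : ℕ} (hsr : s < r) (t : List Bool) :
    Fw (List.replicate s true ++ false :: (List.replicate (r - s) true ++ false :: t)) :=
  Fw_mono (Fw_rep (r - s) (by omega) t)
    ((List.sublist_cons_self _ _).trans (List.sublist_append_right _ _))

theorem GQc_split {s r : ℕ} (hsr : s < r) (t : List Bool) :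
    List.replicate r true ++ t = List.replicate s true ++ (List.replicate (r - s) true ++ t) := by
  rw [← List.append_assoc, List.replicate_append_replicate]
  congr 2
  omega

/-- (c2) `sh_up` with `A` = non critical words. Covers of a critical `x = 1^r 0 y` in `A ∪ {h}`:
`1^s 0 1^(r-s) 0 y` (`s < r`), `1^r 0 y⁺` with one more `1`, and (only `r = 2`, by `hG`)
`1100y`. `z` (a word) is `1^r 0 y⁻`, `y⁻` = `y` without a zero: `1^s 0 1^(r-s) 0 y⁻`, `1^r 0 (y⁺
without this zero)`, `1100y⁻`. `z = idp n`: `x = 1^r 0 1^(n-r)`: `1^s 0 1^(n-s)` (`s ≥ 1`),
`0 1^(r-1) 0 1^(n-r)` (`s = 0`), `1^(r-1) 0 1^(n-r+1)`, `100 1^(n-2)`. -/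
theorem q_step (r n : ℕ) (h2 : List Bool) (hr : 2 ≤ r) (hn : 3 ≤ n)
    (hG : ∀ u, u.Sublist h2 → r + u.count true = n → n ≤ lis (false :: u) → r = 2 ∧ St false u)
    (hl : n ≤ lis (List.replicate (r - 1) true ++ false :: h2))
    (hA : ShI (PW (fun u => WP r u ∧ ¬ Qn r n u)) (idp n)
      (wd (List.replicate r true ++ false :: h2))) :
    Wsh r n (List.replicate r true ++ false :: h2) := by
  have hlh : n ≤ lis (List.replicate r true ++ false :: h2) := by
    refine hl.trans (lis_mono ?_)
    exact List.Sublist.append (List.replicate_sublist_replicate true |>.2 (by omega))
      (List.Sublist.refl _)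
  have hh : ¬ Qn r n (List.replicate r true ++ false :: h2) := by
    rw [GQb_qn]
    rintro ⟨h3, h4⟩
    rw [lis_rep] at hl
    omega
  have hsub : ∀ t, (List.replicate r true ++ false :: t).Sublist
      (List.replicate r true ++ false :: h2) → t.Sublist h2 := fun t ht =>
    (rep_sub_iff true r r t h2 le_rfl).1 ht
  have hQx : ∀ x, x ∈ PW (WP r) → x ∉ PW (fun u => WP r u ∧ ¬ Qn r n u) →
      ∃ y, x = wd (List.replicate r true ++ false :: y) ∧
        Qn r n (List.replicate r true ++ false :: y) := by
    rintro x ⟨u, rfl, hu⟩ hxA
    have h3 : Qn r n u := by
      by_contra hcon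
      exact hxA ⟨u, rfl, hu, hcon⟩
    obtain ⟨y, rfl, -⟩ := id h3
    exact ⟨y, rfl, h3⟩
  have hPle : ∀ x ∈ PW (WP r), x ∈ PP := by
    rintro x ⟨u, rfl, hu⟩
    exact (wd_mem_PP u).2 hu.1
  unfold Wsh
  refine sh_up (PW (WP r)) (PW (fun u => WP r u ∧ ¬ Qn r n u)) (idp n)
    (wd (List.replicate r true ++ false :: h2)) ((lt_id_wd _ _).2 hlh)
    (Or.inr ⟨hPle, (wd_mem_PP _).2 (Fw_rep r (by omega) h2)⟩) ?_ hA ?_ ?_ ?_
  · rintro x ⟨u, rfl, hu⟩
    exact ⟨u, rfl, hu.1⟩
  · intro x hxP _ _ hxA
    obtain ⟨y, rfl, hQ⟩ := hQx x hxP hxA
    exact q_low r n y (by omega) hQ
  · intro x hxP _ hxh hxA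
    obtain ⟨y, rfl, hQ⟩ := hQx x hxP hxA
    exact q_up r n y h2 hr hG hh hQ hxh
  · intro x hxP hgx hxh hxA z a hz hgz hzx hrz ha hxa hah hra
    obtain ⟨y, rfl, hQ⟩ := hQx x hxP hxA
    obtain ⟨hyc, hyl⟩ := GQb_qn.1 hQ
    obtain ⟨av, rfl⟩ := Red0_wd_above hxa
    have hav : lead true av ≤ r ∧ ¬ Qn r n av := by
      rcases ha with ha | ⟨u, hu, hu1, hu2⟩
      · obtain rfl := El.wd.inj ha
        exact ⟨(lead_rep' true r h2).le, hh⟩
      · obtain rfl := El.wd.inj hu
        exact ⟨hu1.2, hu2⟩
    have hah' : av.Sublist (List.replicate r true ++ false :: h2) := hah
    have hxa' := (lt_wd_wd _ _).1 hxa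
    simp only [rk_wd, List.length_append, List.length_replicate, List.length_cons] at hra
    -- the element below
    have hz' : z = idp n ∨ ∃ y', z = wd (List.replicate r true ++ false :: y') ∧ y'.Sublist y ∧
        y'.count true = y.count true ∧ y.length = y'.length + 1 := by
      rcases hz with hz | ⟨zv, rfl, hzv⟩
      · exact Or.inl hz
      · right
        have h3 : n ≤ lis zv := hgz
        have h4 := (lt_wd_wd _ _).1 hzx
        obtain ⟨y', rfl, h5, h6⟩ := GQ_form (r := r) (n := n) (h2 := y) (by
          rw [lis_rep]
          omega) hzv h3 h4.1
        have h7 := h5.count_le true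
        simp only [rk_wd, List.length_append, List.length_replicate, List.length_cons] at hrz
        exact ⟨y', rfl, h5, by omega, by omega⟩
    rcases Nat.lt_or_ge (lead true av) r with hs | hs
    · -- fewer leading ones
      obtain ⟨s, hsd⟩ : ∃ s, s = lead true av := ⟨_, rfl⟩
      have hform := cover_form true r (false :: y) av hxa'.1 (by
        rw [List.length_cons]
        omega) hs
      rw [← hsd] at hform hs
      simp only [Bool.not_true] at hform
      rw [hform]
      rcases hz' with rfl | ⟨y', rfl, h5, h6, h7⟩
      · rcases Nat.eq_zero_or_pos s with h0 | h0
        · subst h0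
          refine ⟨wd (false :: (List.replicate (r - 1) true ++ false :: y)),
            ⟨_, rfl, ⟨?_, ?_⟩, GQc_notQ ?_⟩, ?_, ?_⟩
          · exact Red0_Fw.2 (Fw_rep (r - 1) (by omega) y)
          · have h8 := lead_rep' true 0 (List.replicate (r - 1) true ++ false :: y)
            simp only [Bool.not_true, List.replicate_zero, List.nil_append] at h8
            rw [h8]
            omega
          · have h8 := lead_rep' true 0 (List.replicate (r - 1) true ++ false :: y)
            simp only [Bool.not_true, List.replicate_zero, List.nil_append] at h8
            rw [h8]
            omega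
          · rw [lt_id_wd, lis_false, lis_rep]
            omega
          · rw [lt_wd_wd_len]
            constructor
            · simp only [List.replicate_zero, List.nil_append, Nat.sub_zero]
              refine List.Sublist.cons_cons false (List.Sublist.append ?_ (List.Sublist.refl _))
              exact (List.replicate_sublist_replicate true).2 (by omega)
            · simp only [List.length_append, List.length_replicate, List.length_cons]
              omega
        · refine ⟨wd (List.replicate s true ++ false :: (List.replicate (r - s) true ++ y)),
            ⟨_, rfl, ⟨Fw_rep s h0 _, ?_⟩, GQc_notQ ?_⟩, ?_, ?_⟩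
          · exact (lead_rep' true s _).le.trans hs.le
          · have h8 := lead_rep' true s (List.replicate (r - s) true ++ y)
            simp only [Bool.not_true] at h8
            rw [h8]
            omega
          · rw [lt_id_wd, lis_rep, List.count_append, List.count_replicate_self]
            omega
          · rw [lt_wd_wd_len]
            constructor
            · refine List.Sublist.append (List.Sublist.refl _) (List.Sublist.cons_cons false ?_)
              exact List.Sublist.append (List.Sublist.refl _) (List.sublist_cons_self _ _)
            · simp only [List.length_append, List.length_replicate, List.length_cons]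
              omega
      · refine ⟨wd (List.replicate s true ++ false :: (List.replicate (r - s) true ++ false :: y')),
          ⟨_, rfl, ⟨GQc_Fw hs _, ?_⟩, GQc_notQ ?_⟩, ?_, ?_⟩
        · exact (lead_rep' true s _).le.trans hs.le
        · have h8 := lead_rep' true s (List.replicate (r - s) true ++ false :: y')
          simp only [Bool.not_true] at h8
          rw [h8]
          omega
        · rw [lt_wd_wd_len]
          constructor
          · rw [GQc_split hs (false :: y')]
            exact List.Sublist.append (List.Sublist.refl _) (List.sublist_cons_self _ _)
          · simp only [List.length_append, List.length_replicate, List.length_cons]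
            omega
        · rw [lt_wd_wd_len]
          constructor
          · refine List.Sublist.append (List.Sublist.refl _) (List.Sublist.cons_cons false ?_)
            exact List.Sublist.append (List.Sublist.refl _) (h5.cons_cons false)
          · simp only [List.length_append, List.length_replicate, List.length_cons]
            omega
    · -- `r` leading ones
      have hlr : lead true av = r := le_antisymm hav.1 hs
      have hf : false ∈ av := hxa'.1.subset (by simp)
      obtain ⟨t, ht⟩ := lead_decomp' true av hf
      rw [hlr] at ht
      simp only [Bool.not_true] at ht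
      subst ht
      have hyt : y.Sublist t := (rep_sub_iff true r r y t le_rfl).1 hxa'.1
      have htl : t.length = y.length + 1 := by
        simp only [List.length_append, List.length_replicate, List.length_cons] at hra
        omega
      rcases GQc_count hyt htl with hct | hct
      · -- the same number of ones: `1100y`
        have hnl : n ≤ lis (false :: t) := by
          by_contra hcon
          apply hav.2
          rw [GQb_qn]
          exact ⟨by omega, by omega⟩
        obtain ⟨hr2, t0, rfl⟩ := hG t (hsub t hah') (by omega) hnl
        subst hr2
        have hy0 : ¬ St false y := GQb_two hyc hyl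
        have hyt0 : y.Sublist t0 := by
          rcases List.sublist_cons_iff.1 hyt with h3 | ⟨y0, h3, _⟩
          · exact h3
          · exact absurd ⟨y0, h3⟩ hy0
        have hty : y = t0 := hyt0.eq_of_length (by
          rw [List.length_cons] at htl
          omega)
        subst hty
        rcases hz' with rfl | ⟨y', rfl, h5, h6, h7⟩
        · refine ⟨wd (List.replicate 1 true ++ false :: false :: y),
            ⟨_, rfl, ⟨Fw_rep 1 le_rfl _, ?_⟩, GQc_notQ ?_⟩, ?_, ?_⟩
          · exact (lead_rep' true 1 _).le.trans (by omega)
          · have h8 := lead_rep' true 1 (false :: y)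
            simp only [Bool.not_true] at h8
            rw [h8]
            omega
          · have h8 := count_le_lis y
            rw [lt_id_wd, lis_rep, lis_false, lis_false]
            omega
          · rw [lt_wd_wd_len]
            constructor
            · refine List.Sublist.append ?_ (List.Sublist.refl _)
              exact (List.replicate_sublist_replicate true).2 (by omega)
            · simp only [List.length_append, List.length_replicate, List.length_cons]
              omega
        · refine ⟨wd (List.replicate 2 true ++ false :: false :: y'),
            ⟨_, rfl, ⟨Fw_rep 2 (by omega) _, (lead_rep' true 2 _).le⟩, ?_⟩, ?_, ?_⟩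
          · rw [GQb_qn]
            rintro ⟨-, h8⟩
            have h9 := count_le_lis y'
            rw [lis_false, lis_false] at h8
            omega
          · rw [lt_wd_wd_len]
            constructor
            · refine List.Sublist.append (List.Sublist.refl _) (List.Sublist.cons_cons false ?_)
              exact List.sublist_cons_self _ _
            · simp only [List.length_append, List.length_replicate, List.length_cons]
              omega
          · rw [lt_wd_wd_len]
            constructor
            · refine List.Sublist.append (List.Sublist.refl _) (List.Sublist.cons_cons false ?_)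
              exact h5.cons_cons false
            · simp only [List.length_append, List.length_replicate, List.length_cons]
              omega
      · -- one more one
        rcases hz' with rfl | ⟨y', rfl, h5, h6, h7⟩
        · refine ⟨wd (List.replicate (r - 1) true ++ false :: t),
            ⟨_, rfl, ⟨Fw_rep (r - 1) (by omega) _, ?_⟩, GQc_notQ ?_⟩, ?_, ?_⟩
          · exact (lead_rep' true (r - 1) _).le.trans (by omega)
          · have h8 := lead_rep' true (r - 1) t
            simp only [Bool.not_true] at h8
            rw [h8]
            omega
          · rw [lt_id_wd, lis_rep]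
            omega
          · rw [lt_wd_wd_len]
            constructor
            · refine List.Sublist.append ?_ (List.Sublist.refl _)
              exact (List.replicate_sublist_replicate true).2 (by omega)
            · simp only [List.length_append, List.length_replicate, List.length_cons]
              omega
        · obtain ⟨t', g1, g2, g3, g4⟩ := GQc_mid h5 hyt h7 htl h6 hct
          refine ⟨wd (List.replicate r true ++ false :: t'),
            ⟨_, rfl, ⟨Fw_rep r (by omega) _, (lead_rep' true r _).le⟩, ?_⟩, ?_, ?_⟩
          · rw [GQb_qn]
            rintro ⟨h8, -⟩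
            omega
          · rw [lt_wd_wd_len]
            constructor
            · exact List.Sublist.append (List.Sublist.refl _) (g1.cons_cons false)
            · simp only [List.length_append, List.length_replicate, List.length_cons]
              omega
          · rw [lt_wd_wd_len]
            constructor
            · exact List.Sublist.append (List.Sublist.refl _) (g2.cons_cons false)
            · simp only [List.length_append, List.length_replicate, List.length_cons]
              omega

end H58
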