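import Pool.Agent.W_58ccg_h2.GFl
import Pool.Agent.W_58ccg_h2.GLead

/-!
# General `k`, family (V): at most `lam` leading letters `b`
-/

namespace H58

open El

theorem GV_lead_ne (b : Bool) (u : List Bool) : lead b ((!b) :: u) = 0 := by
  rw [lead]
  cases b <;> rfl

theorem GV_lead_cons (b : Bool) (u : List Bool) : lead b (b :: u) = lead b u + 1 := by
  rw [lead, if_pos rfl]

theorem GV_sub {b : Bool} {x h : List Bool} (hx : ¬ St b x) (h1 : x.Sublist (b :: h)) :
    x.Sublist h :=
  (Sub_cons (fun t ht => hx ⟨t, ht⟩)).1 h1

theorem GV_bool {b c : Bool} (h : c ≠ b) : c = !b := by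
  cases b <;> cases c <;> simp_all

theorem GV_main (n : ℕ) : ∀ (b : Bool) (lam : ℕ) (g h : List Bool), h.length ≤ n →
    wd g < wd h → lead b h ≤ lam →
    ShI (PW (fun u => lead b u ≤ lam)) (wd g) (wd h) := by
  induction n with
  | zero =>
    intro b lam g h hn hgh _
    have h1 := ((lt_wd_wd_len _ _).1 hgh).2
    omega
  | succ n ih =>
    intro b lam g h hn hgh hh
    match h, hn, hgh, hh with
    | [], _, hgh, _ =>
      have h1 := ((lt_wd_wd_len _ _).1 hgh).2
      simp at h1
    | c :: h', hn, hgh, hh =>
    have hlen : h'.length ≤ n := by simpa using hn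
    by_cases hc : c = b
    · -- top starting with `b`
      subst hc
      rw [GV_lead_cons] at hh
      obtain ⟨m, rfl⟩ : ∃ m, lam = m + 1 := ⟨lam - 1, by omega⟩
      have hh' : lead c h' ≤ m := by omega
      have hP : (fun u => (fun u => lead c u ≤ m + 1) (c :: u)) = fun u => lead c u ≤ m := by
        funext u
        show (lead c (c :: u) ≤ m + 1) = (lead c u ≤ m)
        rw [GV_lead_cons]
        exact propext ⟨fun h => by omega, fun h => by omega⟩
      have hup : ∀ x : List Bool, x.Sublist h' → ¬ St c x →
          ShI (PW (fun u => lead c u ≤ m + 1 ∧ St c u)) (wd x) (wd (c :: h')) := by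
        intro x hxh hx
        refine strip_half (fun u => lead c u ≤ m + 1) c x h' hx ?_
        rw [hP]
        refine half_of ?_ hxh fun hlt => ih c m x h' hlen hlt hh'
        show lead c x ≤ m
        rw [(lead_eq_zero c x).2 hx]
        exact Nat.zero_le _
      apply fl_red (fun u => lead c u ≤ m + 1) c (wd g) h' (Or.inl ⟨g, rfl⟩) hgh
      · by_cases hg : St c g
        · obtain ⟨g1, rfl⟩ := hg
          refine strip (fun u => lead c u ≤ m + 1) c g1 h' ?_
          rw [hP]
          refine ih c m g1 h' hlen ?_ hh'
          rw [lt_wd_wd] at hgh ⊢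
          exact ⟨List.cons_sublist_cons.1 hgh.1, fun h => hgh.2 (by rw [h])⟩
        · exact hup g (GV_sub hg ((lt_wd_wd _ _).1 hgh).1) hg
      · intro x hx hgx hxh _
        exact ih c (m + 1) g x (le_trans hxh.length_le hlen) hgx hx
      · intro x _ _ hxh hxs
        exact hup x hxh hxs
      · intro x hx hgx hxh hxs z hz hgz hzx hr
        obtain ⟨v, rfl⟩ : ∃ v, z = wd v := by
          rcases hz with hz | ⟨v, hv, _⟩
          · exact ⟨g, hz⟩
          · exact ⟨v, hv⟩
        have h1 := (lt_wd_wd_len _ _).1 hzx
        have hr' : x.length = v.length + 1 := hr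
        by_cases hv : St c v
        · obtain ⟨z1, rfl⟩ := hv
          match x, hxs, h1, hr' with
          | [], _, h1, _ => simp at h1
          | a :: t, hxs, h1, hr' =>
          have ha : a = !c := GV_bool fun h => hxs ((St_cons c a t).2 h)
          subst ha
          have h2 : (c :: z1).Sublist t := by
            rcases List.sublist_cons_iff.1 h1.1 with h | ⟨r, hr2, _⟩
            · exact h
            · simp at hr2
          have h3 : c :: z1 = t := h2.eq_of_length (by simp at hr' ⊢; omega)
          subst h3
          refine ⟨(!c) :: z1, ?_, ?_, ?_, ?_⟩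
          · show lead c (c :: (!c) :: z1) ≤ m + 1
            rw [GV_lead_cons, GV_lead_ne]
            omega
          · rw [lt_wd_wd_len]
            exact ⟨(List.sublist_cons_self _ _).cons_cons _, by simp⟩
          · exact (List.sublist_cons_self _ _).cons_cons _
          · simp
        · refine ⟨v, ?_, ?_, h1.1, hr'.symm⟩
          · show lead c (c :: v) ≤ m + 1
            rw [GV_lead_cons, (lead_eq_zero c v).2 hv]
            omega
          · rw [lt_wd_wd_len]
            exact ⟨List.sublist_cons_self _ _, by simp⟩
    · -- top starting with `!b`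
      have hc' : c = !b := GV_bool hc
      subst hc'
      have hall : ∀ u : List Bool, lead b ((!b) :: u) ≤ lam := fun u => by
        rw [GV_lead_ne]
        exact Nat.zero_le _
      apply fl_red (fun u => lead b u ≤ lam) (!b) (wd g) h' (Or.inl ⟨g, rfl⟩) hgh
      · by_cases hg : St (!b) g
        · obtain ⟨g1, rfl⟩ := hg
          refine strip (fun u => lead b u ≤ lam) (!b) g1 h' ?_
          refine sub_shI_of _ g1 h' ?_ fun u _ _ _ _ => ?_
          · rw [lt_wd_wd] at hgh ⊢
            exact ⟨List.cons_sublist_cons.1 hgh.1, fun h => hgh.2 (by rw [h])⟩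
          · exact (wd_mem_PW _ u).2 (hall u)
        · exact upper_all (fun u => lead b u ≤ lam) (!b) g h' hg
            (GV_sub hg ((lt_wd_wd _ _).1 hgh).1) (fun u _ _ => hall u)
      · intro x hx hgx hxh _
        exact ih b lam g x (le_trans hxh.length_le hlen) hgx hx
      · intro x _ _ hxh hxs
        exact upper_all (fun u => lead b u ≤ lam) (!b) x h' hxs hxh (fun u _ _ => hall u)
      · intro x hx hgx hxh hxs z hz hgz hzx hr
        obtain ⟨v, rfl⟩ : ∃ v, z = wd v := by
          rcases hz with hz | ⟨v, hv, _⟩
          · exact ⟨g, hz⟩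
          · exact ⟨v, hv⟩
        have h1 := (lt_wd_wd_len _ _).1 hzx
        have hr' : x.length = v.length + 1 := hr
        refine ⟨v, hall v, ?_, h1.1, hr'.symm⟩
        rw [lt_wd_wd_len]
        exact ⟨List.sublist_cons_self _ _, by simp⟩

/-- **(V)** Strong induction on `h.length` (all `g`, `lam`). `h = (!b) :: h'`: `fl_red` with letter
`!b`: `y = z` (`P ((!b) :: z)`, `lead = 0`); if `z` is any word below `x` then `(!b) :: z` works.
`A` part: `g = (!b) :: g'`: all words, `strip` + `sub_shI`; else `upper_all`. `h = b :: h1`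
(`lam ≥ 1`): `fl_red` with letter `b`: `z` not starting with `b`: `y = z`; `z = b :: z1 = t`
(`x = (!b) :: t`): `y = (!b) :: z1` (the word `b (!b) z1`, `lead = 1`). `A` part: `strip` and
induction with `lam - 1` if `g` starts with `b`, else `strip_half` + `half_of` + induction. -/
theorem vshI (b : Bool) (lam : ℕ) (g h : List Bool) (hgh : wd g < wd h) (hh : lead b h ≤ lam) :
    ShI (PW (fun u => lead b u ≤ lam)) (wd g) (wd h) :=
  GV_main h.length b lam g h le_rfl hgh hh

/-- half open version. -/
theorem vHP (b : Bool) (lam : ℕ) (x h : List Bool) (hxh : x.Sublist h) (hx : lead b x ≤ lam)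
    (hh : lead b h ≤ lam) :
    Sh (· < ·) (h.length - x.length) (HP (fun u => lead b u ≤ lam) x h) :=
  half_of (P := fun u => lead b u ≤ lam) hx hxh fun hlt => vshI b lam x h hlt hh

end H58
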