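import Pool.Agent.W_58ccg_h2.GWd

/-!
# General `k`: step (a) of the induction for `W_n`
-/

namespace H58

open El

/-- (a) `h = 0h'`: `fl_red` with letter `0`, `g = idp n`; `z` a word: `y := z`; `z = idp n`: `y` = a
non sorted lower cover of `x` (`exists_F_pred`, `lis_pred`). `A` part: `strip_id` + `h1`; upper part
`upper_all`. -/
theorem w_zero (lam n : ℕ) (h' : List Bool) (hn : 2 ≤ n) (hF : Fw h') (hnl : n ≤ lis h' + 1)
    (h1 : Winf (n - 1) h')
    (hlow : ∀ x, Fw x → x.Sublist h' → lead true x ≤ lam → n ≤ lis x → Wsh lam n x) :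
    Wsh lam n (false :: h') := by
  have hP0 : ∀ u, Fw u → WP lam (false :: u) := by
    intro u hu
    refine ⟨Red0_Fw.2 hu, ?_⟩
    simp [lead]
  obtain ⟨m, rfl⟩ : ∃ m, n = m + 1 := ⟨n - 1, by omega⟩
  refine fl_red (WP lam) false (idp (m + 1)) h' (Or.inr ⟨fun u hu => hu.1, Red0_Fw.2 hF⟩) ?_ ?_
    ?_ ?_ ?_
  · rw [lt_id_wd, lis_false]
    exact hnl
  · refine strip_id (WP lam) m h' ?_
    refine shI_congr (fun u _ _ => ?_) h1
    exact ⟨fun h => hP0 u h, fun h => Red0_Fw.1 h.1⟩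
  · intro x hx hgx hxh _
    exact hlow x hx.1 hxh hx.2 ((lt_id_wd _ _).1 hgx)
  · intro x hx hgx hxh hsx
    exact upper_all (WP lam) false x h' hsx hxh fun u hxu _ => hP0 u (Fw_mono hx.1 hxu)
  · intro x hx hgx hxh hsx z hz hgz hzx hrk
    rcases hz with rfl | ⟨v, rfl, hv⟩
    · rw [rk_wd, rk_id] at hrk
      obtain ⟨y, hy1, hy2, hy3⟩ := exists_F_pred hx.1 (by omega)
      refine ⟨y, hP0 y hy1, ?_, hy2, hy3⟩
      have h5 := lis_pred hy2 hy3
      have h6 := (lt_id_wd _ _).1 hgx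
      rw [lt_id_wd, lis_false]
      omega
    · rw [rk_wd, rk_wd] at hrk
      refine ⟨v, hP0 v hv.1, ?_, ((lt_wd_wd _ _).1 hzx).1, by omega⟩
      rw [lt_wd_wd_len]
      exact ⟨List.sublist_cons_self _ _, by simp⟩

end H58
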