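import Pool.Agent.W_58ccg_h2.GWd
import Pool.Agent.W_58ccg_h2.GLU

/-!
# General `k`: step (b) of the induction for `W_n`
-/

namespace H58

open El

theorem GWb_lis_lt {u : List Bool} (h : Fw u) : lis u + 1 ≤ u.length := by
  have h1 := GWd_lis (show [true, false].Sublist u from h)
  have h2 : lis [true, false] = 1 := by decide
  rw [h2] at h1
  simp only [List.length_cons, List.length_nil] at h1
  omega

theorem GWb_lis_rep (m : ℕ) : lis (List.replicate m true) = m := by
  induction m with
  | zero => simp
  | succ m ih =>
    rw [List.replicate_succ, lis_true, ih, List.count_replicate_self]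
    omega

/-- (b) `1 ≤ r = lead true h < lam`: `lead_up` with `U u = Fw u ∧ n ≤ lis u`, `b = true`,
`g = idp n`. `hbot`: `x = 1^p 0 1^(n-p)` (`one_zero`), `p ≥ r + 1`; `s ≥ 1`: `y = 1^s 0 1^(n-s)`;
`s = 0`: `y = 0 1^(p-1) 0 1^(n-p)`. -/
theorem w_up (lam n : ℕ) (h : List Bool) (hn : 2 ≤ n) (hF : Fw h) (hr : 1 ≤ lead true h)
    (hrl : lead true h < lam) (hnl : n ≤ lis h) (h1 : Wsh (lead true h) n h)
    (hlow : ∀ x, Fw x → wd x < wd h → lead true x ≤ lam → n ≤ lis x → Wsh lam n x) :
    Wsh lam n h := by
  set r := lead true h with hrdef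
  have key : ∀ (l : ℕ) (u : List Bool), idp n < wd u →
      (WP l u ↔ (Fw u ∧ n ≤ lis u) ∧ lead true u ≤ l) := by
    intro l u h2
    have h3 := (lt_id_wd _ _).1 h2
    exact ⟨fun h => ⟨⟨h.1, h3⟩, h.2⟩, fun h => ⟨h.1.1, h.2⟩⟩
  unfold Wsh
  refine shI_congr (P := fun u => (Fw u ∧ n ≤ lis u) ∧ lead true u ≤ lam)
    (fun u h2 _ => (key lam u h2).symm) ?_
  refine lead_up (fun u => Fw u ∧ n ≤ lis u)
    (fun u v hu huv => ⟨Fw_mono hu.1 huv, hu.2.trans (lis_mono huv)⟩) true (idp n) h r lam rfl hrl
    (Or.inr ⟨fun u hu => hu.1, hF⟩) ((lt_id_wd _ _).2 hnl) ?_ ?_ ?_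
  · exact shI_congr (fun u h2 _ => key r u h2) h1
  · intro x hx _ hxl _ hxh
    exact shI_congr (fun u h2 _ => key lam u h2) (hlow x hx.1 hxh hxl hx.2)
  · intro x hx hrx hgx hxh hrk s hs
    rw [rk_wd, rk_id] at hrk
    have h2 := GWb_lis_lt hx.1
    have h3 := hx.2
    have h4 : lis x = n := by omega
    obtain ⟨h5, h6⟩ := one_zero hx.1 (by omega) (by omega)
    set p := lead true x with hp
    rw [h4] at h5 h6
    -- the target
    have hdrop : x.drop s = List.replicate (p - s) true ++ false :: List.replicate (n - p) true := by
      conv_lhs => rw [h5]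
      have hps : p = s + (p - s) := by omega
      conv_lhs => rw [hps, List.replicate_add, List.append_assoc]
      rw [List.drop_left' (by simp)]
      congr 3
      omega
    rcases Nat.eq_zero_or_pos s with h0 | h0
    · subst h0
      refine ⟨false :: (List.replicate (p - 1) true ++ false :: List.replicate (n - p) true),
        ⟨?_, ?_⟩, ?_, ?_, ?_⟩
      · exact Red0_Fw.2 (Fw_rep (p - 1) (by omega) _)
      · rw [lis_false, lis_rep, List.count_replicate_self, lis_false, GWb_lis_rep]
        omega
      · simp [lead]
      · rw [lt_id_wd, lis_false, lis_rep, List.count_replicate_self, lis_false, GWb_lis_rep]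
        omega
      · rw [hdrop, lt_wd_wd_len]
        constructor
        · simp only [List.replicate_zero, List.nil_append, Bool.not_true, Nat.sub_zero]
          refine List.Sublist.cons_cons false (List.Sublist.append ?_ (List.Sublist.refl _))
          exact List.replicate_sublist_replicate true |>.2 (by omega)
        · simp
          omega
    · refine ⟨List.replicate s true ++ false :: List.replicate (n - s) true,
        ⟨?_, ?_⟩, ?_, ?_, ?_⟩
      · exact Fw_rep s h0 _
      · rw [lis_rep, List.count_replicate_self, lis_false, GWb_lis_rep]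
        omega
      · have := lead_rep' true s (List.replicate (n - s) true)
        simp only [Bool.not_true] at this
        rw [this]
        exact hs
      · rw [lt_id_wd, lis_rep, List.count_replicate_self, lis_false, GWb_lis_rep]
        omega
      · rw [hdrop, lt_wd_wd_len]
        constructor
        · simp only [Bool.not_true]
          refine List.Sublist.append (List.Sublist.refl _) (List.Sublist.cons_cons false ?_)
          have e : n - s = (p - s) + (n - p) := by omega
          rw [e, List.replicate_add]
          exact List.Sublist.append (List.Sublist.refl _) (List.sublist_cons_self _ _)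
        · simp
          omega

end H58
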