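import Pool.Agent.W_58ccg_h2.GV

/-!
# General `k`: the word filters `W_n`, definitions and small lemmas
-/

namespace H58

open El

/-- non sorted words with at most `lam` leading ones. -/
def WP (lam : ℕ) (u : List Bool) : Prop := Fw u ∧ lead true u ≤ lam

/-- `{u ∈ F : lead u ≤ lam, lis u ≥ n, u < h}` is pure of the right dimension and shellable. -/
def Wsh (lam n : ℕ) (h : List Bool) : Prop := ShI (PW (WP lam)) (idp n) (wd h)

/-- the same without restriction of the leading ones. -/
def Winf (n : ℕ) (h : List Bool) : Prop := ShI (PW Fw) (idp n) (wd h)

theorem wsh_iff_winf (lam n : ℕ) (h : List Bool) (hl : h.length ≤ lam) : Wsh lam n h ↔ Winf n h := by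
  have key : ∀ u, idp n < wd u → wd u < wd h → (WP lam u ↔ Fw u) := by
    intro u _ h2
    have h3 := ((lt_wd_wd_len u h).1 h2).2
    have h4 := lead_le_length true u
    exact ⟨fun h => h.1, fun h => ⟨h, by omega⟩⟩
  exact ⟨fun H => shI_congr key H, fun H => shI_congr (fun u h1 h2 => (key u h1 h2).symm) H⟩

theorem GWd_count {u v : List Bool} (h : u.Sublist v) :
    v.count true + u.length ≤ u.count true + v.length := by
  induction h with
  | slnil => simp
  | cons b h ih =>
    cases b
    · simp; omega
    · simp; omega
  | cons_cons b h ih =>
    cases b
    · simp; omega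
    · simp; omega

theorem GWd_lis {u v : List Bool} (h : u.Sublist v) : lis v + u.length ≤ lis u + v.length := by
  induction h with
  | slnil => simp
  | cons b h ih =>
    rename_i l₁ l₂
    have hc := count_le_lis l₂
    cases b
    · simp only [lis_false, List.length_cons]; omega
    · simp only [lis_true, List.length_cons]; omega
  | cons_cons b h ih =>
    have hc := GWd_count h
    cases b
    · simp only [lis_false, List.length_cons]; omega
    · simp only [lis_true, List.length_cons]; omega

/-- deleting one letter decreases `lis` by at most one. -/
theorem lis_pred {u v : List Bool} (h : u.Sublist v) (hl : u.length + 1 = v.length) :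
    lis v ≤ lis u + 1 := by
  have := GWd_lis h
  omega

/-- a proper subword is contained in a lower cover. -/
theorem GWd_pred {s v : List Bool} (h : s.Sublist v) (hl : s.length < v.length) :
    ∃ u, s.Sublist u ∧ u.Sublist v ∧ u.length + 1 = v.length := by
  induction h with
  | slnil => simp at hl
  | cons b h ih =>
    rename_i l₁ l₂
    exact ⟨l₂, h, List.sublist_cons_self _ _, by simp⟩
  | cons_cons b h ih =>
    simp only [List.length_cons] at hl
    obtain ⟨u, h1, h2, h3⟩ := ih (by omega)
    exact ⟨b :: u, h1.cons_cons b, h2.cons_cons b, by simp [h3]⟩

/-- a non sorted word of length at least 3 has a non sorted lower cover. -/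
theorem exists_F_pred {v : List Bool} (hv : Fw v) (h3 : 3 ≤ v.length) :
    ∃ u, Fw u ∧ u.Sublist v ∧ u.length + 1 = v.length := by
  have hl : [true, false].length < v.length := by simp; omega
  obtain ⟨u, h1, h2, h4⟩ := GWd_pred hv hl
  exact ⟨u, h1, h2, h4⟩

/-- `lis (1^r 0 y) = max (lis (0y)) (r + #1 y)`. -/
theorem lis_rep (r : ℕ) (y : List Bool) : lis (List.replicate r true ++ false :: y) =
    max (lis (false :: y)) (r + y.count true) := by
  have hc := count_le_lis y
  induction r with
  | zero => simp; omega
  | succ r ih =>
    have e : (List.replicate r true ++ false :: y).count true = r + y.count true := by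
      simp [List.count_append, List.count_replicate]
    rw [List.replicate_succ, List.cons_append, lis_true, ih, e]
    omega

/-- a non sorted word with at least two leading ones and `lis x = |x| - 1` is `1^p 0 1^q`. -/
theorem one_zero {x : List Bool} (hx : Fw x) (h2 : 2 ≤ lead true x) (hl : x.length = lis x + 1) :
    x = List.replicate (lead true x) true ++ false :: List.replicate (lis x - lead true x) true ∧
      lead true x ≤ lis x := by
  have hf : (!true) ∈ x := by
    have h3 : [true, false].Sublist x := hx
    exact h3.subset (by simp)
  obtain ⟨t, ht⟩ := lead_decomp' true x hf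
  have ht' : x = List.replicate (lead true x) true ++ false :: t := ht
  set p := lead true x with hp
  have h4 : lis x = max (lis (false :: t)) (p + t.count true) := by
    conv_lhs => rw [ht']
    exact lis_rep p t
  have h5 : x.length = p + (t.length + 1) := by
    conv_lhs => rw [ht']
    simp
  have h6 := lis_le_length t
  rw [lis_false] at h4
  have h7 : lis x = p + t.count true := by omega
  have h8 : t.count true = t.length := by omega
  have h9 : t = List.replicate (lis x - p) true := by
    rw [List.eq_replicate_iff]
    refine ⟨by omega, fun b hb => ?_⟩
    exact (List.count_eq_length.1 h8 b hb).symm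
  constructor
  · rw [← h9]
    exact ht'
  · omega

theorem Fw_rep (r : ℕ) (hr : 1 ≤ r) (y : List Bool) : Fw (List.replicate r true ++ false :: y) := by
  obtain ⟨r', rfl⟩ := Nat.exists_eq_add_of_le' hr
  rw [List.replicate_succ, List.cons_append]
  refine List.Sublist.cons_cons true ?_
  rw [List.singleton_sublist]
  simp

theorem Fw_mono {u v : List Bool} (hu : Fw u) (h : u.Sublist v) : Fw v := hu.trans h

end H58
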