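import Pool.Agent.W_58ccg_h2.GWd

/-!
# General `k`: `W_1` and `W_2`
-/

namespace H58

open El

theorem GWe_len {h : List Bool} (hF : Fw h) : 2 ≤ h.length := by
  have := List.Sublist.length_le (show [true, false].Sublist h from hF)
  simpa using this

theorem GWe_lt {h : List Bool} (hF : Fw h) (h3 : 3 ≤ h.length) : wd [true, false] < wd h := by
  rw [lt_wd_wd_len]
  refine ⟨hF, ?_⟩
  simp only [List.length_cons, List.length_nil]
  omega

theorem GWe_lis10 : lis [true, false] = 1 := by decide

/-- `n = 1`: cone with apex `10` over (V). -/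
theorem w_one (lam : ℕ) (h : List Bool) (hl1 : 1 ≤ lam) (hF : Fw h) (hl : lead true h ≤ lam) :
    Wsh lam 1 h := by
  have h2 := GWe_len hF
  unfold Wsh ShI
  rw [rk_id, rk_wd]
  have hlis : ∀ u, Fw u → 1 ≤ lis u := fun u hu => by
    have := lis_mono (show [true, false].Sublist u from hu)
    rw [GWe_lis10] at this
    exact this
  by_cases h3 : h.length = 2
  · have he : [true, false] = h := by
      have hs : [true, false].Sublist h := hF
      exact hs.eq_of_length (by simp [h3])
    have e : Op (PW (WP lam)) (idp 1) (wd h) = ∅ := by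
      ext x
      simp only [Set.mem_empty_iff_false, iff_false]
      rintro ⟨⟨u, rfl, hu, _⟩, _, h5⟩
      have h6 := ((lt_wd_wd_len _ _).1 h5).2
      have h7 := GWe_len hu
      omega
    rw [e, h3]
    exact sh_empty _
  · have h4 : 3 ≤ h.length := by omega
    have hlt := GWe_lt hF h4
    have hV := vshI true lam [true, false] h hlt hl
    unfold ShI at hV
    rw [rk_wd, rk_wd] at hV
    have e : Op (PW (WP lam)) (idp 1) (wd h) = insert (wd [true, false])
        (Op (PW (fun u => lead true u ≤ lam)) (wd [true, false]) (wd h)) := by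
      ext x
      rw [Set.mem_insert_iff]
      constructor
      · rintro ⟨⟨u, rfl, hu, hul⟩, _, h5⟩
        by_cases he : u = [true, false]
        · left
          rw [he]
        · right
          refine ⟨⟨u, rfl, hul⟩, ?_, h5⟩
          rw [lt_wd_wd]
          exact ⟨hu, fun h => he h.symm⟩
      · rintro (rfl | ⟨⟨u, rfl, hul⟩, h5, h6⟩)
        · refine ⟨⟨_, rfl, List.Sublist.refl _, ?_⟩, ?_, hlt⟩
          · simp [lead]
            omega
          · rw [lt_id_wd, GWe_lis10]
        · have hu : Fw u := ((lt_wd_wd _ _).1 h5).1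
          refine ⟨⟨u, rfl, hu, hul⟩, ?_, h6⟩
          rw [lt_id_wd]
          exact hlis u hu
    rw [e]
    have hd : h.length - 1 - 1 = h.length - [true, false].length - 1 + 1 := by
      simp
      omega
    rw [hd]
    refine sh_cone _ ?_ ?_ hV
    · rintro ⟨_, h5, _⟩
      exact absurd h5 (lt_irrefl _)
    · rintro q ⟨_, h5, _⟩
      exact Or.inl h5

theorem GWe_count_false (z : List Bool) : z.count false ≤ lis z := by
  induction z with
  | nil => simp
  | cons b z ih =>
    cases b
    · simp; omega
    · simp; omega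

theorem GWe_lis2 {u : List Bool} (h : 3 ≤ u.length) : 2 ≤ lis u := by
  have h1 := count_le_lis u
  have h2 := GWe_count_false u
  have h3 : u.count true + u.count false = u.length := by
    clear h h1 h2
    induction u with
    | nil => simp
    | cons b z ih =>
      cases b
      · simp; omega
      · simp; omega
  omega

/-- `n = 2`: all non sorted words except `10`, i.e. (V) above `10`. -/
theorem w_two (lam : ℕ) (h : List Bool) (hl1 : 1 ≤ lam) (hF : Fw h) (hl : lead true h ≤ lam)
    (h2 : 2 ≤ lis h) : Wsh lam 2 h := by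
  have h3 := GWe_len hF
  have hne : h ≠ [true, false] := by
    rintro rfl
    rw [GWe_lis10] at h2
    omega
  have h4 : 3 ≤ h.length := by
    by_contra hcon
    have h5 : h.length = 2 := by omega
    have hs : [true, false].Sublist h := hF
    exact hne (hs.eq_of_length (by simp [h5])).symm
  have hlt := GWe_lt hF h4
  have hV := vshI true lam [true, false] h hlt hl
  unfold ShI at hV
  unfold Wsh ShI
  rw [rk_wd, rk_wd] at hV
  rw [rk_id, rk_wd]
  have e : Op (PW (WP lam)) (idp 2) (wd h) =
      Op (PW (fun u => lead true u ≤ lam)) (wd [true, false]) (wd h) := by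
    ext x
    constructor
    · rintro ⟨⟨u, rfl, hu, hul⟩, h5, h6⟩
      refine ⟨⟨u, rfl, hul⟩, ?_, h6⟩
      rw [lt_wd_wd]
      refine ⟨hu, ?_⟩
      rintro rfl
      rw [lt_id_wd, GWe_lis10] at h5
      omega
    · rintro ⟨⟨u, rfl, hul⟩, h5, h6⟩
      have h7 := (lt_wd_wd_len _ _).1 h5
      refine ⟨⟨u, rfl, h7.1, hul⟩, ?_, h6⟩
      rw [lt_id_wd]
      refine GWe_lis2 ?_
      have := h7.2
      simp only [List.length_cons, List.length_nil] at this
      omega
  rw [e]
  exact hV

end H58
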