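import Pool.Agent.W_58ccg_h2.GWa
import Pool.Agent.W_58ccg_h2.GWb
import Pool.Agent.W_58ccg_h2.GWe
import Pool.Agent.W_58ccg_h2.GQc
import Pool.Agent.W_58ccg_h2.GC3
import Pool.Agent.W_58ccg_h2.GDb
import Pool.Agent.W_58ccg_h2.GGoodB

/-!
# General `k`: the induction for `W_n`
-/

namespace H58

open El

theorem GWm_len {l : List Bool} (h : Fw l) : 1 ≤ l.length := by
  have h1 : ([true, false] : List Bool).length ≤ l.length := h.length_le
  have h2 : ([true, false] : List Bool).length = 2 := rfl
  omega

/-- **Claim W.** Strong induction on `h.length`, all `n`, `lam`. `n = 1, 2`: `w_one`, `w_two`.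
`n ≥ 3`: `h = 0h'`: `w_zero`; `lead true h < lam`: `w_up` (after the case `lam = lead true h`);
`lam = lead true h = r ≥ 2`: `w_crit` if `lis (1^(r-1) 0 h2) < n`, else `q_step` + `w_down`
(`hG` = `good_key`); `r = 1`: `dshI`. -/
theorem w_main (h : List Bool) (hF : Fw h) (n lam : ℕ) (hn : 1 ≤ n) (hnl : n ≤ lis h)
    (hav : AvB n h) (hl1 : 1 ≤ lam) (hl : lead true h ≤ lam) : Wsh lam n h := by
  induction hN : h.length using Nat.strong_induction_on generalizing h n lam with
  | _ N ih =>
  have ih' : ∀ h' : List Bool, h'.length < h.length → Fw h' → ∀ n lam, 1 ≤ n → n ≤ lis h' →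
      AvB n h' → 1 ≤ lam → lead true h' ≤ lam → Wsh lam n h' := by
    intro h' hlt hF' n' lam' a b c d e
    exact ih h'.length (by omega) h' hF' n' lam' a b c d e rfl
  have ihinf : ∀ h' : List Bool, h'.length < h.length → Fw h' → ∀ n, 1 ≤ n → n ≤ lis h' →
      AvB n h' → Winf n h' := by
    intro h' hlt hF' n' a b c
    rw [← wsh_iff_winf h'.length n' h' le_rfl]
    exact ih' h' hlt hF' n' h'.length a b c (GWm_len hF') (lead_le_length true h')
  by_cases hn1 : n = 1
  · subst hn1
    exact w_one lam h hl1 hF hl
  by_cases hn2 : n = 2
  · subst hn2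
    exact w_two lam h hl1 hF hl hnl
  have hn3 : 3 ≤ n := by omega
  match h, hF, hnl, hav, hl, ih', ihinf with
  | [], hF, _, _, _, _, _ =>
    have := GWm_len hF
    simp at this
  | false :: h', hF, hnl, hav, hl, ih', ihinf =>
    have hF' : Fw h' := Red0_Fw.1 hF
    have hlt : h'.length < (false :: h').length := by simp
    rw [lis_false] at hnl
    apply w_zero lam n h' (by omega) hF' hnl
    · exact ihinf h' hlt hF' (n - 1) (by omega) (by omega) (avb_zero hn hav)
    · intro x hx hxh hxl hnx
      refine ih' x (lt_of_le_of_lt hxh.length_le hlt) hx n lam hn hnx ?_ hl1 hxl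
      exact avb_mono (hxh.trans (List.sublist_cons_self _ _)) hav
  | true :: h1, hF, hnl, hav, hl, ih', ihinf =>
    obtain ⟨h, hh⟩ : ∃ h, h = true :: h1 := ⟨_, rfl⟩
    rw [← hh] at hF hnl hav hl ih' ihinf ⊢
    have hr1 : 1 ≤ lead true h := by
      rw [hh]
      simp [lead]
    have hfm : false ∈ h := hF.subset (by simp)
    obtain ⟨h2, hh2⟩ := lead_decomp' true h hfm
    obtain ⟨r, hr⟩ : ∃ r, r = lead true h := ⟨_, rfl⟩
    rw [← hr] at hh2 hr1 hl
    have hh2' : h = List.replicate r true ++ false :: h2 := hh2
    have hlen : h.length = r + h2.length + 1 := by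
      rw [hh2']
      simp
      omega
    -- the case `lam = r`
    have key : Wsh r n h := by
      by_cases hr2 : 2 ≤ r
      · by_cases hcr : lis (List.replicate (r - 1) true ++ false :: h2) < n
        · rw [hh2']
          exact w_crit r n h2 hr1 hcr (by rw [← hh2']; exact hnl)
        · push Not at hcr
          have hG : ∀ u : List Bool, u.Sublist h2 → r + u.count true = n →
              n ≤ lis (false :: u) → r = 2 ∧ St false u := by
            intro u hu hc hlu
            refine good_key r n u h hr2 hav ?_ hc hlu
            rw [hh2']
            exact (List.Sublist.refl _).append (hu.cons_cons _)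
          have hdown := w_down r n h2 hr2 hcr (by
            intro y hy hny
            refine ih' _ ?_ (Fw_rep (r - 1) (by omega) y) n (r - 1) hn hny ?_ (by omega) ?_
            · have := hy.length_le
              simp
              omega
            · refine avb_mono ?_ hav
              rw [hh2']
              exact (List.replicate_sublist_replicate true |>.2 (by omega)).append
                (hy.cons_cons _)
            · have := lead_rep' true (r - 1) y
              exact this.le)
          have hq := q_step r n h2 hr2 hn3 hG hcr hdown
          rw [hh2']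
          exact hq
      · have hr1' : r = 1 := by omega
        rw [hr1'] at hh2' ⊢
        have hh3 : h = true :: false :: h2 := hh2'
        rw [hh3]
        have hnl' : n ≤ lis h2 + 1 := by
          rw [hh3] at hnl
          have hc := count_le_lis h2
          have h5 : (false :: h2).count true = h2.count true := by simp
          rw [lis_true, lis_false, h5] at hnl
          omega
        apply dshI n h2 hn3 hnl'
        intro t ht hth hnt
        refine ihinf t ?_ ht (n - 1) (by omega) (by omega) ?_
        · have := hth.length_le
          omega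
        · refine avb_zero hn (avb_mono (v := h) ?_ hav)
          rw [hh3]
          exact (hth.cons_cons _).cons _
    by_cases hlam : lam = r
    · rw [hlam]; exact key
    · apply w_up lam n h (by omega) hF (by omega) (by omega) hnl
      · rw [← hr]; exact key
      · intro x hx hxh hxl hnx
        have hxh' := (lt_wd_wd_len _ _).1 hxh
        exact ih' x hxh'.2 hx n lam hn hnx (avb_mono hxh'.1 hav) hl1 hxl

end H58
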