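import Pool.Agent.W_58ccg_h2.GFl
import Pool.Agent.W_58ccg_h2.GLead

/-!
# General `k`, family (X): at least one more `1` than the bottom
-/

namespace H58

open El

/-- (X) unrestricted. -/
def XS (g h : List Bool) : Prop :=
  ShI (PW (fun u => g.count true < u.count true)) (wd g) (wd h)

/-- (X) with at most `lam` leading zeros. -/
def XL (lam : ℕ) (g h : List Bool) : Prop :=
  ShI (PW (fun u => g.count true < u.count true ∧ lead false u ≤ lam)) (wd g) (wd h)

/-- bottom `[]`: the half open interval above `1`. -/
theorem x_nil (h : List Bool) (hc : 0 < h.count true) : XS [] h := by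
  have hone : ∀ u : List Bool, [true].Sublist u ↔ 0 < u.count true := by
    intro u
    rw [List.singleton_sublist, List.count_pos_iff]
  have h1 := HP_all (P := fun u => 0 < u.count true) [true] h ((hone h).2 hc)
    (fun u hu _ => (hone u).1 hu)
  have e : Op (PW (fun u => ([] : List Bool).count true < u.count true)) (wd []) (wd h) =
      HP (fun u => 0 < u.count true) [true] h := by
    ext y
    constructor
    · rintro ⟨⟨u, rfl, hu⟩, h2, h3⟩
      rw [List.count_nil] at hu
      rw [lt_wd_wd] at h3
      exact ⟨u, rfl, hu, (hone u).2 hu, h3.1, h3.2⟩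
    · rintro ⟨u, rfl, hu, h2, h3, h4⟩
      refine ⟨⟨u, rfl, ?_⟩, ?_, ?_⟩
      · show ([] : List Bool).count true < u.count true
        rw [List.count_nil]
        exact hu
      · rw [lt_wd_wd]
        refine ⟨List.nil_sublist u, ?_⟩
        rintro rfl
        simp at hu
      · rw [lt_wd_wd]
        exact ⟨h3, h4⟩
  unfold XS ShI
  rw [e, show rk (wd h) - rk (wd []) - 1 = h.length - [true].length by
    simp only [rk_wd, List.length_nil, List.length_cons]; omega]
  exact h1

/-- a cover of `w` not starting with `b` while `w` starts with `b`: one letter in front. -/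
theorem GX_cover (b : Bool) (w x : List Bool) (hw : St b w) (hx : ¬ St b x)
    (h : w.Sublist x) (hl : x.length = w.length + 1) : x = (!b) :: w := by
  cases x with
  | nil => simp at hl
  | cons c t =>
    rw [St_cons] at hx
    have hc : c = !b := by cases b <;> cases c <;> simp_all
    have h1 : w.Sublist t := by
      obtain ⟨w', rfl⟩ := hw
      rcases List.cons_sublist_cons'.1 h with h2 | h2
      · exact h2
      · exact absurd h2.1.symm hx
    have h2 : w = t := h1.eq_of_length (by
      simp only [List.length_cons] at hl
      omega)
    rw [hc, h2]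

theorem GX_lt_cons (b : Bool) (v : List Bool) : wd v < wd (b :: v) := by
  rw [lt_wd_wd_len]
  exact ⟨List.sublist_cons_self _ _, by simp⟩

/-- (X1) `g = 0g'`, `h = 0h'`: `fl_red` with letter `0`, `A` part `strip` + `XS g' h'`;
`z` with more ones: `y = z`; `z = g`: `x = 1g`, `y = 1g'` (the word `01g'`). Upper part
`upper_all`. -/
theorem x_step1 (g' h' : List Bool) (hgh : wd (false :: g') < wd (false :: h'))
    (hc : g'.count true < h'.count true) (h1 : XS g' h')
    (hlow : ∀ x : List Bool, x.Sublist h' → wd (false :: g') < wd x →
      (false :: g').count true < x.count true → XS (false :: g') x) :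
    XS (false :: g') (false :: h') := by
  have hcf : ∀ u : List Bool, (false :: u).count true = u.count true := fun u =>
    List.count_cons_of_ne (by decide)
  refine fl_red (fun u => (false :: g').count true < u.count true) false (wd (false :: g')) h'
    (Or.inl ⟨_, rfl⟩) hgh ?_ ?_ ?_ ?_
  · refine strip (fun u => (false :: g').count true < u.count true) false g' h' ?_
    refine shI_congr ?_ h1
    intro u _ _
    show g'.count true < u.count true ↔ (false :: g').count true < (false :: u).count true
    rw [hcf, hcf]
  · intro x hx hgx hxh _
    exact hlow x hxh hgx hx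
  · intro x hx hgx hxh hxs
    refine upper_all _ false x h' hxs hxh ?_
    intro u hxu _
    show (false :: g').count true < (false :: u).count true
    rw [hcf u]
    exact lt_of_lt_of_le hx (hxu.count_le true)
  · intro x hx hgx hxh hxs z hz hgz hzx hr
    rcases hz with rfl | ⟨v, rfl, hv⟩
    · rw [rk_wd, rk_wd] at hr
      have h2 := (lt_wd_wd_len _ _).1 hgx
      have h3 := GX_cover false (false :: g') x ((St_cons false false g').2 rfl) hxs h2.1 hr
      simp only [Bool.not_false] at h3
      refine ⟨true :: g', ?_, ?_, ?_, ?_⟩
      · show (false :: g').count true < (false :: true :: g').count true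
        rw [hcf, hcf, List.count_cons_self]
        omega
      · rw [lt_wd_wd_len]
        exact ⟨List.cons_sublist_cons.2 (List.sublist_cons_self _ _), by simp⟩
      · rw [h3]
        exact List.cons_sublist_cons.2 (List.sublist_cons_self _ _)
      · rw [hr]
        simp
    · have h2 := (lt_wd_wd_len _ _).1 hzx
      rw [rk_wd, rk_wd] at hr
      refine ⟨v, ?_, GX_lt_cons false v, h2.1, hr.symm⟩
      show (false :: g').count true < (false :: v).count true
      rw [hcf v]
      exact hv

/-- (X2) `g = 1g1`, `h = 1h1`: `fl_red` with letter `1`; `z` starting with `0`: `y = z`;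
`z = 1z1` (`x = 0z`): `y = 1z1` (the word `11z1`). -/
theorem x_step2 (g1 h1 : List Bool) (hgh : wd (true :: g1) < wd (true :: h1))
    (hc : g1.count true < h1.count true) (hX : XS g1 h1)
    (hlow : ∀ x : List Bool, x.Sublist h1 → wd (true :: g1) < wd x →
      (true :: g1).count true < x.count true → XS (true :: g1) x) :
    XS (true :: g1) (true :: h1) := by
  have hct : ∀ u : List Bool, (true :: u).count true = u.count true + 1 := fun u =>
    List.count_cons_self
  have hP1 : ∀ u : List Bool, (true :: g1).count true < u.count true →
      (true :: g1).count true < (true :: u).count true := by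
    intro u hu
    rw [hct u]
    omega
  refine fl_red (fun u => (true :: g1).count true < u.count true) true (wd (true :: g1)) h1
    (Or.inl ⟨_, rfl⟩) hgh ?_ ?_ ?_ ?_
  · refine strip (fun u => (true :: g1).count true < u.count true) true g1 h1 ?_
    refine shI_congr ?_ hX
    intro u _ _
    show g1.count true < u.count true ↔ (true :: g1).count true < (true :: u).count true
    rw [hct, hct]
    omega
  · intro x hx hgx hxh _
    exact hlow x hxh hgx hx
  · intro x hx hgx hxh hxs
    refine upper_all _ true x h1 hxs hxh ?_
    intro u hxu _
    exact hP1 u (lt_of_lt_of_le hx (hxu.count_le true))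
  · intro x hx hgx hxh hxs z hz hgz hzx hr
    rcases hz with rfl | ⟨v, rfl, hv⟩
    · exfalso
      rw [rk_wd, rk_wd] at hr
      have h2 := (lt_wd_wd_len _ _).1 hgx
      have h3 := GX_cover true (true :: g1) x ((St_cons true true g1).2 rfl) hxs h2.1 hr
      simp only [Bool.not_true] at h3
      have h5 : (false :: true :: g1).count true = (true :: g1).count true :=
        List.count_cons_of_ne (by decide)
      rw [h3, h5] at hx
      exact lt_irrefl _ hx
    · have h2 := (lt_wd_wd_len _ _).1 hzx
      rw [rk_wd, rk_wd] at hr
      exact ⟨v, hP1 v hv, GX_lt_cons true v, h2.1, hr.symm⟩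

/-- (X3) `g = 0g'`, `h = 1h1`: `A` part is `upper_all` (a `1` in front gives more ones). -/
theorem x_step3 (g' h1 : List Bool) (hgh : wd (false :: g') < wd (true :: h1))
    (hlow : ∀ x : List Bool, x.Sublist h1 → wd (false :: g') < wd x →
      (false :: g').count true < x.count true → XS (false :: g') x) :
    XS (false :: g') (true :: h1) := by
  have hct : ∀ u : List Bool, (true :: u).count true = u.count true + 1 := fun u =>
    List.count_cons_self
  have hns : ¬ St true (false :: g') := by rw [St_cons]; decide
  have hgs : (false :: g').Sublist h1 := by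
    have h2 := ((lt_wd_wd _ _).1 hgh).1
    rcases List.cons_sublist_cons'.1 h2 with h | h
    · exact h
    · exact absurd h.1 (by decide)
  have hP1 : ∀ u : List Bool, (false :: g').count true ≤ u.count true →
      (false :: g').count true < (true :: u).count true := by
    intro u hu
    rw [hct u]
    omega
  refine fl_red (fun u => (false :: g').count true < u.count true) true (wd (false :: g')) h1
    (Or.inl ⟨_, rfl⟩) hgh ?_ ?_ ?_ ?_
  · refine upper_all _ true (false :: g') h1 hns hgs ?_
    intro u hxu _
    exact hP1 u (hxu.count_le true)
  · intro x hx hgx hxh _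
    exact hlow x hxh hgx hx
  · intro x hx hgx hxh hxs
    refine upper_all _ true x h1 hxs hxh ?_
    intro u hxu _
    exact hP1 u ((le_of_lt hx).trans (hxu.count_le true))
  · intro x hx hgx hxh hxs z hz hgz hzx hr
    rcases hz with rfl | ⟨v, rfl, hv⟩
    · rw [rk_wd, rk_wd] at hr
      have h2 := (lt_wd_wd_len _ _).1 hgx
      exact ⟨false :: g', hP1 _ le_rfl, GX_lt_cons true _, h2.1, hr.symm⟩
    · have h2 := (lt_wd_wd_len _ _).1 hzx
      rw [rk_wd, rk_wd] at hr
      exact ⟨v, hP1 v (le_of_lt hv), GX_lt_cons true v, h2.1, hr.symm⟩

end H58
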