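import Pool.Agent.W_58ccg_h2.GX
import Pool.Agent.W_58ccg_h2.GLU
import Pool.Agent.W_58ccg_h2.GLD

/-!
# General `k`, family (X): bounded number of leading zeros
-/

namespace H58

open El

/-- (X4a) `g = 1g1`, `h = 1h1`, at most `lam` leading zeros: as (X2); the `A` part has no
restriction. -/
theorem x_step4 (lam : ℕ) (g1 h1 : List Bool) (hgh : wd (true :: g1) < wd (true :: h1))
    (hc : g1.count true < h1.count true) (hX : XS g1 h1)
    (hlow : ∀ x : List Bool, x.Sublist h1 → wd (true :: g1) < wd x →
      (true :: g1).count true < x.count true → lead false x ≤ lam → XL lam (true :: g1) x) :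
    XL lam (true :: g1) (true :: h1) := by
  have hlead : ∀ u : List Bool, lead false (true :: u) ≤ lam := fun u => by
    rw [show lead false (true :: u) = 0 from by rw [lead]; rfl]
    exact Nat.zero_le _
  have hP1 : ∀ u : List Bool, (true :: g1).count true < u.count true →
      (true :: g1).count true < (true :: u).count true ∧ lead false (true :: u) ≤ lam := by
    intro u hu
    refine ⟨?_, hlead u⟩
    rw [List.count_cons_self (l := u)]
    omega
  refine fl_red (fun u => (true :: g1).count true < u.count true ∧ lead false u ≤ lam) true
    (wd (true :: g1)) h1 (Or.inl ⟨_, rfl⟩) hgh ?_ ?_ ?_ ?_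
  · refine strip (fun u => (true :: g1).count true < u.count true ∧ lead false u ≤ lam) true
      g1 h1 ?_
    refine shI_congr ?_ hX
    intro u _ _
    constructor
    · intro h
      refine ⟨?_, hlead u⟩
      rw [List.count_cons_self, List.count_cons_self]
      omega
    · rintro ⟨h, -⟩
      rw [List.count_cons_self, List.count_cons_self] at h
      omega
  · rintro x ⟨hx1, hx2⟩ hgx hxh _
    exact hlow x hxh hgx hx1 hx2
  · rintro x ⟨hx1, hx2⟩ hgx hxh hxs
    refine upper_all _ true x h1 hxs hxh ?_
    intro u hxu _
    exact hP1 u (hx1.trans_le (hxu.count_le true))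
  · rintro x ⟨hx1, hx2⟩ hgx hxh hxs z hz hgz hzx hr
    rcases hz with rfl | ⟨v, rfl, hv1, hv2⟩
    · exfalso
      have h2 := (lt_wd_wd_len _ _).1 hgx
      rw [rk_wd, rk_wd] at hr
      cases x with
      | nil => simp at h2
      | cons c t =>
        cases c with
        | true => exact hxs ((St_cons true true t).2 rfl)
        | false =>
          have h3 : (true :: g1).Sublist t := by
            rcases List.cons_sublist_cons'.1 h2.1 with h | h
            · exact h
            · exact absurd h.1 (by simp)
          have h4 : true :: g1 = t := h3.eq_of_length (by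
            simp only [List.length_cons] at hr ⊢
            omega)
          have h5 : (false :: true :: g1).count true = (true :: g1).count true :=
            List.count_cons_of_ne (by decide)
          rw [← h4, h5] at hx1
          exact lt_irrefl _ hx1
    · have h2 := (lt_wd_wd_len _ _).1 hzx
      rw [rk_wd, rk_wd] at hr
      refine ⟨v, hP1 v hv1, ?_, h2.1, hr.symm⟩
      rw [lt_wd_wd_len]
      exact ⟨List.sublist_cons_self _ _, by simp⟩

/-- (X4b) `1 ≤ p = lead false h < lam`: `lead_up` with `b = false`; `hbot` is empty: `g = 1g1` is
not a lower cover of a word starting with `00`. -/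
theorem x_step5 (lam : ℕ) (g1 h : List Bool) (hgh : wd (true :: g1) < wd h)
    (hp : 1 ≤ lead false h) (hpl : lead false h < lam)
    (hA : XL (lead false h) (true :: g1) h)
    (hlow : ∀ x : List Bool, wd x < wd h → wd (true :: g1) < wd x →
      (true :: g1).count true < x.count true → lead false x ≤ lam → XL lam (true :: g1) x) :
    XL lam (true :: g1) h := by
  refine lead_up (fun u => (true :: g1).count true < u.count true)
    (fun u v hu huv => lt_of_lt_of_le hu (huv.count_le true)) false (wd (true :: g1)) h
    (lead false h) lam rfl hpl (Or.inl ⟨_, rfl⟩) hgh hA ?_ ?_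
  · intro x hx _ hl hgx hxh
    exact hlow x hxh hgx hx hl
  · intro x hx hl hgx hxh hr
    exfalso
    have h2 := (lt_wd_wd_len _ _).1 hgx
    rw [rk_wd, rk_wd] at hr
    obtain ⟨t, ht, -⟩ := lead_decomp false x
    obtain ⟨q, hq⟩ : ∃ q, lead false x = q + 2 := ⟨lead false x - 2, by omega⟩
    rw [hq] at ht
    rw [List.replicate_succ, List.replicate_succ, List.cons_append, List.cons_append] at ht
    have h3 : (true :: g1).Sublist (List.replicate q false ++ t) := by
      have h4 := h2.1
      rw [ht] at h4
      rcases List.cons_sublist_cons'.1 h4 with h | h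
      · rcases List.cons_sublist_cons'.1 h with h | h
        · exact h
        · exact absurd h.1 (by simp)
      · exact absurd h.1 (by simp)
    have h5 := h3.length_le
    have h6 : x.length = (List.replicate q false ++ t).length + 2 := by
      conv_lhs => rw [ht]
      simp
    omega

/-- (X4c) `lam = p = lead false h ≥ 1`: `lead_down` with `b = false`, `Q = False`. -/
theorem x_step6 (g1 h : List Bool) (hgh : wd (true :: g1) < wd h)
    (hc : (true :: g1).count true < h.count true) (hp : 1 ≤ lead false h)
    (hlow : ∀ x : List Bool, x.length < h.length → wd (true :: g1) < wd x →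
      (true :: g1).count true < x.count true → lead false x ≤ lead false h - 1 →
      XL (lead false h - 1) (true :: g1) x) :
    XL (lead false h) (true :: g1) h := by
  have hmem : ∀ u : List Bool, (true :: g1).count true < u.count true → (!false) ∈ u := by
    intro u hu
    have h1 : 0 < u.count true := by omega
    exact List.count_pos_iff.1 h1
  obtain ⟨t, ht⟩ := lead_decomp' false h (hmem h hc)
  obtain ⟨r, hr⟩ : ∃ r, r = lead false h := ⟨_, rfl⟩
  rw [← hr] at hp ht hlow ⊢
  have hcount : ∀ (m : ℕ) (y : List Bool),
      (List.replicate m false ++ (!false) :: y).count true = y.count true + 1 := by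
    intro m y
    simp [List.count_append, List.count_replicate]
  have hstep : ∀ y : List Bool,
      (true :: g1).count true < (List.replicate r false ++ (!false) :: y).count true →
      wd (true :: g1) < wd (List.replicate r false ++ (!false) :: y) →
      (true :: g1).count true < (List.replicate (r - 1) false ++ (!false) :: y).count true ∧
        wd (true :: g1) < wd (List.replicate (r - 1) false ++ (!false) :: y) := by
    intro y h1 h2
    have h3 : (true :: g1).count true <
        (List.replicate (r - 1) false ++ (!false) :: y).count true := by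
      rw [hcount] at h1 ⊢
      exact h1
    refine ⟨h3, ?_⟩
    rw [lt_wd_wd]
    have h4 : g1.Sublist y := by
      have h5 := ((lt_wd_wd _ _).1 h2).1
      exact (rep_sub_iff false 0 r g1 y (Nat.zero_le _)).1 h5
    refine ⟨(rep_sub_iff false 0 (r - 1) g1 y (Nat.zero_le _)).2 h4, fun h5 => ?_⟩
    rw [← h5] at h3
    exact lt_irrefl _ h3
  have key := lead_down (fun u => (true :: g1).count true < u.count true) (fun _ => False)
    (fun u v hu huv => lt_of_lt_of_le hu (huv.count_le true)) false hmem (wd (true :: g1)) r hp t
    (Or.inl ⟨_, rfl⟩) (fun u hu => hu.elim) (fun x v _ _ _ _ => not_false)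
    (fun y h1 _ h2 _ => hstep y h1 h2) (hstep t (by rw [← ht]; exact hc) (by rw [← ht]; exact hgh))
    (fun y hyt h1 h2 => by
      refine hlow _ ?_ h2 h1 ?_
      · rw [ht]
        have := hyt.length_le
        simp only [List.length_append, List.length_replicate, List.length_cons]
        omega
      · rw [lead_rep'])
  rw [← ht] at key
  refine shI_congr ?_ key
  intro u _ _
  exact ⟨fun h => ⟨h.1, h.2.1⟩, fun h => ⟨h.1, h.2, not_false⟩⟩

end H58
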