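import Pool.Agent.W_58ccg_h2.GXb

/-!
# General `k`, family (X): the induction
-/

namespace H58

open El

theorem GXm_lead_le (u : List Bool) : lead false u ≤ u.length := by
  obtain ⟨t, ht, _⟩ := lead_decomp false u
  have h2 := congrArg List.length ht
  rw [List.length_append, List.length_replicate] at h2
  omega

theorem GXm_lt_cons {b : Bool} {g h : List Bool} (hgh : wd (b :: g) < wd (b :: h)) :
    wd g < wd h := by
  rw [lt_wd_wd] at hgh ⊢
  refine ⟨List.cons_sublist_cons.1 hgh.1, fun he => hgh.2 (by rw [he])⟩

/-- Both families, strong induction on `h.length`: for `g = 1g1`: first `XL lam` with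
`lam = lead false h` (`x_step4` if `h` starts with `1`, `x_step6` otherwise), then all `lam`
(`x_step4`, `x_step5`), then `XS` (for `h` starting with `0`: `XL h.length`, no restriction;
`h` starting with `1`: `x_step2`); `g = 0g'`: `x_step1`, `x_step3`; `g = []`: `x_nil`. -/
theorem x_all (h g : List Bool) (hgh : wd g < wd h) (hc : g.count true < h.count true) :
    XS g h ∧ ∀ lam, lead false h ≤ lam → St true g → XL lam g h := by
  obtain ⟨n, hn⟩ : ∃ n, h.length = n := ⟨_, rfl⟩
  induction n using Nat.strong_induction_on generalizing h g with
  | _ n ih =>
  have IH : ∀ x y : List Bool, x.length < h.length → wd y < wd x →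
      y.count true < x.count true → XS y x ∧ ∀ lam, lead false x ≤ lam → St true y → XL lam y x :=
    fun x y hx h1 h2 => ih x.length (by omega) x y h1 h2 rfl
  cases g with
  | nil =>
    refine ⟨x_nil h (by simpa using hc), fun lam _ hst => ?_⟩
    rw [St_nil] at hst
    exact hst.elim
  | cons a g' =>
    cases a with
    | false =>
      refine ⟨?_, fun lam _ hst => ?_⟩
      swap
      · rw [St_cons] at hst
        exact absurd hst (by decide)
      cases h with
      | nil => exact absurd ((lt_wd_wd_len _ _).1 hgh).2 (by simp)
      | cons c h' =>
        have hlow : ∀ x : List Bool, x.Sublist h' → wd (false :: g') < wd x →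
            (false :: g').count true < x.count true → XS (false :: g') x := by
          intro x hx h1 h2
          refine (IH x _ ?_ h1 h2).1
          have := hx.length_le
          rw [List.length_cons]
          omega
        cases c with
        | false =>
          have hc' : g'.count true < h'.count true := by simpa using hc
          refine x_step1 g' h' hgh hc' ?_ hlow
          exact (IH h' g' (by simp) (GXm_lt_cons hgh) hc').1
        | true => exact x_step3 g' h' hgh hlow
    | true =>
      cases h with
      | nil => exact absurd ((lt_wd_wd_len _ _).1 hgh).2 (by simp)
      | cons c h' =>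
        cases c with
        | true =>
          have hc' : g'.count true < h'.count true := by simpa using hc
          have hX : XS g' h' := (IH h' g' (by simp) (GXm_lt_cons hgh) hc').1
          have hlen : ∀ x : List Bool, x.Sublist h' → x.length < (true :: h').length := by
            intro x hx
            have := hx.length_le
            rw [List.length_cons]
            omega
          refine ⟨x_step2 g' h' hgh hc' hX fun x hx h1 h2 => (IH x _ (hlen x hx) h1 h2).1,
            fun lam _ _ => x_step4 lam g' h' hgh hc' hX fun x hx h1 h2 h3 =>
              (IH x _ (hlen x hx) h1 h2).2 lam h3 ((St_cons true true g').2 rfl)⟩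
        | false =>
          obtain ⟨h, hh⟩ : ∃ h, h = false :: h' := ⟨_, rfl⟩
          rw [← hh] at hgh hc hn IH ⊢
          have hp : 1 ≤ lead false h := by
            rw [hh]
            simp [lead]
          have hst : St true (true :: g') := (St_cons true true g').2 rfl
          have hA : XL (lead false h) (true :: g') h := by
            refine x_step6 g' h hgh hc hp fun x hx h1 h2 h3 => ?_
            exact (IH x _ hx h1 h2).2 _ h3 hst
          have hall : ∀ lam, lead false h ≤ lam → XL lam (true :: g') h := by
            intro lam hlam
            rcases hlam.eq_or_lt with he | hlt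
            · rw [← he]
              exact hA
            · refine x_step5 lam g' h hgh hp hlt hA fun x hx h1 h2 h3 => ?_
              exact (IH x _ ((lt_wd_wd_len _ _).1 hx).2 h1 h2).2 _ h3 hst
          refine ⟨?_, fun lam hlam _ => hall lam hlam⟩
          refine shI_congr ?_ (hall h.length (GXm_lead_le h))
          intro u _ hu
          have h1 := ((lt_wd_wd_len _ _).1 hu).2
          have h2 := GXm_lead_le u
          exact ⟨fun h3 => h3.1, fun h3 => ⟨h3, by omega⟩⟩

end H58
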