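import Pool.Agent.W_58ccg_h2.GV

/-!
# General `k`, family (Z): non sorted words above a sorted word
-/

namespace H58

open El

/-- a single letter: all non sorted words are above `10`. -/
theorem z_one (b : Bool) (h : List Bool) (hh : Fw h) : ShI (PW Fw) (wd [b]) (wd h) := by
  have e : Op (PW Fw) (wd [b]) (wd h) = HO [true, false] h := by
    ext x
    constructor
    · rintro ⟨⟨u, rfl, hu⟩, _, h2⟩
      rw [lt_wd_wd] at h2
      exact ⟨u, rfl, hu, h2.1, h2.2⟩
    · rintro ⟨u, rfl, hu, h1, h2⟩
      refine ⟨⟨u, rfl, hu⟩, ?_, (lt_wd_wd _ _).2 ⟨h1, h2⟩⟩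
      rw [lt_wd_wd_len]
      refine ⟨?_, ?_⟩
      · refine List.Sublist.trans ?_ hu
        cases b
        · exact List.Sublist.cons true (List.Sublist.refl _)
        · exact List.Sublist.cons_cons true (List.nil_sublist _)
      · have h3 := hu.length_le
        simp only [List.length_cons, List.length_nil] at h3 ⊢
        omega
  unfold ShI
  rw [e, show rk (wd h) - rk (wd [b]) - 1 = h.length - [true, false].length by
    simp only [rk_wd, List.length_cons, List.length_nil]; omega]
  exact sub_HO [true, false] h hh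

theorem GZ_cons {a : Bool} {v : List Bool} : wd v < wd (a :: v) := by
  rw [lt_wd_wd_len]
  exact ⟨List.sublist_cons_self _ _, by simp⟩

/-- a word with a zero after a one. -/
theorem GZ_Fw_true {u : List Bool} (h : false ∈ u) : Fw (true :: u) :=
  (List.singleton_sublist.2 h).cons_cons true

theorem GZ_all {s : List Bool} (h : false ∉ s) (hs0 : s ≠ []) : ∃ t, s = true :: t := by
  cases s with
  | nil => exact absurd rfl hs0
  | cons b t =>
    cases b
    · exact absurd (List.mem_cons_self) h
    · exact ⟨t, rfl⟩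

/-- `s = 0s'`, `h = 0h'`: `fl_red` with letter `0`; `z` non sorted: `y := z`; `z = s`
(`x = 1s`): if `s'` contains `0` then `y := 1s'` (word `01s'`), if `s' = 1^b` (`b ≥ 1`) then
`y := 101^(b-1)` (word `0101^(b-1)`). `A` part: `strip` + `hA`. -/
theorem z_step0 (s' h' : List Bool) (hs : ¬ Fw (false :: s')) (hs0 : s' ≠ []) (hh : Fw h')
    (hsh : s'.Sublist h') (hA : ShI (PW Fw) (wd s') (wd h'))
    (hlow : ∀ x : List Bool, x.Sublist h' → Fw x → (false :: s').Sublist x →
      ShI (PW Fw) (wd (false :: s')) (wd x)) :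
    ShI (PW Fw) (wd (false :: s')) (wd (false :: h')) := by
  have hFe : (fun u => Fw (false :: u)) = Fw := by
    funext u
    exact propext Red0_Fw
  have hs' : ¬ Fw s' := fun h => hs (Red0_Fw.2 h)
  have hne : s' ≠ h' := fun h => hs' (by rw [h]; exact hh)
  apply fl_red Fw false (wd (false :: s')) h' (Or.inl ⟨_, rfl⟩)
  · rw [lt_wd_wd]
    exact ⟨hsh.cons_cons false, fun h => hne (List.cons.inj h).2⟩
  · apply strip Fw false s' h'
    rw [hFe]
    exact hA
  · intro x hx hgx hxh _
    exact hlow x hxh hx ((lt_wd_wd _ _).1 hgx).1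
  · intro x hx _ hxh hxs
    apply upper_all Fw false x h' hxs hxh
    intro u hu _
    exact Red0_Fw.2 (List.Sublist.trans hx hu)
  · intro x hx hgx hxh hxs z hz hgz hzx hr
    rcases hz with rfl | ⟨v, rfl, hv⟩
    · have h1 := (lt_wd_wd_len _ _).1 hzx
      match x, hx, hxs, h1, hr with
      | [], _, _, h1, _ => simp at h1
      | false :: t, _, hxs, _, _ => exact absurd ⟨t, rfl⟩ hxs
      | true :: t, _, _, h1, hr =>
        have h2 : (false :: s').Sublist t := by
          rcases List.sublist_cons_iff.1 h1.1 with h | ⟨r, hr2, _⟩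
          · exact h
          · simp at hr2
        have h3 : false :: s' = t := h2.eq_of_length (by
          simp only [rk_wd, List.length_cons] at hr ⊢
          omega)
        subst h3
        by_cases hf : false ∈ s'
        · refine ⟨true :: s', Red0_Fw.2 (GZ_Fw_true hf), ?_, ?_, ?_⟩
          · rw [lt_wd_wd_len]
            exact ⟨(List.sublist_cons_self _ _).cons_cons _, by simp⟩
          · exact (List.sublist_cons_self _ _).cons_cons _
          · simp
        · obtain ⟨t, rfl⟩ := GZ_all hf hs0
          refine ⟨true :: false :: t, Red0_Fw.2 (GZ_Fw_true List.mem_cons_self), ?_, ?_, ?_⟩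
          · rw [lt_wd_wd_len]
            exact ⟨((List.sublist_cons_self _ _).cons_cons _).cons_cons _, by simp⟩
          · exact ((List.sublist_cons_self _ _).cons_cons _).cons_cons _
          · simp
    · have h1 := (lt_wd_wd_len _ _).1 hzx
      exact ⟨v, Red0_Fw.2 hv, GZ_cons, h1.1, hr.symm⟩

/-- `s = 0s'`, `h = 1h1`: `fl_red` with letter `1`; `z` starting with `0`: `y := z`; `z = 1z1`:
`y := 1z1` (word `11z1`). `A` part: `upper_all` (`1u ∈ F` for `u ≥ s`). -/
theorem z_step1 (s' h1 : List Bool) (hs : ¬ Fw (false :: s')) (hs0 : s' ≠ [])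
    (hsh : (false :: s').Sublist (true :: h1))
    (hlow : ∀ x : List Bool, x.Sublist h1 → Fw x → (false :: s').Sublist x →
      ShI (PW Fw) (wd (false :: s')) (wd x)) :
    ShI (PW Fw) (wd (false :: s')) (wd (true :: h1)) := by
  have hn : ¬ St true (false :: s') := by
    rw [St_cons]
    simp
  have hsub : (false :: s').Sublist h1 := by
    rcases List.sublist_cons_iff.1 hsh with h | ⟨r, hr2, _⟩
    · exact h
    · simp at hr2
  apply fl_red Fw true (wd (false :: s')) h1 (Or.inl ⟨_, rfl⟩)
  · rw [lt_wd_wd]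
    exact ⟨hsh, by simp⟩
  · apply upper_all Fw true (false :: s') h1 hn hsub
    intro u hu _
    exact GZ_Fw_true (hu.subset List.mem_cons_self)
  · intro x hx hgx hxh _
    exact hlow x hxh hx ((lt_wd_wd _ _).1 hgx).1
  · intro x hx _ hxh hxs
    apply upper_all Fw true x h1 hxs hxh
    intro u hu _
    exact (List.Sublist.trans hx hu).cons true
  · intro x hx hgx hxh hxs z hz hgz hzx hr
    obtain ⟨v, rfl⟩ : ∃ v, z = wd v := by
      rcases hz with hz | ⟨v, hv, _⟩
      · exact ⟨_, hz⟩
      · exact ⟨v, hv⟩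
    have h1 := (lt_wd_wd_len _ _).1 hzx
    have h2 : (false :: s').Sublist v := (le_wd_wd _ _).1 hgz
    exact ⟨v, GZ_Fw_true (h2.subset List.mem_cons_self), GZ_cons, h1.1, hr.symm⟩

end H58
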