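import Pool.Agent.W_58ccg_h2.GZ
import Pool.Agent.W_58cc_h2.Mir

/-!
# General `k`, family (Z): the induction
-/

namespace H58

open El

/-- the mirror on `El`. -/
def GZb_phi : El → El
  | idp n => idp n
  | wd l => wd (mir l)

theorem GZb_phi_phi (x : El) : GZb_phi (GZb_phi x) = x := by
  cases x with
  | idp n => rfl
  | wd l => simp only [GZb_phi, mir_mir]

theorem GZb_phi_le (a b : El) : GZb_phi a ≤ GZb_phi b ↔ a ≤ b := by
  cases a <;> cases b <;> simp [GZb_phi, lis_mir, mir_sublist]

theorem GZb_phi_lt (a b : El) : GZb_phi a < GZb_phi b ↔ a < b := by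
  rw [lt_iff_le_not_ge, lt_iff_le_not_ge, GZb_phi_le, GZb_phi_le]

theorem GZb_phi_mem (x : El) : GZb_phi x ∈ PW Fw ↔ x ∈ PW Fw := by
  cases x <;> simp [GZb_phi, Fw_mir]

/-- transport along the mirror. -/
theorem z_mir (s h : List Bool) (H : ShI (PW Fw) (wd (mir s)) (wd (mir h))) :
    ShI (PW Fw) (wd s) (wd h) := by
  unfold ShI at H ⊢
  have h1 := sh_image (s := (· < ·)) GZb_phi
    (fun a _ b _ hab => by rw [← GZb_phi_phi a, hab, GZb_phi_phi])
    (fun a _ b _ => (GZb_phi_lt a b).symm) H
  have h2 : GZb_phi '' Op (PW Fw) (wd (mir s)) (wd (mir h)) = Op (PW Fw) (wd s) (wd h) := by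
    ext x
    constructor
    · rintro ⟨y, ⟨hy1, hy2, hy3⟩, rfl⟩
      refine ⟨(GZb_phi_mem y).2 hy1, ?_, ?_⟩
      · have h3 := (GZb_phi_lt (wd (mir s)) y).2 hy2
        have h4 : GZb_phi (wd (mir s)) = wd s := by simp only [GZb_phi, mir_mir]
        rwa [h4] at h3
      · have h3 := (GZb_phi_lt y (wd (mir h))).2 hy3
        have h4 : GZb_phi (wd (mir h)) = wd h := by simp only [GZb_phi, mir_mir]
        rwa [h4] at h3
    · rintro ⟨hx1, hx2, hx3⟩
      exact ⟨GZb_phi x, ⟨(GZb_phi_mem x).2 hx1, (GZb_phi_lt (wd s) x).2 hx2,
        (GZb_phi_lt x (wd h)).2 hx3⟩, GZb_phi_phi x⟩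
  rw [h2] at h1
  have h5 : rk (wd (mir s)) = rk (wd s) := by simp
  have h6 : rk (wd (mir h)) = rk (wd h) := by simp
  rwa [h5, h6] at h1

theorem GZb_fw_ne {h : List Bool} (hh : Fw h) : h ≠ [] := by
  rintro rfl
  unfold Fw at hh
  simp at hh

theorem GZb_rep (N : ℕ) : ∀ (h : List Bool), h.length = N → ∀ a, 1 ≤ a → Fw h →
    (List.replicate a false).Sublist h → ShI (PW Fw) (wd (List.replicate a false)) (wd h) := by
  induction N using Nat.strong_induction_on with
  | _ N ih =>
    intro h hN a ha hh hsub
    obtain ⟨a', rfl⟩ : ∃ a', a = a' + 1 := ⟨a - 1, by omega⟩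
    cases a' with
    | zero => exact z_one false h hh
    | succ a' =>
      have hs : ¬ Fw (false :: List.replicate (a' + 1) false) := by
        intro h1
        have h2 := h1.count_le true
        simp [List.count_replicate] at h2
      have hs0 : List.replicate (a' + 1) false ≠ [] := by
        simp
      cases h with
      | nil => exact absurd rfl (GZb_fw_ne hh)
      | cons b h' =>
        rw [List.length_cons] at hN
        cases b
        · have hh' : Fw h' := Red0_Fw.1 hh
          have hsub' : (List.replicate (a' + 1) false).Sublist h' := by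
            rw [List.replicate_succ, List.cons_sublist_cons] at hsub
            exact hsub
          refine z_step0 _ h' hs hs0 hh' hsub' (ih h'.length (by omega) h' rfl (a' + 1)
            (by omega) hh' hsub') ?_
          intro x hx hFx hsx
          exact ih x.length (by have := hx.length_le; omega) x rfl (a' + 1 + 1) (by omega) hFx hsx
        · refine z_step1 _ h' hs hs0 hsub ?_
          intro x hx hFx hsx
          exact ih x.length (by have := hx.length_le; omega) x rfl (a' + 1 + 1) (by omega) hFx hsx

theorem GZb_ones {t : List Bool} (h : ¬ Fw (true :: t)) : t = List.replicate t.length true := by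
  have h1 : false ∉ t := by
    intro h2
    apply h
    unfold Fw
    exact List.Sublist.cons_cons true (List.singleton_sublist.2 h2)
  apply List.eq_replicate_of_mem
  intro b hb
  cases b
  · exact absurd hb h1
  · rfl

theorem GZb_all (N : ℕ) : ∀ (s h : List Bool), h.length = N → ¬ Fw s → s ≠ [] → Fw h →
    s.Sublist h → ShI (PW Fw) (wd s) (wd h) := by
  induction N using Nat.strong_induction_on with
  | _ N ih =>
    intro s h hN hs hs0 hh hsub
    cases s with
    | nil => exact absurd rfl hs0
    | cons c s' =>
      cases c
      · by_cases hs1 : s' = []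
        · subst hs1
          exact z_one false h hh
        · cases h with
          | nil => exact absurd rfl (GZb_fw_ne hh)
          | cons b h' =>
            rw [List.length_cons] at hN
            cases b
            · have hh' : Fw h' := Red0_Fw.1 hh
              have hsub' : s'.Sublist h' := by
                rw [List.cons_sublist_cons] at hsub
                exact hsub
              refine z_step0 s' h' hs hs1 hh' hsub' (ih h'.length (by omega) s' h' rfl
                (fun h1 => hs (Red0_Fw.2 h1)) hs1 hh' hsub') ?_
              intro x hx hFx hsx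
              exact ih x.length (by have := hx.length_le; omega) _ x rfl hs hs0 hFx hsx
            · refine z_step1 s' h' hs hs1 hsub ?_
              intro x hx hFx hsx
              exact ih x.length (by have := hx.length_le; omega) _ x rfl hs hs0 hFx hsx
      · have e : true :: s' = List.replicate (s'.length + 1) true := by
          rw [List.replicate_succ, ← GZb_ones hs]
        have e2 : mir (true :: s') = List.replicate (s'.length + 1) false := by
          rw [e]
          simp [mir]
        apply z_mir
        rw [e2]
        refine GZb_rep _ (mir h) rfl (s'.length + 1) (by omega) ((Fw_mir h).2 hh) ?_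
        rw [← e2]
        exact (mir_sublist _ _).2 hsub

/-- **(Z)** first `s = 0^a` (induction), then `s = 1^b` (mirror), then `s = 0^a 1^b`. -/
theorem zshI (s h : List Bool) (hs : ¬ Fw s) (hs0 : s ≠ []) (hh : Fw h) (hsh : s.Sublist h) :
    ShI (PW Fw) (wd s) (wd h) :=
  GZb_all h.length s h rfl hs hs0 hh hsh

end H58
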