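import Pool.Agent.W_58cc_h2.Glue

/-!
# MP_58cc3c_co: shellable intervals below a permutation with one descent

The permutations with at most one descent form a down-set of the pattern poset.  A permutation with one descent is
encoded by the binary word `l` of the values (`l v = 1` if the value `v` stands in the second run); patterns become
subwords, the sorted words `0 ^ a 1 ^ b` are the identities (`Dict.lean`).  So the interval from `id_k` to the word `w`
consists of the `idp n`, `k ≤ n ≤ lis w` (greatest length of a sorted subword) and of the non sorted subwords `u` of
`w` with `k ≤ lis u`.

Main tool (`AbsB.lean`, `Up.lean`): if `A ⊆ P`, the part of the interval in `A` is shellable, and for every `x` outside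
`A` the part of `P` below `x` and the part of `A` above `x` are shellable, then the interval of `P` is shellable,
provided that for `z < x < a` covering relations with `z ∈ P`, `a ∈ A` there is `y ∈ A` with `z < y < a`: order the
facets by their largest element outside `A`.  With this lemma one removes, from an interval `[id_k, w]`, the words
starting with `1` (if `w` starts with `0`), the words starting with `11`, then those starting with `10` (if `w`
starts with `10`); by the mirror symmetry only `w = 11...00` is left, which for the avoiders is `1 ^ r 00` or
`110 ^ r`, and these are treated directly.  If `w` contains `111000` or `110100`, the link of a chain through `id_3`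
and this word falls into two classes (three ones, three zeros), which contradicts shellability (`Neg.lean`).
-/

namespace Pool.Agent.W_58ccg_h2.OneDescentOld

open Pool.Agent.W_58cc_h2

/-- Let `t` be a permutation with exactly one descent, `k ≤ 3` and `id_k ≤ t`.  The complex `Δ(id_k, t)` is shellable
if and only if `t` avoids 456123 and 356124, and if and only if `Δ(s, t)` is shellable for every pattern `s` of `t`. -/
theorem result (t : FPerm) (ht : OneDescent t) (k : ℕ) (hk : k ≤ 3) (hkt : PatLE (idn k) t) :
    (Shellable (Delta (idn k) t) ↔ ¬ PatLE p456123 t ∧ ¬ PatLE p356124 t) ∧
    (Shellable (Delta (idn k) t) ↔ ∀ s, PatLE s t → Shellable (Delta s t)) := by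
  have h1 := (final t ht).1 k hk hkt
  exact ⟨h1, fun h => (final t ht).2 (h1.1 h).1 (h1.1 h).2, fun h => h _ hkt⟩

end Pool.Agent.W_58ccg_h2.OneDescentOld
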